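import Pool.Agent.H20NC.RTree
import Pool.Agent.H20PW.OneI

/-!
# Decision trees for existential sentences which are correct near a random oracle
-/

set_option autoImplicit false

namespace Pool.Agent.H20NC

open Filter MeasureTheory Pool.Agent.NPC Pool.Agent.H620R2.Gauge Pool.Agent.TH678.GC
  Pool.Agent.Y626.WG
open Pool.Agent.H20RD (DepOn rnd w w_nonneg Orc)
open Pool.Agent.Y626.WC (DT DD card_DD DD_len atoms_loc sat_one Sq mem_Sq cut)
open Pool.Agent.H20PW (mn mn_nonneg mn_le_one mn_le_w err_le bc)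

/-- the numbers -/
def yy (W K g n : ℕ) : ℕ := 2 * g * W + ((g + K + W) * (g * W) + g + 2 * n + 2)

theorem yy_sq (W K g n : ℕ) :
    (g + K + 2 * yy W K g n + W) * (g * W) + g + (2 * n + 2) ≤ yy W K g n ^ 2 := by
  have h1 : 1 ≤ yy W K g n := by unfold yy; omega
  have h2 : yy W K g n = 2 * g * W + ((g + K + W) * (g * W) + g + 2 * n + 2) := rfl
  generalize yy W K g n = Y at h1 h2 ⊢
  generalize hR : (g + K + W) * (g * W) + g + 2 * n + 2 = R at h2
  have h3 : R ≤ R * Y := Nat.le_mul_of_pos_right _ h1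
  calc (g + K + 2 * Y + W) * (g * W) + g + (2 * n + 2) =
        2 * g * W * Y + ((g + K + W) * (g * W) + g + 2 * n + 2) := by ring
    _ = 2 * g * W * Y + R := by rw [hR]
    _ ≤ 2 * g * W * Y + R * Y := by omega
    _ = (2 * g * W + R) * Y := by ring
    _ = Y ^ 2 := by rw [← h2, pow_two]

theorem num (W K g n : ℕ) (hK : 1 ≤ K) {ε : ℝ} (e0 : 0 ≤ ε) (e1 : ε ≤ 1)
    (hε : 1 ≤ (K : ℝ) * ε ^ W) {k : ℕ} (hk : k ≤ W) :
    (((g + 1) * (K * yy W K g n ^ 2) * W + 1 : ℕ) : ℝ) ^ (g * k) *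
      ((g + 1) * (1 - ε ^ W) ^ (K * yy W K g n ^ 2)) ≤ (1 / 2) ^ (2 * n + 2) := by
  set Y := yy W K g n with hY
  have h1 : (g + 1) * (K * Y ^ 2) * W + 1 ≤ 2 ^ (g + K + 2 * Y + W) := by
    have a1 : g + 1 ≤ 2 ^ g := Nat.lt_two_pow_self
    have a2 : K ≤ 2 ^ K := Nat.lt_two_pow_self.le
    have a3 : Y ^ 2 ≤ 2 ^ (2 * Y) := by
      rw [mul_comm, pow_mul]
      exact Nat.pow_le_pow_left Nat.lt_two_pow_self.le _
    have a4 : W + 1 ≤ 2 ^ W := Nat.lt_two_pow_self
    have a5 : (g + 1) * (K * Y ^ 2) ≤ 2 ^ g * (2 ^ K * 2 ^ (2 * Y)) :=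
      Nat.mul_le_mul a1 (Nat.mul_le_mul a2 a3)
    have a6 : 1 ≤ 2 ^ g * (2 ^ K * 2 ^ (2 * Y)) := by
      have := Nat.one_le_two_pow (n := g)
      have h2 := Nat.one_le_two_pow (n := K)
      have h3 := Nat.one_le_two_pow (n := 2 * Y)
      exact Nat.mul_pos this (Nat.mul_pos h2 h3)
    calc (g + 1) * (K * Y ^ 2) * W + 1 ≤ 2 ^ g * (2 ^ K * 2 ^ (2 * Y)) * W +
          2 ^ g * (2 ^ K * 2 ^ (2 * Y)) := Nat.add_le_add (Nat.mul_le_mul_right _ a5) a6
      _ = 2 ^ g * (2 ^ K * 2 ^ (2 * Y)) * (W + 1) := by ring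
      _ ≤ 2 ^ g * (2 ^ K * 2 ^ (2 * Y)) * 2 ^ W := Nat.mul_le_mul_left _ a4
      _ = 2 ^ (g + K + 2 * Y + W) := by rw [pow_add, pow_add, pow_add]; ring
  have h2 : (((g + 1) * (K * Y ^ 2) * W + 1 : ℕ) : ℝ) ^ (g * k) ≤
      2 ^ ((g + K + 2 * Y + W) * (g * W)) := by
    have b1 : ((g + 1) * (K * Y ^ 2) * W + 1) ^ (g * k) ≤
        2 ^ ((g + K + 2 * Y + W) * (g * W)) := by
      rw [pow_mul 2]
      refine (Nat.pow_le_pow_left h1 _).trans (Nat.pow_le_pow_right (by positivity) ?_)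
      exact Nat.mul_le_mul_left _ hk
    exact_mod_cast b1
  have h3 : ((g : ℝ) + 1) ≤ 2 ^ g := by
    have : g + 1 ≤ 2 ^ g := Nat.lt_two_pow_self
    exact_mod_cast this
  have h4 : (1 - ε ^ W) ^ (K * Y ^ 2) ≤ (1 / 2 : ℝ) ^ (Y ^ 2) :=
    err_le (pow_le_one₀ e0 e1) hε _
  have h5 : (0 : ℝ) ≤ (1 - ε ^ W) ^ (K * Y ^ 2) := by
    have : ε ^ W ≤ 1 := pow_le_one₀ e0 e1
    exact pow_nonneg (by linarith) _
  have h6 := yy_sq W K g n
  rw [← hY] at h6
  calc (((g + 1) * (K * Y ^ 2) * W + 1 : ℕ) : ℝ) ^ (g * k) *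
        ((g + 1) * (1 - ε ^ W) ^ (K * Y ^ 2))
      ≤ 2 ^ ((g + K + 2 * Y + W) * (g * W)) * (2 ^ g * (1 / 2) ^ (Y ^ 2)) :=
        mul_le_mul h2 (mul_le_mul h3 h4 h5 (by positivity))
          (mul_nonneg (by positivity) h5) (by positivity)
    _ = 2 ^ ((g + K + 2 * Y + W) * (g * W) + g) * (1 / 2) ^ (Y ^ 2) := by rw [pow_add]; ring
    _ ≤ 2 ^ ((g + K + 2 * Y + W) * (g * W) + g) *
        (1 / 2) ^ ((g + K + 2 * Y + W) * (g * W) + g + (2 * n + 2)) :=
        mul_le_mul_of_nonneg_left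
          (pow_le_pow_of_le_one (by norm_num) (by norm_num) h6) (by positivity)
    _ = (1 / 2) ^ (2 * n + 2) := by
        rw [pow_add (1 / 2 : ℝ), ← mul_assoc, ← mul_pow]
        norm_num

/-- the oracle `A`, replaced on the strings shorter than `n₀` by the set `F` -/
noncomputable def ov (n₀ : ℕ) (F : List (List Bool)) (A : Orc) : Orc := by
  classical
  exact fun z => if z.length < n₀ then decide (z ∈ F) else A z

theorem ov_eq {n₀ : ℕ} {F : List (List Bool)} {A : Orc}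
    (h : ∀ z, z ∈ F ↔ z.length < n₀ ∧ A z = true) : ov n₀ F A = A := by
  classical
  funext z
  unfold ov
  split_ifs with hz
  · by_cases h1 : A z = true
    · rw [h1, decide_eq_true_eq]
      exact (h z).2 ⟨hz, h1⟩
    · have h2 : z ∉ F := fun h2 => h1 ((h z).1 h2).2
      rw [Bool.not_eq_true] at h1
      rw [h1, decide_eq_false_iff_not]
      exact h2
  · rfl

/-- the bound for the number of questions -/
def bdd (C W g n : ℕ) : ℕ :=
  (g + 1) * (C * (n + 1) * yy W (C * (n + 1)) g n ^ 2) * W ^ 2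

theorem one_inst (p : ℕ → unitInterval) (n₀ : ℕ) (F : List (List Bool)) (E : Orc) {I : Inst}
    (hI : I.IsW 1) (g n : ℕ) (hn : (bits I).length ^ 2 ≤ n) {C : ℕ} (hC1 : 1 ≤ C)
    (hC : ∀ m, n₀ ≤ m → 1 ≤ C * (m + 1) * mn (p m) ^ I.param) :
    ∃ t : DT, t.depth ≤ bdd C I.param g n ∧ (∀ h, (t.nx h).length ≤ (bits I).length ^ 2) ∧
      t.In (Sq ((bits I).length ^ 2) : Set (List Bool)) ∧
      (rnd fun x => p x.length).real (nb g (Sq ((bits I).length ^ 2))
        {A | ¬ (t.eval A = true ↔ I.Sat (join (ov n₀ F A) E))}) ≤ (1 / 2) ^ (2 * n + 2) := by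
  classical
  set s := (bits I).length ^ 2 with hs
  have hD : ∀ (v : List ℕ) (z : List Bool), z ∈ (DD I v).filter (fun z => n₀ ≤ z.length) →
      z.length ≤ s ∧ n₀ ≤ z.length := by
    intro v z hz
    rw [Finset.mem_filter] at hz
    exact ⟨DD_len I hz.1, hz.2⟩
  set S := (Sq s).filter (fun z => n₀ ≤ z.length) with hS
  obtain ⟨t, h1, h2, h3⟩ := rtree I.param (C * (n + 1) * yy I.param (C * (n + 1)) g n ^ 2) g S
    I.param le_rfl
    (List ℕ) (fun v A => (v.length = I.blocks.sum ∧ ∀ a ∈ v, a < I.labels.length) ∧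
      I.atoms.map (I.atom (join (ov n₀ F A) E) v) ∈ I.acc)
    (fun v => (DD I v).filter (fun z => n₀ ≤ z.length))
    (fun v A A' h => by
      have e : I.atoms.map (I.atom (join (ov n₀ F A) E) v) =
          I.atoms.map (I.atom (join (ov n₀ F A') E) v) := by
        refine atoms_loc I fun z hz => ?_
        unfold ov
        split_ifs with hsp
        · rfl
        · exact h z (Finset.mem_filter.2 ⟨hz, not_lt.1 hsp⟩)
      change (_ ∧ _ ∈ I.acc) ↔ (_ ∧ _ ∈ I.acc)
      rw [e])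
    (fun v z hz => Finset.mem_filter.2 ⟨mem_Sq.2 (hD v z hz).1, (hD v z hz).2⟩)
    (fun v _ => (Finset.card_filter_le _ _).trans (card_DD I v))
  have hin : t.In (Sq s : Set (List Bool)) := by
    refine DT.In.mono ?_ _ h2
    refine Set.iUnion_subset fun v z hz => ?_
    exact Finset.mem_coe.2 (mem_Sq.2 (hD v z (Finset.mem_coe.1 hz)).1)
  have hinS : t.In (S : Set (List Bool)) := by
    refine DT.In.mono ?_ _ h2
    refine Set.iUnion_subset fun v z hz => ?_
    have h4 := hD v z (Finset.mem_coe.1 hz)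
    exact Finset.mem_coe.2 (Finset.mem_filter.2 ⟨mem_Sq.2 h4.1, h4.2⟩)
  refine ⟨t, h1, fun h => ?_, hin, ?_⟩
  · rcases DT.nx_mem t hin h with h4 | h4
    · rw [h4]
      simp
    · exact mem_Sq.1 (Finset.mem_coe.1 h4)
  · have hex : ∃ ε : ℝ, 0 ≤ ε ∧ ε ≤ 1 ∧ (∀ z ∈ S, ∀ β, ε ≤ w β (p z.length)) ∧
        1 ≤ ((C * (n + 1) : ℕ) : ℝ) * ε ^ I.param := by
      rcases S.eq_empty_or_nonempty with he | hne
      · refine ⟨1, zero_le_one, le_rfl, fun z hz => ?_, ?_⟩
        · rw [he] at hz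
          simp at hz
        · rw [one_pow, mul_one]
          have : 1 ≤ C * (n + 1) := Nat.mul_pos hC1 (by omega)
          exact_mod_cast this
      · obtain ⟨z0, hz0, hmin⟩ := S.exists_min_image (fun z => mn (p z.length)) hne
        rw [hS, Finset.mem_filter, mem_Sq] at hz0
        refine ⟨mn (p z0.length), mn_nonneg _, mn_le_one _, fun z hz β =>
          (hmin z hz).trans (mn_le_w _ β), ?_⟩
        refine (hC z0.length hz0.2).trans ?_
        refine mul_le_mul_of_nonneg_right ?_ (pow_nonneg (mn_nonneg _) _)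
        have h5 : C * (z0.length + 1) ≤ C * (n + 1) := Nat.mul_le_mul_left _ (by omega)
        exact_mod_cast h5
    obtain ⟨ε, e0, e1, e2, e3⟩ := hex
    refine le_trans ?_ ((h3 (fun x => p x.length) ε e0 e1 e2).trans
      (num I.param (C * (n + 1)) g n (Nat.mul_pos hC1 (by omega)) e0 e1 e3 le_rfl))
    refine measureReal_mono ?_ (measure_ne_top _ _)
    rintro A ⟨T, hT1, hT2, hT3⟩
    refine ⟨T ∩ S, Finset.inter_subset_right,
      (Finset.card_le_card Finset.inter_subset_left).trans hT2, ?_⟩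
    have h6 : ∀ z ∈ (S : Set (List Bool)), xr A (T ∩ S) z = xr A T z := by
      intro z hz
      have hz' := Finset.mem_coe.1 hz
      unfold xr
      simp [hz']
    have h7 : t.eval (xr A (T ∩ S)) = t.eval (xr A T) := DT.eval_congr h6 _ hinS
    have h8 : I.Sat (join (ov n₀ F (xr A (T ∩ S))) E) ↔ I.Sat (join (ov n₀ F (xr A T)) E) := by
      rw [sat_one hI, sat_one hI]
      refine exists_congr fun v => and_congr_right fun _ => ?_
      have e : I.atoms.map (I.atom (join (ov n₀ F (xr A (T ∩ S))) E) v) =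
          I.atoms.map (I.atom (join (ov n₀ F (xr A T)) E) v) := by
        refine atoms_loc I fun z hz => ?_
        unfold ov
        split_ifs with hsp
        · rfl
        · exact h6 z (Finset.mem_coe.2 (Finset.mem_filter.2 ⟨mem_Sq.2 (DD_len I hz),
            not_lt.1 hsp⟩))
      rw [e]
    change ¬ (_ ↔ ∃ v, _)
    rw [← sat_one hI (join (ov n₀ F (xr A (T ∩ S))) E), h7, h8]
    exact hT3

theorem inst {p : ℕ → unitInterval} {n₀ : ℕ} {Cw : ℕ → ℕ} (hC1 : ∀ W, 1 ≤ Cw W)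
    (hC : ∀ W n, n₀ ≤ n → 1 ≤ Cw W * (n + 1) * mn (p n) ^ W) (E : Orc) (y : List Bool) :
    ∃ (t : DT) (Bad : Set Orc),
    (rnd fun x => p x.length).real Bad ≤ (1 / 2) ^ (2 * y.length + 2) ∧
      (∀ h, (t.nx h).length ≤ y.length) ∧
      ∀ (F : List (List Bool)) (I : Inst), (unpair y).2 = pairBits (bits F) (bits I) →
        I.IsW 1 → (bits I).length ^ 2 ≤ y.length →
        t.depth ≤ bdd (Cw I.param) I.param (unpair y).1.length y.length ∧
          ∀ A ∉ Bad, ∀ A' : Orc,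
            {z : List Bool | z.length ≤ (bits I).length ^ 2 ∧ A' z ≠ A z}.ncard ≤
              (unpair y).1.length →
            (t.eval A' = true ↔ I.Sat (join (ov n₀ F A') E)) := by
  classical
  by_cases H : ∃ (F : List (List Bool)) (I : Inst), (unpair y).2 = pairBits (bits F) (bits I) ∧
      I.IsW 1 ∧ (bits I).length ^ 2 ≤ y.length
  · obtain ⟨F, I, h1, h2, h3⟩ := H
    obtain ⟨t, h4, h5, h5', h6⟩ := one_inst p n₀ F E h2 (unpair y).1.length y.length h3
      (hC1 I.param) (hC I.param)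
    refine ⟨t, _, h6, fun h => (h5 h).trans h3, fun F' I' h1' _ _ => ?_⟩
    rw [h1] at h1'
    have h7 := congrArg unpair h1'
    rw [unpair_pairBits, unpair_pairBits, Prod.mk.injEq] at h7
    obtain rfl := bits_injective h7.1
    obtain rfl := bits_injective h7.2
    refine ⟨h4, fun A hA A' hA' => ?_⟩
    set s := (bits I).length ^ 2 with hs
    set T : Finset (List Bool) := (Sq s).filter fun z => A' z ≠ A z with hT
    have hTc : T.card ≤ (unpair y).1.length := by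
      refine le_trans (le_of_eq ?_) hA'
      rw [← Set.ncard_coe_finset]
      congr 1
      ext z
      simp only [hT, Finset.coe_filter, mem_Sq, Set.mem_ofPred_eq]
    have hx : ∀ z ∈ (Sq s : Set (List Bool)), xr A T z = A' z := by
      intro z hz
      have hz' := Finset.mem_coe.1 hz
      unfold xr
      by_cases h8 : A' z = A z
      · have h9 : z ∉ T := by
          rw [hT, Finset.mem_filter]
          exact fun h => h.2 h8
        rw [h8]
        simp [h9]
      · have h9 : z ∈ T := by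
          rw [hT, Finset.mem_filter]
          exact ⟨hz', h8⟩
        simp only [h9, decide_true, Bool.xor_true]
        revert h8
        cases A' z <;> cases A z <;> simp
    have h10 : ¬ ¬ (t.eval (xr A T) = true ↔ I.Sat (join (ov n₀ F (xr A T)) E)) := fun h =>
      hA ⟨T, Finset.filter_subset _ _, hTc, h⟩
    rw [not_not] at h10
    have h11 : t.eval (xr A T) = t.eval A' := DT.eval_congr hx _ h5'
    have h12 : I.Sat (join (ov n₀ F (xr A T)) E) ↔ I.Sat (join (ov n₀ F A') E) := by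
      rw [sat_one h2, sat_one h2]
      refine exists_congr fun v => and_congr_right fun _ => ?_
      have e : I.atoms.map (I.atom (join (ov n₀ F (xr A T)) E) v) =
          I.atoms.map (I.atom (join (ov n₀ F A') E) v) := by
        refine atoms_loc I fun z hz => ?_
        unfold ov
        split_ifs with hsp
        · rfl
        · exact hx z (Finset.mem_coe.2 (mem_Sq.2 (DD_len I hz)))
      rw [e]
    rw [← h11, h10, h12]
  · refine ⟨DT.leaf false, ∅, ?_, fun h => ?_, fun F I h1 h2 h3 => absurd ⟨F, I, h1, h2, h3⟩ H⟩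
    · rw [measureReal_empty]
      positivity
    · cases h <;> simp [DT.nx]

/-- the densities -/
theorem dens {p : ℕ → unitInterval}
    (h : ∀ δ : ℝ, 0 < δ → ∀ᶠ n : ℕ in atTop, (n : ℝ) ^ (-δ) < mn (p n)) :
    ∃ n₀ : ℕ, ∀ W : ℕ, ∃ C : ℕ, 1 ≤ C ∧ ∀ n, n₀ ≤ n → 1 ≤ C * (n + 1) * mn (p n) ^ W := by
  classical
  obtain ⟨n₀, hn₀⟩ := eventually_atTop.1 (h 1 one_pos)
  have hpos : ∀ n, n₀ ≤ n → 0 < mn (p n) := fun n hn =>
    lt_of_le_of_lt (Real.rpow_nonneg (by positivity) _) (hn₀ n hn)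
  refine ⟨n₀, fun W => ?_⟩
  -- almost all lengths
  obtain ⟨n₁, hn₁⟩ : ∃ n₁ : ℕ, ∀ n ≥ n₁, 1 ≤ (n + 1) * mn (p n) ^ W := by
    rcases Nat.eq_zero_or_pos W with rfl | hW
    · refine ⟨0, fun n _ => ?_⟩
      rw [pow_zero, mul_one]
      have : (0 : ℝ) ≤ n := by positivity
      linarith
    have hδ : (0 : ℝ) < 1 / W := by positivity
    obtain ⟨n₁, hn₁⟩ := eventually_atTop.1 ((h _ hδ).and (eventually_ge_atTop 1))
    refine ⟨n₁, fun n hn => ?_⟩
    obtain ⟨h4, h3⟩ := hn₁ n hn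
    have hn1 : (1 : ℝ) ≤ n := by exact_mod_cast h3
    have hn0 : (0 : ℝ) < n := by linarith
    have h5 : ((n : ℝ) ^ (-(1 / W : ℝ))) ^ W ≤ mn (p n) ^ W :=
      pow_le_pow_left₀ (Real.rpow_nonneg hn0.le _) h4.le _
    have h6 : ((n : ℝ) ^ (-(1 / W : ℝ))) ^ W = (n : ℝ)⁻¹ := by
      rw [← Real.rpow_natCast, ← Real.rpow_mul hn0.le]
      have hW' : (W : ℝ) ≠ 0 := by positivity
      have : -(1 / W : ℝ) * W = -1 := by field_simp
      rw [this, Real.rpow_neg_one]
    rw [h6] at h5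
    have h7 : (n + 1) * (n : ℝ)⁻¹ ≤ (n + 1) * mn (p n) ^ W :=
      mul_le_mul_of_nonneg_left h5 (by positivity)
    have h8 : 1 ≤ (n + 1) * (n : ℝ)⁻¹ := by
      rw [add_mul, mul_inv_cancel₀ hn0.ne']
      have : 0 < 1 * (n : ℝ)⁻¹ := by positivity
      linarith
    linarith
  -- the other lengths
  have hc : ∀ n : ℕ, ∃ c : ℕ, n₀ ≤ n → 1 ≤ c * mn (p n) ^ W := by
    intro n
    by_cases hn : n₀ ≤ n
    · have h1 : 0 < mn (p n) ^ W := pow_pos (hpos n hn) _
      obtain ⟨c, hc⟩ := exists_nat_ge (1 / mn (p n) ^ W)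
      refine ⟨c, fun _ => ?_⟩
      rwa [div_le_iff₀ h1] at hc
    · exact ⟨0, fun h => absurd h hn⟩
  choose c hc using hc
  refine ⟨1 + ∑ n ∈ Finset.range n₁, c n, by omega, fun n hsp => ?_⟩
  have hm : 0 ≤ mn (p n) ^ W := pow_nonneg (mn_nonneg _) _
  have hn0 : (0 : ℝ) ≤ n := by positivity
  by_cases hn : n < n₁
  · have h1 : c n ≤ ∑ n ∈ Finset.range n₁, c n :=
      Finset.single_le_sum (fun _ _ => Nat.zero_le _) (Finset.mem_range.2 hn)
    have h2 : (c n : ℝ) ≤ ((1 + ∑ n ∈ Finset.range n₁, c n : ℕ) : ℝ) := by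
      exact_mod_cast h1.trans (Nat.le_add_left _ _)
    have h3 := hc n hsp
    have h4 : (c n : ℝ) * mn (p n) ^ W ≤
        ((1 + ∑ n ∈ Finset.range n₁, c n : ℕ) : ℝ) * (n + 1) * mn (p n) ^ W := by
      refine mul_le_mul_of_nonneg_right ?_ hm
      have h5 : (0 : ℝ) ≤ ((1 + ∑ n ∈ Finset.range n₁, c n : ℕ) : ℝ) := by positivity
      nlinarith
    linarith
  · have h1 := hn₁ n (not_lt.1 hn)
    have h2 : (1 : ℝ) ≤ ((1 + ∑ n ∈ Finset.range n₁, c n : ℕ) : ℝ) := by
      push_cast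
      have : (0 : ℝ) ≤ ∑ n ∈ Finset.range n₁, (c n : ℝ) := by positivity
      linarith
    have h3 : (n + 1) * mn (p n) ^ W ≤
        ((1 + ∑ n ∈ Finset.range n₁, c n : ℕ) : ℝ) * (n + 1) * mn (p n) ^ W := by
      refine mul_le_mul_of_nonneg_right ?_ hm
      nlinarith
    linarith

end Pool.Agent.H20NC
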