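import Pool.Agent.H20NC.Cd
import Pool.Agent.H20NC.RInst
import Pool.Agent.Y626.WC.Main

/-!
# Decision trees for existential sentences, for the oracle with hidden values
-/

set_option autoImplicit false

namespace Pool.Agent.H20NC

open Filter MeasureTheory Pool.Agent.NPC Pool.Agent.H620R2.Gauge Pool.Agent.TH678.GC
  Pool.Agent.Y626.WG
open Pool.Agent.H20RD (DepOn rnd Orc)
open Pool.Agent.Y626.WC (DT flat_len sat_one Sq mem_Sq cut)
open Pool.Agent.H20PW (err_le)
open Pool.Agent.Y626.WR (ow)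

/-- the questions of a sentence -/
def DD0 (I : Inst) (v : List ℕ) : Finset (List Bool) :=
  (I.atoms.map fun p => p.2.flatMap fun i => I.labels.getD (v.getD i 0) []).toFinset

theorem card_DD0 (I : Inst) (v : List ℕ) : (DD0 I v).card ≤ I.param := by
  refine le_trans (List.toFinset_card_le _) (le_trans ?_ (length_le_param I))
  rw [List.length_map]

theorem DD0_len (I : Inst) {v : List ℕ} {z : List Bool} (hz : z ∈ DD0 I v) :
    z.length ≤ (bits I).length ^ 2 := by
  rw [DD0, List.mem_toFinset, List.mem_map] at hz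
  obtain ⟨⟨r, l⟩, h1, h2⟩ := hz
  dsimp only at h2
  rw [← h2]
  exact flat_len I h1 v

theorem atoms_loc0 (I : Inst) {A A' : Oracle} {v : List ℕ} (h : ∀ z ∈ DD0 I v, A z = A' z) :
    I.atoms.map (I.atom A v) = I.atoms.map (I.atom A' v) := by
  refine List.map_congr_left fun a ha => ?_
  obtain ⟨r, l⟩ := a
  cases r with
  | zero =>
    refine h _ ?_
    rw [DD0, List.mem_toFinset, List.mem_map]
    exact ⟨(0, l), ha, rfl⟩
  | succ r => rfl

theorem sat_loc0 {I : Inst} (hI : I.IsW 1) {A A' : Oracle}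
    (h : ∀ z : List Bool, z.length ≤ (bits I).length ^ 2 → A z = A' z) : I.Sat A ↔ I.Sat A' := by
  rw [sat_one hI, sat_one hI]
  refine exists_congr fun v => and_congr_right fun _ => ?_
  rw [atoms_loc0 I fun z hz => h z (DD0_len I hz)]

/-! ### The numbers -/

/-- the numbers -/
def y2 (W B K g n : ℕ) : ℕ := 2 * g * W + ((g + K + B) * (g * W) + g + 2 * n + 2)

theorem y2_sq (W B K g n : ℕ) :
    (g + K + 2 * y2 W B K g n + B) * (g * W) + g + (2 * n + 2) ≤ y2 W B K g n ^ 2 := by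
  have h1 : 1 ≤ y2 W B K g n := by unfold y2; omega
  have h2 : y2 W B K g n = 2 * g * W + ((g + K + B) * (g * W) + g + 2 * n + 2) := rfl
  generalize y2 W B K g n = Y at h1 h2 ⊢
  generalize hR : (g + K + B) * (g * W) + g + 2 * n + 2 = R at h2
  have h3 : R ≤ R * Y := Nat.le_mul_of_pos_right _ h1
  calc (g + K + 2 * Y + B) * (g * W) + g + (2 * n + 2) =
        2 * g * W * Y + ((g + K + B) * (g * W) + g + 2 * n + 2) := by ring
    _ = 2 * g * W * Y + R := by rw [hR]
    _ ≤ 2 * g * W * Y + R * Y := by omega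
    _ = (2 * g * W + R) * Y := by ring
    _ = Y ^ 2 := by rw [← h2, pow_two]

theorem num2 (W B g n : ℕ) {k : ℕ} (hk : k ≤ W) :
    (((g + 1) * (2 ^ W * y2 W B (2 ^ W) g n ^ 2) * B + 1 : ℕ) : ℝ) ^ (g * k) *
      ((g + 1) * (1 - (1 / 2 : ℝ) ^ W) ^ (2 ^ W * y2 W B (2 ^ W) g n ^ 2)) ≤
        (1 / 2) ^ (2 * n + 2) := by
  set K := 2 ^ W with hKd
  set Y := y2 W B K g n with hY
  have h1 : (g + 1) * (K * Y ^ 2) * B + 1 ≤ 2 ^ (g + K + 2 * Y + B) := by
    have a1 : g + 1 ≤ 2 ^ g := Nat.lt_two_pow_self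
    have a2 : K ≤ 2 ^ K := Nat.lt_two_pow_self.le
    have a3 : Y ^ 2 ≤ 2 ^ (2 * Y) := by
      rw [mul_comm, pow_mul]
      exact Nat.pow_le_pow_left Nat.lt_two_pow_self.le _
    have a4 : B + 1 ≤ 2 ^ B := Nat.lt_two_pow_self
    have a5 : (g + 1) * (K * Y ^ 2) ≤ 2 ^ g * (2 ^ K * 2 ^ (2 * Y)) :=
      Nat.mul_le_mul a1 (Nat.mul_le_mul a2 a3)
    have a6 : 1 ≤ 2 ^ g * (2 ^ K * 2 ^ (2 * Y)) := by
      have := Nat.one_le_two_pow (n := g)
      have h2 := Nat.one_le_two_pow (n := K)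
      have h3 := Nat.one_le_two_pow (n := 2 * Y)
      exact Nat.mul_pos this (Nat.mul_pos h2 h3)
    calc (g + 1) * (K * Y ^ 2) * B + 1 ≤ 2 ^ g * (2 ^ K * 2 ^ (2 * Y)) * B +
          2 ^ g * (2 ^ K * 2 ^ (2 * Y)) := Nat.add_le_add (Nat.mul_le_mul_right _ a5) a6
      _ = 2 ^ g * (2 ^ K * 2 ^ (2 * Y)) * (B + 1) := by ring
      _ ≤ 2 ^ g * (2 ^ K * 2 ^ (2 * Y)) * 2 ^ B := Nat.mul_le_mul_left _ a4
      _ = 2 ^ (g + K + 2 * Y + B) := by rw [pow_add, pow_add, pow_add]; ring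
  have h2 : (((g + 1) * (K * Y ^ 2) * B + 1 : ℕ) : ℝ) ^ (g * k) ≤
      2 ^ ((g + K + 2 * Y + B) * (g * W)) := by
    have b1 : ((g + 1) * (K * Y ^ 2) * B + 1) ^ (g * k) ≤
        2 ^ ((g + K + 2 * Y + B) * (g * W)) := by
      rw [pow_mul 2]
      refine (Nat.pow_le_pow_left h1 _).trans (Nat.pow_le_pow_right (by positivity) ?_)
      exact Nat.mul_le_mul_left _ hk
    exact_mod_cast b1
  have h3 : ((g : ℝ) + 1) ≤ 2 ^ g := by
    have : g + 1 ≤ 2 ^ g := Nat.lt_two_pow_self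
    exact_mod_cast this
  have hε : 1 ≤ ((K : ℕ) : ℝ) * (1 / 2 : ℝ) ^ W := by
    rw [hKd]
    push_cast
    rw [← mul_pow]
    norm_num
  have h4 : (1 - (1 / 2 : ℝ) ^ W) ^ (K * Y ^ 2) ≤ (1 / 2 : ℝ) ^ (Y ^ 2) :=
    err_le (pow_le_one₀ (by norm_num) (by norm_num)) hε _
  have h5 : (0 : ℝ) ≤ (1 - (1 / 2 : ℝ) ^ W) ^ (K * Y ^ 2) := by
    have : (1 / 2 : ℝ) ^ W ≤ 1 := pow_le_one₀ (by norm_num) (by norm_num)
    exact pow_nonneg (by linarith) _
  have h6 := y2_sq W B K g n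
  rw [← hY] at h6
  calc (((g + 1) * (K * Y ^ 2) * B + 1 : ℕ) : ℝ) ^ (g * k) *
        ((g + 1) * (1 - (1 / 2 : ℝ) ^ W) ^ (K * Y ^ 2))
      ≤ 2 ^ ((g + K + 2 * Y + B) * (g * W)) * (2 ^ g * (1 / 2) ^ (Y ^ 2)) :=
        mul_le_mul h2 (mul_le_mul h3 h4 h5 (by positivity))
          (mul_nonneg (by positivity) h5) (by positivity)
    _ = 2 ^ ((g + K + 2 * Y + B) * (g * W) + g) * (1 / 2) ^ (Y ^ 2) := by rw [pow_add]; ring
    _ ≤ 2 ^ ((g + K + 2 * Y + B) * (g * W) + g) *
        (1 / 2) ^ ((g + K + 2 * Y + B) * (g * W) + g + (2 * n + 2)) :=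
        mul_le_mul_of_nonneg_left
          (pow_le_pow_of_le_one (by norm_num) (by norm_num) h6) (by positivity)
    _ = (1 / 2) ^ (2 * n + 2) := by
        rw [pow_add (1 / 2 : ℝ), ← mul_assoc, ← mul_pow]
        norm_num

/-- the factor in the bound -/
def fc (W : ℕ) : ℕ := 2 ^ (21 * W + 22)

theorem depth_le {W g n N : ℕ} (hg : g ≤ n) (hN : N ≤ 2 ^ (3 * W + 2)) :
    N + (g + 1) * (2 ^ W * y2 W (W * (n + 1)) (2 ^ W) g (n + N) ^ 2) * (n + 1) * W ^ 2 ≤
      fc W * (n + 1) ^ 6 := by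
  obtain ⟨X, hX⟩ : ∃ X, X = 2 ^ (3 * W + 2) := ⟨_, rfl⟩
  obtain ⟨u, hu⟩ : ∃ u, u = n + 1 := ⟨_, rfl⟩
  have hu1 : 1 ≤ u := by omega
  have hX1 : 1 ≤ X := by rw [hX]; exact Nat.one_le_two_pow
  have hKX : 2 ^ W ≤ X := by rw [hX]; exact Nat.pow_le_pow_right (by norm_num) (by omega)
  have hWX : W ≤ X := (Nat.lt_two_pow_self (n := W)).le.trans hKX
  rw [← hX] at hN
  rw [← hu]
  have hf : fc W = 256 * X ^ 7 := by
    unfold fc
    rw [hX, ← pow_mul, show (256 : ℕ) = 2 ^ 8 by norm_num, ← pow_add]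
    congr 1
    ring
  have hY : y2 W (W * u) (2 ^ W) g (n + N) ≤ 12 * (X ^ 2 * u ^ 2) := by
    have h1 : y2 W (W * u) (2 ^ W) g (n + N) ≤
        2 * u * X + ((u + X + X * u) * (u * X) + u + 2 * (u + X) + 2) := by
      unfold y2
      have hgu : g ≤ u := by omega
      have hnu : n ≤ u := by omega
      gcongr
    refine h1.trans ?_
    have h2 : X ≤ X ^ 2 * u ^ 2 := by
      calc X = X * 1 := (mul_one X).symm
        _ ≤ X ^ 2 * u ^ 2 := Nat.mul_le_mul (by nlinarith) (Nat.one_le_pow _ _ hu1)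
    have h3 : u ≤ X ^ 2 * u ^ 2 := by
      calc u = 1 * u := (one_mul u).symm
        _ ≤ X ^ 2 * u ^ 2 := Nat.mul_le_mul (Nat.one_le_pow _ _ hX1) (by nlinarith)
    have h4 : u * X ≤ X ^ 2 * u ^ 2 := by
      calc u * X = X * u := mul_comm _ _
        _ ≤ X ^ 2 * u ^ 2 := Nat.mul_le_mul (by nlinarith) (by nlinarith)
    have h5 : (u + X + X * u) * (u * X) ≤ 3 * (X ^ 2 * u ^ 2) := by
      have h6 : u + X + X * u ≤ 3 * (X * u) := by nlinarith
      calc (u + X + X * u) * (u * X) ≤ 3 * (X * u) * (u * X) := Nat.mul_le_mul_right _ h6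
        _ = 3 * (X ^ 2 * u ^ 2) := by ring
    have h7 : 1 ≤ X ^ 2 * u ^ 2 := Nat.mul_pos (Nat.pow_pos hX1) (Nat.pow_pos hu1)
    have h8 : u ≤ u * X := Nat.le_mul_of_pos_right _ hX1
    have h9 : X ≤ u * X := Nat.le_mul_of_pos_left _ hu1
    have h10 : 1 ≤ u * X := Nat.mul_pos hu1 hX1
    have e : 2 * u * X = 2 * (u * X) := by ring
    rw [e]
    omega
  rw [hf]
  have h11 : (g + 1) * (2 ^ W * y2 W (W * u) (2 ^ W) g (n + N) ^ 2) * u * W ^ 2 ≤
      u * (X * (12 * (X ^ 2 * u ^ 2)) ^ 2) * u * X ^ 2 := by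
    have hgu : g + 1 ≤ u := by omega
    gcongr
  have h12 : u * (X * (12 * (X ^ 2 * u ^ 2)) ^ 2) * u * X ^ 2 = 144 * (X ^ 7 * u ^ 6) := by ring
  have h13 : X ≤ X ^ 7 * u ^ 6 := by
    calc X = X * 1 * 1 := by ring
      _ ≤ X * X ^ 6 * u ^ 6 := Nat.mul_le_mul (Nat.mul_le_mul_left _ (Nat.one_le_pow _ _ hX1))
          (Nat.one_le_pow _ _ hu1)
      _ = X ^ 7 * u ^ 6 := by ring
  have e : 256 * X ^ 7 * u ^ 6 = 256 * (X ^ 7 * u ^ 6) := by ring
  rw [e]
  rw [h12] at h11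
  omega

theorem fc_mono {W W' : ℕ} (h : W ≤ W') : fc W ≤ fc W' :=
  Nat.pow_le_pow_right (by norm_num) (by omega)

theorem computable_fc : Computable fc := by
  have h := Pool.Agent.TH678.WP.computable_pow
  have h2 : Primrec (fun n : ℕ => 21 * n + 22) :=
    Primrec.nat_add.comp (Primrec.nat_mul.comp (Primrec.const 21) Primrec.id) (Primrec.const 22)
  exact h.comp h2.to_comp

theorem card_Sq (m : ℕ) : (Sq m).card ≤ 2 ^ (m + 1) := by
  rw [← Finset.card_range (2 ^ (m + 1))]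
  refine Finset.card_le_card_of_injOn Pool.Agent.Y626.WC.cd (fun x hx => ?_)
    fun x _ y _ h => Pool.Agent.Y626.WC.cd_inj x y h
  have h1 := mem_Sq.1 (Finset.mem_coe.1 hx)
  refine Finset.mem_coe.2 (Finset.mem_range.2 ((Pool.Agent.Y626.WC.cd_lt x).trans_le ?_))
  exact Nat.pow_le_pow_right (by norm_num) (by omega)

/-! ### The trees -/

/-- the oracle `A`, replaced on the short strings by the set `F` -/
def ovs (c : ℕ) (F : Finset (List Bool)) (A : Orc) : Orc := fun z =>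
  if z.length ≤ c then decide (z ∈ F) else A z

theorem one_inst0 (E : Orc) {I : Inst} (hI : I.IsW 1) (g n : ℕ) (hg : g ≤ n)
    (hn : (bits I).length ^ 2 ≤ n) :
    ∃ t : DT, t.depth ≤ fc I.param * (n + 1) ^ 6 ∧
      (∀ h, (t.nx h).length ≤ (bits I).length ^ 2) ∧
      t.In (Sq ((bits I).length ^ 2) : Set (List Bool)) ∧
      (mu E).real (nb g (Sq ((bits I).length ^ 2))
        {A | ¬ (t.eval A = true ↔ I.Sat A)}) ≤ (1 / 2) ^ (2 * n + 2) := by
  classical
  set s := (bits I).length ^ 2 with hs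
  set W := I.param with hW
  set B0 := Sq (min (3 * W + 1) s) with hB0
  set N := B0.card with hN
  have hN2 : N ≤ 2 ^ (3 * W + 2) := by
    refine (card_Sq _).trans (Nat.pow_le_pow_right (by norm_num) ?_)
    have := Nat.min_le_left (3 * W + 1) s
    omega
  set S := (Sq s).filter (fun z => 3 * W + 1 < z.length) with hS
  have hmemS : ∀ z, z ∈ S ↔ z.length ≤ s ∧ 3 * W + 1 < z.length := by
    intro z
    rw [hS, Finset.mem_filter, mem_Sq]
  have hmemB : ∀ z, z ∈ B0 ↔ z.length ≤ 3 * W + 1 ∧ z.length ≤ s := by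
    intro z
    rw [hB0, mem_Sq, le_min_iff]
  set D : List ℕ → Finset (List Bool) := fun v =>
    (DD0 I v).filter (fun z => 3 * W + 1 < z.length) with hD
  have hDS : ∀ v, D v ⊆ S := by
    intro v z hz
    rw [hD] at hz
    dsimp only at hz
    rw [Finset.mem_filter] at hz
    rw [hmemS]
    exact ⟨DD0_len I hz.1, hz.2⟩
  set f : Finset (List Bool) → List ℕ → Orc → Prop := fun F v A =>
    (v.length = I.blocks.sum ∧ ∀ a ∈ v, a < I.labels.length) ∧
      I.atoms.map (I.atom (ovs (3 * W + 1) F A) v) ∈ I.acc with hf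
  have hfD : ∀ F v, DepOn (D v) {A | f F v A} := by
    intro F v A A' h
    have e : I.atoms.map (I.atom (ovs (3 * W + 1) F A) v) =
        I.atoms.map (I.atom (ovs (3 * W + 1) F A') v) := by
      refine atoms_loc0 I fun z hz => ?_
      unfold ovs
      split_ifs with hsp
      · rfl
      · exact h z (Finset.mem_filter.2 ⟨hz, not_le.1 hsp⟩)
    change (_ ∧ _ ∈ I.acc) ↔ (_ ∧ _ ∈ I.acc)
    rw [e]
  have htree : ∀ F : Finset (List Bool), ∃ t : DT,
      t.depth ≤ (g + 1) * (2 ^ W * y2 W (W * (n + 1)) (2 ^ W) g (n + N) ^ 2) * (n + 1) * W ^ 2 ∧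
      t.In (⋃ i, (((D i).biUnion bl : Finset (List Bool)) : Set (List Bool))) ∧
      (mu E).real (nb g S {A | ¬ (t.eval A = true ↔ ∃ v, f F v A)}) ≤
        (1 / 2) ^ (2 * (n + N) + 2) := by
    intro F
    obtain ⟨t, h1, h2, h3⟩ := ctree (μ := mu E) blks (indep_mu E) W
      (2 ^ W * y2 W (W * (n + 1)) (2 ^ W) g (n + N) ^ 2) g (n + 1) S
      (fun x hx y hy => by
        rw [hmemS] at hx ⊢
        rw [bl_length hy]
        exact hx)
      (fun x hx => by
        rw [hmemS] at hx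
        refine (bl_card x).trans ?_
        omega)
      (fun D' hD' hc A0 => pat_mu E (fun x hx => ((hmemS x).1 (hD' hx)).2) hc A0)
      W le_rfl (List ℕ) (f F) D (hfD F) hDS
      (fun v _ => (Finset.card_filter_le _ _).trans (card_DD0 I v))
    exact ⟨t, h1, h2, h3.trans (num2 W (W * (n + 1)) g (n + N) le_rfl)⟩
  choose K hK1 hK2 hK3 using htree
  have hinS : ∀ F, (K F).In (S : Set (List Bool)) := by
    intro F
    refine DT.In.mono ?_ _ (hK2 F)
    refine Set.iUnion_subset fun v z hz => ?_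
    have hz' := Finset.mem_coe.1 hz
    rw [Finset.mem_biUnion] at hz'
    obtain ⟨x, hx, hzx⟩ := hz'
    have h4 := (hmemS x).1 (hDS v hx)
    refine Finset.mem_coe.2 ((hmemS z).2 ?_)
    rw [bl_length hzx]
    exact h4
  have hSs : (S : Set (List Bool)) ⊆ (Sq s : Set (List Bool)) := fun z hz =>
    Finset.mem_coe.2 (mem_Sq.2 ((hmemS z).1 (Finset.mem_coe.1 hz)).1)
  have hin : (DT.qall B0.toList K).In (Sq s : Set (List Bool)) := by
    refine DT.in_qall _ _ (fun z hz => ?_) fun F => DT.In.mono hSs _ (hinS F)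
    rw [Finset.mem_toList, hmemB] at hz
    exact Finset.mem_coe.2 (mem_Sq.2 hz.2)
  refine ⟨DT.qall B0.toList K, ?_, fun h => ?_, hin, ?_⟩
  · refine (DT.depth_qall B0.toList K hK1).trans ?_
    rw [Finset.length_toList]
    exact depth_le hg hN2
  · rcases DT.nx_mem _ hin h with h4 | h4
    · rw [h4]
      simp
    · exact mem_Sq.1 (Finset.mem_coe.1 h4)
  · have hcover : nb g (Sq s) {A | ¬ ((DT.qall B0.toList K).eval A = true ↔ I.Sat A)} ⊆
        ⋃ F ∈ B0.powerset, nb g S {A | ¬ ((K F).eval A = true ↔ ∃ v, f F v A)} := by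
      rintro A ⟨T, hT1, hT2, hT3⟩
      set A' := xr A T with hA'
      set F := B0.filter (fun z => A' z = true) with hF
      refine Set.mem_iUnion₂.2 ⟨F, Finset.mem_powerset.2 (Finset.filter_subset _ _), ?_⟩
      refine ⟨T ∩ S, Finset.inter_subset_right,
        (Finset.card_le_card Finset.inter_subset_left).trans hT2, ?_⟩
      have h6 : ∀ z ∈ (S : Set (List Bool)), xr A (T ∩ S) z = A' z := by
        intro z hz
        have hz' := Finset.mem_coe.1 hz
        rw [hA']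
        unfold xr
        simp [hz']
      have h7 : (K F).eval (xr A (T ∩ S)) = (K F).eval A' := DT.eval_congr h6 _ (hinS F)
      have h8 : (DT.qall B0.toList K).eval A' = (K F).eval A' := by
        rw [DT.eval_qall, Finset.toList_toFinset]
      have h9 : I.Sat A' ↔ ∃ v, f F v A' := by
        rw [sat_one hI]
        refine exists_congr fun v => and_congr_right fun _ => ?_
        have e : I.atoms.map (I.atom A' v) = I.atoms.map (I.atom (ovs (3 * W + 1) F A') v) := by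
          refine atoms_loc0 I fun z hz => ?_
          unfold ovs
          split_ifs with hsp
          · rw [Bool.eq_iff_iff, decide_eq_true_eq, hF, Finset.mem_filter, hmemB]
            exact ⟨fun h => ⟨⟨hsp, DD0_len I hz⟩, h⟩, fun h => h.2⟩
          · rfl
        rw [e]
      have h10 : (∃ v, f F v A') ↔ ∃ v, f F v (xr A (T ∩ S)) := by
        refine exists_congr fun v => hfD F v A' _ fun z hz => ?_
        exact (h6 z (Finset.mem_coe.2 (hDS v hz))).symm
      change ¬ _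
      change ¬ _ at hT3
      rw [h7, ← h8, ← h10, ← h9]
      exact hT3
    refine (measureReal_mono hcover (measure_ne_top _ _)).trans
      ((measureReal_biUnion_finset_le _ _).trans ?_)
    refine (Finset.sum_le_card_nsmul _ _ _ fun F _ => hK3 F).trans ?_
    rw [Finset.card_powerset, nsmul_eq_mul]
    push_cast
    have e : ((1 : ℝ) / 2) ^ (2 * (n + N) + 2) = (1 / 2) ^ N * (1 / 2) ^ N * (1 / 2) ^ (2 * n + 2) := by
      rw [← pow_add, ← pow_add]
      congr 1
      ring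
    rw [e]
    have h11 : (2 : ℝ) ^ B0.card * (1 / 2) ^ N = 1 := by
      rw [hN, ← mul_pow]
      norm_num
    have h12 : ((1 : ℝ) / 2) ^ N ≤ 1 := pow_le_one₀ (by norm_num) (by norm_num)
    calc (2 : ℝ) ^ B0.card * ((1 / 2) ^ N * (1 / 2) ^ N * (1 / 2) ^ (2 * n + 2))
        = ((2 : ℝ) ^ B0.card * (1 / 2) ^ N) * (1 / 2) ^ N * (1 / 2) ^ (2 * n + 2) := by ring
      _ = (1 / 2) ^ N * (1 / 2) ^ (2 * n + 2) := by rw [h11, one_mul]
      _ ≤ 1 * (1 / 2) ^ (2 * n + 2) := mul_le_mul_of_nonneg_right h12 (by positivity)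
      _ = _ := one_mul _

theorem inst0 (E : Orc) (y : List Bool) :
    ∃ (t : DT) (Bad : Set Orc), (rnd hf).real Bad ≤ (1 / 2) ^ (2 * y.length + 2) ∧
      (∀ h, (t.nx h).length ≤ y.length) ∧
      ∀ I : Inst, (unpair y).2 = bits I → I.IsW 1 → (bits I).length ^ 2 ≤ y.length →
        (unpair y).1.length ≤ y.length →
        t.depth ≤ fc I.param * (y.length + 1) ^ 6 ∧
          ∀ A ∉ Bad, ∀ O : Orc,
            {z : List Bool | z.length ≤ (bits I).length ^ 2 ∧ O z ≠ Ph E A z}.ncard ≤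
              (unpair y).1.length →
            (t.eval O = true ↔ I.Sat O) := by
  classical
  by_cases H : ∃ I : Inst, (unpair y).2 = bits I ∧ I.IsW 1 ∧ (bits I).length ^ 2 ≤ y.length ∧
      (unpair y).1.length ≤ y.length
  · obtain ⟨I, h1, h2, h3, h3'⟩ := H
    obtain ⟨t, h4, h5, h5', h6⟩ := one_inst0 E h2 (unpair y).1.length y.length h3' h3
    set s := (bits I).length ^ 2 with hs
    have hdep : DepOn (Sq s) (nb (unpair y).1.length (Sq s)
        {A | ¬ (t.eval A = true ↔ I.Sat A)}) := by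
      refine depOn_nb fun A A' h => ?_
      have e1 : t.eval A = t.eval A' := DT.eval_congr (fun z hz => h z (Finset.mem_coe.1 hz)) _ h5'
      have e2 : I.Sat A ↔ I.Sat A' := sat_loc0 h2 fun z hz => h z (mem_Sq.2 hz)
      change ¬ _ ↔ ¬ _
      rw [e1, e2]
    rw [mu_real E hdep] at h6
    refine ⟨t, _, h6, fun h => (h5 h).trans h3, fun I' h1' _ _ _ => ?_⟩
    rw [h1] at h1'
    obtain rfl := bits_injective h1'
    refine ⟨h4, fun A hA O hO => ?_⟩
    set T : Finset (List Bool) := (Sq s).filter fun z => O z ≠ Ph E A z with hT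
    have hTc : T.card ≤ (unpair y).1.length := by
      refine le_trans (le_of_eq ?_) hO
      rw [← Set.ncard_coe_finset]
      congr 1
      ext z
      simp only [hT, Finset.coe_filter, mem_Sq, Set.mem_ofPred_eq]
      rfl
    have hx : ∀ z ∈ (Sq s : Set (List Bool)), xr (Ph E A) T z = O z := by
      intro z hz
      have hz' := Finset.mem_coe.1 hz
      unfold xr
      by_cases h8 : O z = Ph E A z
      · have h9 : z ∉ T := by
          rw [hT, Finset.mem_filter]
          exact fun h => h.2 h8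
        rw [h8]
        simp [h9]
      · have h9 : z ∈ T := by
          rw [hT, Finset.mem_filter]
          exact ⟨hz', h8⟩
        simp only [h9, decide_true, Bool.xor_true]
        revert h8
        cases O z <;> cases Ph E A z <;> simp
    have h10 : ¬ ¬ (t.eval (xr (Ph E A) T) = true ↔ I.Sat (xr (Ph E A) T)) := fun h =>
      hA ⟨T, Finset.filter_subset _ _, hTc, h⟩
    rw [not_not] at h10
    have h11 : t.eval (xr (Ph E A) T) = t.eval O := DT.eval_congr hx _ h5'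
    have h12 : I.Sat (xr (Ph E A) T) ↔ I.Sat O :=
      sat_loc0 h2 fun z hz => hx z (Finset.mem_coe.2 (mem_Sq.2 hz))
    rw [← h11, h10, h12]
  · refine ⟨DT.leaf false, ∅, ?_, fun h => ?_, fun I h1 h2 h3 h4 =>
      absurd ⟨I, h1, h2, h3, h4⟩ H⟩
    · rw [measureReal_empty]
      positivity
    · cases h <;> simp [DT.nx]

end Pool.Agent.H20NC
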