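import Pool.Agent.Y626.WC.Sim
import Pool.Agent.Y626.WC.Total

/-!
# Composition of oracle algorithms
-/

set_option autoImplicit false

namespace Pool.Agent.H20NC

open Pool.Agent.NPC Pool.Agent.H620R2.Gauge Pool.Agent.TH678.GC

theorem isFP_ask (A : Oracle) : IsFP A (fun z : List Bool => [A z]) := by
  have h := IsFP.tt (A := A) (Q := fun z : List Bool => [z])
    (H := fun p => p.2) (NPC.Poly.cons NPC.Poly.id (NPC.Poly.const [])) (NPC.Poly.snd NPC.Poly.id)
  exact h

theorem isFP_join {A E : Oracle} (hE : IsFP A (fun z : List Bool => [E z])) :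
    IsFP A (fun z : List Bool => [join A E z]) := by
  have hF : IsFP A (fun z : List Bool => [A z.tail]) :=
    IsFP.comp (isFP_ask A) (IsFP.of_poly (NPC.Poly.tail NPC.Poly.id))
  have h1 : NPC.Poly (fun p : List Bool × List Bool × List Bool => p.1.head?) :=
    NPC.Poly.head? (NPC.Poly.fst NPC.Poly.id)
  have h := IsFP.seq hF hE (φ := fun p => p.1.tail)
    (ψ := fun p => if p.1.head? = some false then p.2.1 else
      if p.1.head? = some true then p.2.2 else [false])
    (NPC.Poly.tail (NPC.Poly.fst NPC.Poly.id))
    (NPC.Poly.ite (NPC.Poly.decide_eq h1 (NPC.Poly.const _))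
      (NPC.Poly.fst (NPC.Poly.snd NPC.Poly.id))
      (NPC.Poly.ite (NPC.Poly.decide_eq h1 (NPC.Poly.const _))
        (NPC.Poly.snd (NPC.Poly.snd NPC.Poly.id)) (NPC.Poly.const _)))
  refine (congrArg (IsFP A) (funext fun z => ?_)).mp h
  rcases z with _ | ⟨b, z⟩
  · rfl
  · cases b <;> rfl

/-- **Composition.** -/
theorem isFP_trans {A E : Oracle} (hE : IsFP A (fun z : List Bool => [E z]))
    {F : List Bool → List Bool} (hF : IsFP (join A E) F) : IsFP A F := by
  obtain ⟨M, hM⟩ := hF
  have hD : NPC.Poly M.D := Pool.Agent.H622R2.poly_of_polyTime M.poly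
  set S : List Bool → List Bool := fun s => if (M.D s).head? = some false then
    pairBits (unpair s).1 ((unpair s).2 ++ [join A E (M.D s).tail]) else s with hS
  have hS' : IsFP A S := by
    have h1 : IsFP A (fun s => [join A E (M.D s).tail]) :=
      IsFP.comp (isFP_join hE) (IsFP.of_poly (NPC.Poly.tail hD))
    have h2 : NPC.Poly (fun p : List Bool × List Bool × List Bool => M.D p.1) :=
      hD.comp (NPC.Poly.fst NPC.Poly.id)
    have h := IsFP.seq h1 h1 (φ := fun p => p.1)
      (ψ := fun p => if (M.D p.1).head? = some false then
        pairBits (unpair p.1).1 ((unpair p.1).2 ++ p.2.1) else p.1)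
      (NPC.Poly.fst NPC.Poly.id)
      (NPC.Poly.ite (NPC.Poly.decide_eq (NPC.Poly.head? h2) (NPC.Poly.const _))
        (Pool.Agent.H622R2.poly_pairBits
          ((NPC.Poly.fst poly_unpair).comp (NPC.Poly.fst NPC.Poly.id))
          (NPC.Poly.append ((NPC.Poly.snd poly_unpair).comp (NPC.Poly.fst NPC.Poly.id))
            (NPC.Poly.fst (NPC.Poly.snd NPC.Poly.id))))
        (NPC.Poly.fst NPC.Poly.id))
    exact h
  have hlen : ∀ (x : List Bool) (i : ℕ) (a : List Bool), ∃ a' : List Bool,
      S^[i] (pairBits x a) = pairBits x a' ∧ a'.length ≤ a.length + i := by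
    intro x i
    induction i with
    | zero => exact fun a => ⟨a, rfl, le_rfl⟩
    | succ i ih =>
      intro a
      rw [Function.iterate_succ_apply]
      by_cases h : (M.D (pairBits x a)).head? = some false
      · have e : S (pairBits x a) = pairBits x (a ++ [join A E (M.D (pairBits x a)).tail]) := by
          rw [hS]
          dsimp only
          rw [if_pos h, unpair_pairBits]
        rw [e]
        obtain ⟨a', h1, h2⟩ := ih (a ++ [join A E (M.D (pairBits x a)).tail])
        refine ⟨a', h1, ?_⟩
        rw [List.length_append, List.length_singleton] at h2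
        omega
      · have e : S (pairBits x a) = pairBits x a := by
          rw [hS]
          exact if_neg h
        rw [e]
        obtain ⟨a', h1, h2⟩ := ih a
        exact ⟨a', h1, by omega⟩
  have hrun : ∀ (x : List Bool) (n : ℕ) (a z : List Bool), M.run (join A E) x n a = some z →
      (M.D (S^[n] (pairBits x a))).tail = z := by
    intro x n
    induction n with
    | zero =>
      intro a z h
      simp [Alg.run] at h
    | succ n ih =>
      intro a z h
      rw [A2.run_succ] at h
      rw [Function.iterate_succ_apply]
      by_cases h1 : (M.D (pairBits x a)).head? = some false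
      · rw [if_pos h1] at h
        have e : S (pairBits x a) = pairBits x (a ++ [join A E (M.D (pairBits x a)).tail]) := by
          rw [hS]
          dsimp only
          rw [if_pos h1, unpair_pairBits]
        rw [e]
        exact ih _ _ h
      · rw [if_neg h1, Option.some.injEq] at h
        have e : S (pairBits x a) = pairBits x a := by
          rw [hS]
          exact if_neg h1
        have e2 : ∀ m, S^[m] (pairBits x a) = pairBits x a := by
          intro m
          induction m with
          | zero => rfl
          | succ m ihm => rw [Function.iterate_succ_apply, e, ihm]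
        rw [e, e2]
        exact h
  have hL := IsFP.loop hS' (g := fun x => pairBits x [])
    (Pool.Agent.H622R2.poly_pairBits NPC.Poly.id (NPC.Poly.const [])) M.p
    (2 * Polynomial.X + 1 + M.p) (by
      intro x i hi
      obtain ⟨a', h1, h2⟩ := hlen x i []
      rw [h1, length_pairBits]
      simp only [Polynomial.eval_add, Polynomial.eval_mul, Polynomial.eval_ofNat,
        Polynomial.eval_X, Polynomial.eval_one, List.length_nil] at h2 ⊢
      omega)
  have h := IsFP.comp (IsFP.of_poly (NPC.Poly.tail hD)) hL
  refine (congrArg (IsFP A) (funext fun x => ?_)).mp h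
  exact hrun x _ _ _ (hM x)

end Pool.Agent.H20NC
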