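import Pool.Agent.H20NC.Cd
import Pool.Agent.H20NC.Comp
import Pool.Agent.W900.RB.Stage
import Pool.Agent.Y626.WC.Main
import Pool.Agent.Y581.WN.Mini

/-!
# The hidden values can be found after polynomially many changes
-/

set_option autoImplicit false

namespace Pool.Agent.H20NC

open Filter Pool.Agent.NPC Pool.Agent.H620R2.Gauge
open Pool.Agent.H20RD (Orc)

/-- the parity of a list of bits -/
def par (l : List Bool) : Bool := decide ((l.filter fun b => b).length % 2 = 1)

/-- the majority -/
def maj (l : List Bool) : Bool := decide (l.length < 2 * (l.filter fun b => b).length)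

theorem par_eq (f : ℕ → Bool) (n : ℕ) : par ((List.range n).map f) = pr f n := by
  induction n with
  | zero => rfl
  | succ n ih =>
    have h1 : par ((List.range (n + 1)).map f) = (f n).xor (par ((List.range n).map f)) := by
      unfold par
      rw [List.range_succ, List.map_append, List.filter_append, List.length_append]
      cases h : f n
      · simp [h]
      · simp only [List.map_cons, List.map_nil, h, List.filter_cons_of_pos, List.filter_nil,
          List.length_cons, List.length_nil, Bool.true_xor]
        rw [← decide_not, decide_eq_decide]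
        omega
    rw [h1, ih]
    rfl

theorem poly_par {α : Type} [TEnc α] {l : α → List Bool} (hl : NPC.Poly l) :
    NPC.Poly (fun a => par (l a)) := by
  have h1 : NPC.Poly (fun a => ((l a).filter fun b => b).length) :=
    NPC.Poly.length (NPC.Poly.filter (p := fun (_ : α) (b : Bool) => b) hl
      (NPC.Poly.snd NPC.Poly.id))
  exact NPC.Poly.decide_eq (NPC.Poly.mod h1 (NPC.Poly.const 2)) (NPC.Poly.const 1)

theorem poly_maj {α : Type} [TEnc α] {l : α → List Bool} (hl : NPC.Poly l) :
    NPC.Poly (fun a => maj (l a)) := by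
  have h1 : NPC.Poly (fun a => ((l a).filter fun b => b).length) :=
    NPC.Poly.length (NPC.Poly.filter (p := fun (_ : α) (b : Bool) => b) hl
      (NPC.Poly.snd NPC.Poly.id))
  exact NPC.Poly.decide_lt (NPC.Poly.length hl) (NPC.Poly.mul (NPC.Poly.const 2) h1)

/-- the number `j`, written with `l` bits -/
def rj (l j : ℕ) : List Bool := j.bits ++ List.replicate (l - j.bits.length) false

theorem length_rj {l j : ℕ} (h : j < 2 ^ l) : (rj l j).length = l := by
  have h1 : j.bits.length ≤ l := by
    rw [Nat.size_eq_bits_len]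
    exact Nat.size_le.2 h
  unfold rj
  rw [List.length_append, List.length_replicate]
  omega

theorem valB_rep (n : ℕ) : valB (List.replicate n false) = 0 := by
  induction n with
  | zero => rfl
  | succ n ih => rw [List.replicate_succ, valB_cons, ih]; rfl

theorem rj_inj {l j j' : ℕ} (h : rj l j = rj l j') : j = j' := by
  have h1 := congrArg valB h
  unfold rj at h1
  rw [valB_append, valB_append, valB_rep, valB_rep, valB_bits, valB_bits] at h1
  omega

theorem poly_rj {α : Type} [TEnc α] {l j : α → ℕ} (hl : UPoly l) (hj : NPC.Poly j) :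
    NPC.Poly (fun a => rj (l a) (j a)) := by
  have h1 : NPC.Poly (fun a => (j a).bits.length) := NPC.Poly.length (NPC.Poly.natBits hj)
  have h2 : UPoly (fun a => l a - (j a).bits.length) :=
    UPoly.of_le (NPC.Poly.sub hl.toPoly h1) hl fun a => Nat.sub_le _ _
  exact NPC.Poly.append (NPC.Poly.natBits hj) (Pool.Agent.Y626.WC.poly_rep h2 false)

/-- the questions -/
def qs (p : ℕ × List Bool) : List (List Bool) :=
  (List.range (p.2.length + 1)).map fun i => cl p.2 (rj p.2.length p.1) i

theorem poly_qs : NPC.Poly qs := by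
  have hlen : UPoly (fun p : ℕ × List Bool => p.2.length) := UPoly.length (NPC.Poly.snd NPC.Poly.id)
  have hlen1 : UPoly (fun p : ℕ × List Bool => p.2.length + 1) := hlen.add (UPoly.const 1)
  have hp1 : NPC.Poly (fun p : (ℕ × List Bool) × ℕ => p.1) := NPC.Poly.fst NPC.Poly.id
  have hu : NPC.Poly (fun p : (ℕ × List Bool) × ℕ => p.1.2) := NPC.Poly.snd hp1
  have hlu : UPoly (fun p : (ℕ × List Bool) × ℕ => p.1.2.length) := UPoly.length hu
  have hi : NPC.Poly (fun p : (ℕ × List Bool) × ℕ => p.2) := NPC.Poly.snd NPC.Poly.id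
  -- the index, cut off
  have hi' : UPoly (fun p : (ℕ × List Bool) × ℕ => min p.2 p.1.2.length) :=
    UPoly.of_le (NPC.Poly.min hi hlu.toPoly) hlu fun a => Nat.min_le_right _ _
  have hd : UPoly (fun p : (ℕ × List Bool) × ℕ => p.1.2.length - p.2) :=
    UPoly.of_le (NPC.Poly.sub hlu.toPoly hi) hlu fun a => Nat.sub_le _ _
  have hr : NPC.Poly (fun p : (ℕ × List Bool) × ℕ => rj p.1.2.length p.1.1) :=
    poly_rj hlu (NPC.Poly.fst hp1)
  have h := NPC.Poly.map (F := fun (p : ℕ × List Bool) (i : ℕ) =>
    true :: (p.2 ++ (rj p.2.length p.1 ++ (List.replicate (min i p.2.length) true ++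
      List.replicate (p.2.length - i) false)))) hlen1.range
    (NPC.Poly.cons (NPC.Poly.const true) (NPC.Poly.append hu (NPC.Poly.append hr
      (NPC.Poly.append (Pool.Agent.Y626.WC.poly_rep hi' true)
        (Pool.Agent.Y626.WC.poly_rep hd false)))))
  refine h.congr fun p => ?_
  unfold qs
  refine List.map_congr_left fun i hi => ?_
  rw [List.mem_range] at hi
  unfold cl
  rw [Nat.min_eq_left (by omega)]

/-- the number of the copies which are used -/
noncomputable def Tp (c c₀ : ℕ) : Polynomial ℕ :=
  2 * ((3 * Polynomial.X + 1) ^ c + Polynomial.C c₀) + 1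

theorem eval_Tp (c c₀ l : ℕ) : (Tp c c₀).eval l = 2 * ((3 * l + 1) ^ c + c₀) + 1 := by
  unfold Tp
  simp

/-- **Decoding.** -/
theorem decode {I A O : Orc} {c c₀ : ℕ}
    (hd : ∀ n, Pool.Agent.W900.CH.dist (Ph I A) O n ≤ n ^ c + c₀) :
    IsFP O (fun u => [I u]) := by
  classical
  -- the lengths with enough copies
  obtain ⟨l₀, hl₀⟩ := eventually_atTop.1 ((Pool.Agent.TH678.RS.ev_poly
    (2 * 4 ^ c + 2 * c₀ + 1) c).and (eventually_ge_atTop 1))
  have hT : ∀ l, l₀ ≤ l → (Tp c c₀).eval l ≤ 2 ^ l := by
    intro l hl
    obtain ⟨h1, h2⟩ := hl₀ l hl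
    rw [eval_Tp]
    have h3 : (3 * l + 1) ^ c ≤ 4 ^ c * l ^ c := by
      rw [← mul_pow]
      exact Nat.pow_le_pow_left (by omega) _
    have h4 : 1 ≤ l ^ c := Nat.one_le_pow _ _ h2
    have h5 : 2 * ((3 * l + 1) ^ c + c₀) + 1 ≤ (2 * 4 ^ c + 2 * c₀ + 1) * l ^ c := by
      nlinarith
    exact h5.trans ((Nat.mul_le_mul_left _ (Nat.pow_le_pow_left (Nat.le_succ l) _)).trans h1.le)
  have hfin : {u : List Bool | u.length < l₀ ∧ I u = true}.Finite :=
    (Pool.Agent.W900.CH.finite_short l₀).subset fun u hu => hu.1.le
  set F : List (List Bool) := hfin.toFinset.toList with hF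
  have hFm : ∀ u, u ∈ F ↔ u.length < l₀ ∧ I u = true := by
    intro u
    rw [hF, Finset.mem_toList, Set.Finite.mem_toFinset]
    rfl
  have hV : IsFP O (fun z : List Bool => z) := IsFP.of_poly NPC.Poly.id
  have hvotes := IsFP.votes hV (Tp c c₀) poly_qs
    (W := fun p => [par p.2]) (NPC.Poly.cons (poly_par (NPC.Poly.snd NPC.Poly.id))
      (NPC.Poly.const []))
    (H := fun p => if p.1.length < l₀ then [decide (p.1 ∈ F)] else [maj p.2])
    (NPC.Poly.ite (NPC.Poly.decide_lt (NPC.Poly.length (NPC.Poly.fst NPC.Poly.id))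
        (NPC.Poly.const _))
      (NPC.Poly.cons ((NPC.Poly.decide_mem (NPC.Poly.fst NPC.Poly.id)
        (NPC.Poly.const F)).congr fun p => by congr) (NPC.Poly.const []))
      (NPC.Poly.cons (poly_maj (NPC.Poly.snd NPC.Poly.id)) (NPC.Poly.const [])))
  refine (congrArg (IsFP O) (funext fun u => ?_)).mp hvotes
  dsimp only
  by_cases hu : u.length < l₀
  · rw [if_pos hu]
    congr 1
    rw [Bool.eq_iff_iff, decide_eq_true_eq, hFm]
    exact and_iff_right hu
  rw [if_neg hu]
  congr 1
  set l := u.length with hl
  set N := (Tp c c₀).eval l with hN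
  have hNl : N ≤ 2 ^ l := hT l (not_lt.1 hu)
  -- the bits
  set v : ℕ → Bool := fun j => pr (fun i => O (cl u (rj l j) i)) (l + 1) with hv
  have e1 : (List.range N).map (fun i => decide ([par ((qs (i, u)).map O)] = [true])) =
      (List.range N).map v := by
    refine List.map_congr_left fun j _ => ?_
    rw [Bool.eq_iff_iff, decide_eq_true_eq, List.cons.injEq, and_iff_left rfl]
    unfold qs
    rw [List.map_map, hv]
    dsimp only
    rw [← par_eq]
    rfl
  rw [e1]
  -- few wrong bits
  set Wr : Finset ℕ := (Finset.range N).filter fun j => v j ≠ I u with hWr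
  have hcard : Wr.card ≤ (3 * l + 1) ^ c + c₀ := by
    have hex : ∀ j ∈ Wr, ∃ i ≤ l, O (cl u (rj l j) i) ≠ Ph I A (cl u (rj l j) i) := by
      intro j hj
      rw [hWr, Finset.mem_filter, Finset.mem_range] at hj
      by_contra hc
      push Not at hc
      apply hj.2
      have h1 := pr_ph I A (u := u) (r := rj l j) (length_rj (lt_of_lt_of_le hj.1 hNl))
      rw [← h1, hv]
      exact pr_congr fun i hi => hc i (by omega)
    choose! i hi1 hi2 using hex
    refine le_trans ?_ (hd (3 * l + 1))
    unfold Pool.Agent.W900.CH.dist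
    rw [← Set.ncard_coe_finset]
    refine Set.ncard_le_ncard_of_injOn (fun j => cl u (rj l j) (i j)) ?_ ?_
      (Pool.Agent.W900.CH.finite_diff _ _ _)
    · intro j hj
      rw [Finset.mem_coe] at hj
      have hjN : j < N := by
        rw [hWr, Finset.mem_filter, Finset.mem_range] at hj
        exact hj.1
      refine ⟨?_, hi2 j hj⟩
      rw [length_cl (hi1 j hj), length_rj (lt_of_lt_of_le hjN hNl)]
      omega
    · intro j hj j' hj' h
      rw [Finset.mem_coe] at hj hj'
      have hjN : j < N := by
        rw [hWr, Finset.mem_filter, Finset.mem_range] at hj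
        exact hj.1
      have hjN' : j' < N := by
        rw [hWr, Finset.mem_filter, Finset.mem_range] at hj'
        exact hj'.1
      exact rj_inj (cl_inj (length_rj (lt_of_lt_of_le hjN hNl))
        (length_rj (lt_of_lt_of_le hjN' hNl)) (hi1 j hj) (hi1 j' hj') h).2.1
  have hcount : (((List.range N).map v).filter fun b => b).length =
      ((Finset.range N).filter fun j => v j = true).card := by
    rw [List.filter_map, List.length_map]
    have e2 : (Finset.range N).filter (fun j => v j = true) =
        ((List.range N).filter fun j => v j).toFinset := by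
      ext j
      simp
    rw [e2, List.toFinset_card_of_nodup (List.nodup_range.filter _)]
    rfl
  have hNe : N = 2 * ((3 * l + 1) ^ c + c₀) + 1 := eval_Tp c c₀ l
  have hsplit : ((Finset.range N).filter fun j => v j = true).card +
      ((Finset.range N).filter fun j => ¬ v j = true).card = N := by
    rw [Finset.card_filter_add_card_filter_not, Finset.card_range]
  unfold maj
  rw [hcount, List.length_map, List.length_range, Bool.eq_iff_iff, decide_eq_true_eq]
  cases hIu : I u with
  | true =>
    have e3 : ((Finset.range N).filter fun j => ¬ v j = true) = Wr := by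
      rw [hWr, hIu]
    rw [e3] at hsplit
    simp only [iff_true]
    omega
  | false =>
    have e3 : ((Finset.range N).filter fun j => v j = true) = Wr := by
      rw [hWr, hIu]
      refine Finset.filter_congr fun j _ => ?_
      simp
    rw [e3]
    simp only [Bool.false_eq_true, iff_false, not_lt]
    omega

end Pool.Agent.H20NC
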