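import Pool.Agent.H20NC.RInst
import Pool.Agent.H20PW.Easy
import Pool.Agent.W900.RB.Stage

/-!
# `W[1]` collapses relative to all oracles near a random oracle
-/

set_option autoImplicit false

namespace Pool.Agent.H20NC

open Filter MeasureTheory Pool.Agent.NPC Pool.Agent.H620R2.Gauge Pool.Agent.TH678.GC
  Pool.Agent.Y626.WG
open Pool.Agent.H20RD (DepOn rnd w w_nonneg Orc)
open Pool.Agent.H20PW (mn mn_nonneg mn_le_one mn_le_w err_le bc InFPTn)
open Pool.Agent.Y626.WC (DT DD card_DD DD_len atoms_loc sat_one sat_cut Sq mem_Sq cut cut_cut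
  exists_self ec ec_length ec_inj hist hist_length hist_getElem isFP_sim isFP_total poly_rep
  bits_inj')
open Pool.Agent.W900.CH (Close)

/-- a constant in the bound -/
def c1 (C W : ℕ) : ℕ := 2 * W + (1 + C + W) * W + 3

theorem bdd_le1 {C W g n : ℕ} (hg : g ≤ n) :
    bdd C W g n ≤ (C * c1 C W ^ 2 * W ^ 2) * (n + 1) ^ 6 := by
  have h1 : yy W (C * (n + 1)) g n ≤ c1 C W * (n + 1) ^ 2 := by
    have h2 : yy W (C * (n + 1)) g n ≤ yy W (C * (n + 1)) n n := by
      unfold yy
      gcongr
    refine h2.trans ?_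
    unfold yy c1
    have h3 : n ≤ n ^ 2 + 2 * n := by nlinarith
    nlinarith [Nat.zero_le (n * W), Nat.zero_le (n ^ 2 * W), Nat.zero_le (n * W * C),
      Nat.zero_le (n * W * W), Nat.zero_le (W * W), Nat.zero_le (n ^ 2), Nat.zero_le (C * W)]
  unfold bdd
  calc (g + 1) * (C * (n + 1) * yy W (C * (n + 1)) g n ^ 2) * W ^ 2
      ≤ (n + 1) * (C * (n + 1) * (c1 C W * (n + 1) ^ 2) ^ 2) * W ^ 2 := by gcongr
    _ = (C * c1 C W ^ 2 * W ^ 2) * (n + 1) ^ 6 := by ring

/-- the factor in the bound -/
def fb (Cw : ℕ → ℕ) (k : ℕ) : ℕ :=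
  ∑ i ∈ Finset.range (k + 1), Cw i * c1 (Cw i) i ^ 2 * i ^ 2

theorem bdd_le {Cw : ℕ → ℕ} {i k g n : ℕ} (h : i ≤ k) (hg : g ≤ n) :
    bdd (Cw i) i g n ≤ fb Cw k * (n + 1) ^ 6 := by
  have h1 : Cw i * c1 (Cw i) i ^ 2 * i ^ 2 ≤ fb Cw k :=
    Finset.single_le_sum (f := fun i => Cw i * c1 (Cw i) i ^ 2 * i ^ 2) (fun _ _ => Nat.zero_le _)
      (Finset.mem_range.2 (by omega))
  exact (bdd_le1 hg).trans (Nat.mul_le_mul_right _ h1)

/-- The padded string. -/
def yq (G : Polynomial ℕ) (F : List (List Bool)) (r : List Bool) : List Bool :=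
  pairBits (List.replicate (G.eval r.length) true) (pairBits (bits F) r)

theorem unpair_yq (G : Polynomial ℕ) (F : List (List Bool)) (r : List Bool) :
    unpair (yq G F r) = (List.replicate (G.eval r.length) true, pairBits (bits F) r) := by
  unfold yq
  rw [unpair_pairBits]

theorem poly_yq (G : Polynomial ℕ) (F : List (List Bool)) {α : Type} [TEnc α] {r : α → List Bool}
    (hr : NPC.Poly r) : NPC.Poly (fun a => yq G F (r a)) :=
  Pool.Agent.H622R2.poly_pairBits (poly_rep (UPoly.eval (UPoly.length hr) G) true)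
    (Pool.Agent.H622R2.poly_pairBits (NPC.Poly.const _) hr)

/-- The argument of the simulation. -/
noncomputable def xq (G : Polynomial ℕ) (F : List (List Bool)) (z r : List Bool) : List Bool :=
  pairBits (List.replicate ((unpair (unpair z).1).1.length *
    ((Polynomial.X + 1 : Polynomial ℕ) ^ 6).eval (yq G F r).length) true) (yq G F r)

theorem poly_xq (G : Polynomial ℕ) (F : List (List Bool)) {α : Type} [TEnc α]
    {z r : α → List Bool} (hz : NPC.Poly z) (hr : NPC.Poly r) :
    NPC.Poly (fun a => xq G F (z a) (r a)) := by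
  have h1 : NPC.Poly (fun a => (unpair (unpair (z a)).1).1) :=
    (NPC.Poly.fst poly_unpair).comp ((NPC.Poly.fst poly_unpair).comp hz)
  have h2 : UPoly (fun a => (yq G F (r a)).length) := UPoly.length (poly_yq G F hr)
  have h3 : UPoly (fun a => (unpair (unpair (z a)).1).1.length *
      ((Polynomial.X + 1 : Polynomial ℕ) ^ 6).eval (yq G F (r a)).length) :=
    (UPoly.length h1).mul (UPoly.eval h2 _)
  exact Pool.Agent.H622R2.poly_pairBits (poly_rep h3 true) (poly_yq G F hr)

/-- **The easy side.** -/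
theorem easy {p : ℕ → unitInterval}
    (h : ∀ δ : ℝ, 0 < δ → ∀ᶠ n : ℕ in atTop, (n : ℝ) ^ (-δ) < mn (p n)) :
    ∃ E : Oracle, ∀ᵐ A ∂(rnd fun x => p x.length), ∀ (A' : Oracle) (c : ℕ),
      Close (fun n => (n : ℝ) ^ c) A A' → ∀ (α : Type) [TEnc α] (κ : α → ℕ)
      (P : α → Prop), InW 1 (join A' E) κ P → InFPTn (join A' E) κ P := by
  classical
  obtain ⟨n₀, hC⟩ := dens h
  choose Cw hC1 hC using hC
  choose T Bad hBad hlen hT using inst hC1 hC
  set QQ : Oracle → List Bool → List Bool → List Bool → Prop := fun E y h v =>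
    (v = [] ∧ (T (cut E (y.length + 1)) y).fv h = true) ∨
    (∃ t : ℕ, v = true :: t.bits ∧ t < ((T (cut E (y.length + 1)) y).nx h).length) ∨
    (∃ t : ℕ, v = false :: t.bits ∧ ((T (cut E (y.length + 1)) y).nx h).getD t false = true)
    with hQQ
  obtain ⟨E, hEF⟩ := exists_self (fun u E => decide (∃ y h v : List Bool, u = ec y h v ∧
    QQ E y h v))
  have hE : ∀ y h v, E (ec y h v) = true ↔ QQ E y h v := by
    intro y h v
    rw [hEF, decide_eq_true_eq]
    have hcut : cut (cut E (ec y h v).length) (y.length + 1) = cut E (y.length + 1) :=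
      cut_cut E (by rw [ec_length]; omega)
    have hq : QQ (cut E (ec y h v).length) y h v ↔ QQ E y h v := by
      simp only [hQQ, hcut]
    constructor
    · rintro ⟨y', h', v', h1, h2⟩
      obtain ⟨rfl, rfl, rfl⟩ := ec_inj h1
      exact hq.1 h2
    · intro h1
      exact ⟨y, h, v, rfl, hq.2 h1⟩
  refine ⟨E, ?_⟩
  have hae : ∀ᵐ A ∂(rnd fun x => p x.length), {y | A ∈ Bad (cut E (y.length + 1)) y}.Finite :=
    bc _ (fun y => Bad (cut E (y.length + 1)) y) (fun y => hBad _ y)
  filter_upwards [hae] with A₀ hA A c hclose α _ κ P hQ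
  -- the number of the changes
  obtain ⟨n₁, hn₁⟩ := eventually_atTop.1 hclose
  set c₀ := Pool.Agent.W900.CH.dist A₀ A n₁ with hc₀
  have hdist : ∀ n, Pool.Agent.W900.CH.dist A₀ A n ≤ n ^ c + c₀ := by
    intro n
    rcases le_total n₁ n with h1 | h1
    · have h2 : (Pool.Agent.W900.CH.dist A₀ A n : ℝ) ≤ (n : ℝ) ^ c := hn₁ n h1
      have h3 : Pool.Agent.W900.CH.dist A₀ A n ≤ n ^ c := by exact_mod_cast h2
      omega
    · have h2 := Pool.Agent.W900.CH.dist_mono A₀ A h1
      omega
  set G : Polynomial ℕ := Polynomial.X ^ 2 + Polynomial.X ^ (2 * c) + Polynomial.C c₀ with hG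
  have hGe : ∀ s, G.eval s = s ^ 2 + s ^ (2 * c) + c₀ := by
    intro s
    rw [hG]
    simp
  -- the short strings
  have hfin : {z : List Bool | z.length < n₀ ∧ A z = true}.Finite :=
    (Pool.Agent.W900.CH.finite_short n₀).subset fun z hz => hz.1.le
  set F : List (List Bool) := hfin.toFinset.toList with hF
  have hov : ov n₀ F A = A := ov_eq fun z => by
    rw [hF, Finset.mem_toList, Set.Finite.mem_toFinset]
    rfl
  obtain ⟨π, g, R, M, hπ, hg, hR⟩ := hQ
  set O := join A E with hO
  set Z : List Bool → List Bool → List Bool := fun y h =>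
    (T (cut E (y.length + 1)) y).nx h with hZ
  set FV : List Bool → List Bool → Bool := fun y h =>
    (T (cut E (y.length + 1)) y).fv h with hFV
  have h1 : ∀ (y h : List Bool) (t : ℕ), E (ec y h (true :: t.bits)) =
      decide (t < (Z y h).length) := by
    intro y h t
    rw [Bool.eq_iff_iff, hE, decide_eq_true_eq]
    simp only [hQQ, hZ]
    constructor
    · rintro (⟨h1, -⟩ | ⟨t', h1, h2⟩ | ⟨t', h1, -⟩)
      · exact absurd h1 (by simp)
      · rw [List.cons.injEq] at h1
        rw [bits_inj' h1.2]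
        exact h2
      · exact absurd h1 (by simp)
    · intro h1
      exact Or.inr (Or.inl ⟨t, rfl, h1⟩)
  have h2 : ∀ (y h : List Bool) (t : ℕ), E (ec y h (false :: t.bits)) =
      (Z y h).getD t false := by
    intro y h t
    rw [Bool.eq_iff_iff, hE]
    simp only [hQQ, hZ]
    constructor
    · rintro (⟨h1, -⟩ | ⟨t', h1, -⟩ | ⟨t', h1, h2⟩)
      · exact absurd h1 (by simp)
      · exact absurd h1 (by simp)
      · rw [List.cons.injEq] at h1
        rw [bits_inj' h1.2]
        exact h2
    · intro h1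
      exact Or.inr (Or.inr ⟨t, rfl, h1⟩)
  have h3 : ∀ y h : List Bool, E (ec y h []) = FV y h := by
    intro y h
    rw [Bool.eq_iff_iff, hE, hFV]
    simp only [hQQ]
    constructor
    · rintro (⟨-, h1⟩ | ⟨t', h1, -⟩ | ⟨t', h1, -⟩)
      · exact h1
      · exact absurd h1 (by simp)
      · exact absurd h1 (by simp)
    · intro h1
      exact Or.inl ⟨trivial, h1⟩
  have h4 : ∀ y h : List Bool, (Z y h).length ≤ y.length := fun y h => hlen _ y h
  have hsim := isFP_sim (A := A) h1 h2 h3 h4
  rw [← hO] at hsim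
  -- the reduction
  set rr : List Bool → List Bool := fun z =>
    (M.out O (pairBits (unpair (unpair z).1).2 (unpair z).2)).getD [] with hrr
  have hrF : IsFP O rr := IsFP.comp (isFP_total O M) (IsFP.of_poly
    (Pool.Agent.H622R2.poly_pairBits
      ((NPC.Poly.snd poly_unpair).comp (NPC.Poly.fst poly_unpair)) (NPC.Poly.snd poly_unpair)))
  have hGf : IsFP O (fun z => xq G F z (rr z)) := by
    have h := IsFP.seq hrF hrF (φ := fun p => p.1) (ψ := fun p => xq G F p.1 p.2.1)
      (NPC.Poly.fst NPC.Poly.id) (poly_xq G F (NPC.Poly.fst NPC.Poly.id)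
        (NPC.Poly.fst (NPC.Poly.snd NPC.Poly.id)))
    exact h
  set EE : Finset (List Bool) := hA.toFinset with hEE
  set E' : Finset (List Bool) := EE.filter (fun y => ∃ I : Inst,
    (unpair y).2 = pairBits (bits F) (bits I) ∧ I.Sat O) with hE'
  have hVF := IsFP.seq hGf hsim (φ := fun p => p.2)
    (ψ := fun p => if (unpair p.2.1).2 ∈ EE.toList then [decide ((unpair p.2.1).2 ∈ E'.toList)]
      else p.2.2) (NPC.Poly.snd NPC.Poly.id) (by
      have hu : NPC.Poly (fun p : List Bool × List Bool × List Bool => (unpair p.2.1).2) :=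
        (NPC.Poly.snd poly_unpair).comp (NPC.Poly.fst (NPC.Poly.snd NPC.Poly.id))
      exact NPC.Poly.ite ((NPC.Poly.decide_mem hu (NPC.Poly.const EE.toList)).congr fun p => by
          congr)
        (NPC.Poly.cons ((NPC.Poly.decide_mem hu (NPC.Poly.const E'.toList)).congr fun p => by
          congr) (NPC.Poly.const []))
        (NPC.Poly.snd (NPC.Poly.snd NPC.Poly.id)))
  simp only [Finset.mem_toList] at hVF
  obtain ⟨M', hM'⟩ := hVF
  refine ⟨fun k => pairBits (List.replicate (fb Cw (g k)) true) (π k), M', fun a => ?_⟩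
  obtain ⟨h5, h6, h7, h8⟩ := hR a
  set z := pairBits (pairBits (List.replicate (fb Cw (g (κ a))) true) (π (κ a))) (bits a) with hz
  have hrz : rr z = bits (R a) := by
    rw [hrr]
    dsimp only
    rw [hz, unpair_pairBits]
    dsimp only
    rw [unpair_pairBits]
    dsimp only
    rw [h5]
    rfl
  have hz1 : (unpair (unpair z).1).1 = List.replicate (fb Cw (g (κ a))) true := by
    rw [hz, unpair_pairBits]
    dsimp only
    rw [unpair_pairBits]
  set y := yq G F (bits (R a)) with hy
  have hx : xq G F z (rr z) = pairBits (List.replicate (fb Cw (g (κ a)) *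
      (y.length + 1) ^ 6) true) y := by
    rw [hrz]
    unfold xq
    rw [hz1, List.length_replicate]
    simp only [Polynomial.eval_pow, Polynomial.eval_add, Polynomial.eval_X, Polynomial.eval_one]
    rfl
  have hy2 : (unpair y).2 = pairBits (bits F) (bits (R a)) := by
    rw [hy, unpair_yq]
  have hy1 : (unpair y).1.length = G.eval (bits (R a)).length := by
    rw [hy, unpair_yq, List.length_replicate]
  have hyG : G.eval (bits (R a)).length ≤ y.length := by
    rw [hy]
    unfold yq
    rw [length_pairBits, List.length_replicate]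
    omega
  have hyl : (bits (R a)).length ^ 2 ≤ y.length := by
    refine le_trans ?_ hyG
    rw [hGe]
    omega
  rw [hM' z]
  beta_reduce
  rw [hx, unpair_pairBits]
  dsimp only
  by_cases hyE : y ∈ EE
  · rw [if_pos hyE]
    refine ⟨_, rfl, ?_⟩
    rw [decide_eq_true_eq, h8, hE', Finset.mem_filter]
    constructor
    · intro h
      exact ⟨hyE, R a, hy2, h⟩
    · rintro ⟨-, I, h9, h10⟩
      rw [hy2] at h9
      have h11 := congrArg unpair h9
      rw [unpair_pairBits, unpair_pairBits, Prod.mk.injEq] at h11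
      rw [bits_injective h11.2]
      exact h10
  · rw [if_neg hyE]
    refine ⟨_, rfl, ?_⟩
    have hbad : A₀ ∉ Bad (cut E (y.length + 1)) y := fun h => hyE (hA.mem_toFinset.2 h)
    obtain ⟨h9, h10⟩ := hT (cut E (y.length + 1)) y F (R a) hy2 h6 hyl
    set L := (pairBits (List.replicate (fb Cw (g (κ a)) * (y.length + 1) ^ 6) true) y).length
      with hL
    have hdep : (T (cut E (y.length + 1)) y).depth ≤ (hist A Z y L).length := by
      rw [hist_length]
      refine h9.trans ((bdd_le h7 (hy1.le.trans hyG)).trans ?_)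
      rw [hL, length_pairBits, List.length_replicate]
      omega
    have h11 := DT.fv_eq (A := A) _ (hist A Z y L) hdep (fun n hn => hist_getElem A Z y L n hn)
    rw [h8, hFV]
    dsimp only
    rw [h11, h10 A₀ hbad A ?_, hov]
    · exact (sat_cut h6 hyl).symm
    · rw [hy1, hGe]
      refine (hdist ((bits (R a)).length ^ 2)).trans ?_
      rw [← pow_mul]
      omega

end Pool.Agent.H20NC
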