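import Pool.Agent.H20NC.CInst
import Pool.Agent.H20NC.Dec
import Pool.Agent.H20NC.REasy

/-!
# An oracle such that `W[1] = FPT` relative to all oracles at polynomial distance from it
-/

set_option autoImplicit false

namespace Pool.Agent.H20NC

open Filter MeasureTheory Pool.Agent.NPC Pool.Agent.H620R2.Gauge Pool.Agent.TH678.GC
  Pool.Agent.Y626.WG
open Pool.Agent.H20RD (DepOn rnd Orc)
open Pool.Agent.H20PW (bc)
open Pool.Agent.Y626.WC (DT sat_one Sq mem_Sq cut cut_cut InFPT computable_replicate
  exists_self ec ec_length ec_inj hist hist_length hist_getElem isFP_sim isFP_total poly_rep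
  bits_inj')
open Pool.Agent.W900.CH (Close)

/-- The padded string. -/
def yr (G : Polynomial ℕ) (r : List Bool) : List Bool :=
  pairBits (List.replicate (G.eval r.length) true) r

theorem unpair_yr (G : Polynomial ℕ) (r : List Bool) :
    unpair (yr G r) = (List.replicate (G.eval r.length) true, r) := by
  unfold yr
  rw [unpair_pairBits]

theorem poly_yr (G : Polynomial ℕ) {α : Type} [TEnc α] {r : α → List Bool}
    (hr : NPC.Poly r) : NPC.Poly (fun a => yr G (r a)) :=
  Pool.Agent.H622R2.poly_pairBits (poly_rep (UPoly.eval (UPoly.length hr) G) true) hr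

/-- The argument of the simulation. -/
noncomputable def xr' (G : Polynomial ℕ) (z r : List Bool) : List Bool :=
  pairBits (List.replicate ((unpair (unpair z).1).1.length *
    ((Polynomial.X + 1 : Polynomial ℕ) ^ 6).eval (yr G r).length) true) (yr G r)

theorem poly_xr' (G : Polynomial ℕ) {α : Type} [TEnc α]
    {z r : α → List Bool} (hz : NPC.Poly z) (hr : NPC.Poly r) :
    NPC.Poly (fun a => xr' G (z a) (r a)) := by
  have h1 : NPC.Poly (fun a => (unpair (unpair (z a)).1).1) :=
    (NPC.Poly.fst poly_unpair).comp ((NPC.Poly.fst poly_unpair).comp hz)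
  have h2 : UPoly (fun a => (yr G (r a)).length) := UPoly.length (poly_yr G hr)
  have h3 : UPoly (fun a => (unpair (unpair (z a)).1).1.length *
      ((Polynomial.X + 1 : Polynomial ℕ) ^ 6).eval (yr G (r a)).length) :=
    (UPoly.length h1).mul (UPoly.eval h2 _)
  exact Pool.Agent.H622R2.poly_pairBits (poly_rep h3 true) (poly_yr G hr)

/-- **The robust oracle.** -/
theorem robust : ∃ O₀ : Oracle, ∀ (O : Oracle) (c : ℕ),
      Close (fun n => (n : ℝ) ^ c) O₀ O → ∀ (α : Type) [TEnc α] (κ : α → ℕ)
      (P : α → Prop), InW 1 O κ P → InFPT O κ P := by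
  classical
  choose T Bad hBad hlen hT using inst0
  set QQ : Oracle → List Bool → List Bool → List Bool → Prop := fun E y h v =>
    (v = [] ∧ (T (cut E (y.length + 1)) y).fv h = true) ∨
    (∃ t : ℕ, v = true :: t.bits ∧ t < ((T (cut E (y.length + 1)) y).nx h).length) ∨
    (∃ t : ℕ, v = false :: t.bits ∧ ((T (cut E (y.length + 1)) y).nx h).getD t false = true)
    with hQQ
  obtain ⟨E, hEF⟩ := exists_self (fun u E => decide (∃ y h v : List Bool, u = ec y h v ∧
    QQ E y h v))
  have hE : ∀ y h v, E (ec y h v) = true ↔ QQ E y h v := by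
    intro y h v
    rw [hEF, decide_eq_true_eq]
    have hcut : cut (cut E (ec y h v).length) (y.length + 1) = cut E (y.length + 1) :=
      cut_cut E (by rw [ec_length]; omega)
    have hq : QQ (cut E (ec y h v).length) y h v ↔ QQ E y h v := by
      simp only [hQQ, hcut]
    constructor
    · rintro ⟨y', h', v', h1, h2⟩
      obtain ⟨rfl, rfl, rfl⟩ := ec_inj h1
      exact hq.1 h2
    · intro h1
      exact ⟨y, h, v, rfl, hq.2 h1⟩
  have hae : ∀ᵐ A ∂(rnd hf), {y | A ∈ Bad (cut E (y.length + 1)) y}.Finite :=
    bc _ (fun y => Bad (cut E (y.length + 1)) y) (fun y => hBad _ y)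
  obtain ⟨A, hA⟩ := hae.exists
  refine ⟨Ph E A, fun O c hclose α _ κ P hQ => ?_⟩
  -- the number of the changes
  obtain ⟨n₁, hn₁⟩ := eventually_atTop.1 hclose
  set c₀ := Pool.Agent.W900.CH.dist (Ph E A) O n₁ with hc₀
  have hdist : ∀ n, Pool.Agent.W900.CH.dist (Ph E A) O n ≤ n ^ c + c₀ := by
    intro n
    rcases le_total n₁ n with h1 | h1
    · have h2 : (Pool.Agent.W900.CH.dist (Ph E A) O n : ℝ) ≤ (n : ℝ) ^ c := hn₁ n h1
      have h3 : Pool.Agent.W900.CH.dist (Ph E A) O n ≤ n ^ c := by exact_mod_cast h2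
      omega
    · have h2 := Pool.Agent.W900.CH.dist_mono (Ph E A) O h1
      omega
  have hdec : IsFP O (fun u => [E u]) := decode hdist
  set G : Polynomial ℕ := Polynomial.X ^ 2 + Polynomial.X ^ (2 * c) + Polynomial.C c₀ with hG
  have hGe : ∀ s, G.eval s = s ^ 2 + s ^ (2 * c) + c₀ := by
    intro s
    rw [hG]
    simp
  obtain ⟨π, g, R, M, hπ, hg, hR⟩ := hQ
  set Z : List Bool → List Bool → List Bool := fun y h =>
    (T (cut E (y.length + 1)) y).nx h with hZ
  set FV : List Bool → List Bool → Bool := fun y h =>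
    (T (cut E (y.length + 1)) y).fv h with hFV
  have h1 : ∀ (y h : List Bool) (t : ℕ), E (ec y h (true :: t.bits)) =
      decide (t < (Z y h).length) := by
    intro y h t
    rw [Bool.eq_iff_iff, hE, decide_eq_true_eq]
    simp only [hQQ, hZ]
    constructor
    · rintro (⟨h1, -⟩ | ⟨t', h1, h2⟩ | ⟨t', h1, -⟩)
      · exact absurd h1 (by simp)
      · rw [List.cons.injEq] at h1
        rw [bits_inj' h1.2]
        exact h2
      · exact absurd h1 (by simp)
    · intro h1
      exact Or.inr (Or.inl ⟨t, rfl, h1⟩)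
  have h2 : ∀ (y h : List Bool) (t : ℕ), E (ec y h (false :: t.bits)) =
      (Z y h).getD t false := by
    intro y h t
    rw [Bool.eq_iff_iff, hE]
    simp only [hQQ, hZ]
    constructor
    · rintro (⟨h1, -⟩ | ⟨t', h1, -⟩ | ⟨t', h1, h2⟩)
      · exact absurd h1 (by simp)
      · exact absurd h1 (by simp)
      · rw [List.cons.injEq] at h1
        rw [bits_inj' h1.2]
        exact h2
    · intro h1
      exact Or.inr (Or.inr ⟨t, rfl, h1⟩)
  have h3 : ∀ y h : List Bool, E (ec y h []) = FV y h := by
    intro y h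
    rw [Bool.eq_iff_iff, hE, hFV]
    simp only [hQQ]
    constructor
    · rintro (⟨-, h1⟩ | ⟨t', h1, -⟩ | ⟨t', h1, -⟩)
      · exact h1
      · exact absurd h1 (by simp)
      · exact absurd h1 (by simp)
    · intro h1
      exact Or.inl ⟨trivial, h1⟩
  have h4 : ∀ y h : List Bool, (Z y h).length ≤ y.length := fun y h => hlen _ y h
  have hsim := isFP_trans hdec (isFP_sim (A := O) h1 h2 h3 h4)
  -- the reduction
  set rr : List Bool → List Bool := fun z =>
    (M.out O (pairBits (unpair (unpair z).1).2 (unpair z).2)).getD [] with hrr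
  have hrF : IsFP O rr := IsFP.comp (isFP_total O M) (IsFP.of_poly
    (Pool.Agent.H622R2.poly_pairBits
      ((NPC.Poly.snd poly_unpair).comp (NPC.Poly.fst poly_unpair)) (NPC.Poly.snd poly_unpair)))
  have hGf : IsFP O (fun z => xr' G z (rr z)) := by
    have h := IsFP.seq hrF hrF (φ := fun p => p.1) (ψ := fun p => xr' G p.1 p.2.1)
      (NPC.Poly.fst NPC.Poly.id) (poly_xr' G (NPC.Poly.fst NPC.Poly.id)
        (NPC.Poly.fst (NPC.Poly.snd NPC.Poly.id)))
    exact h
  set EE : Finset (List Bool) := hA.toFinset with hEE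
  set E' : Finset (List Bool) := EE.filter (fun y => ∃ I : Inst,
    (unpair y).2 = bits I ∧ I.Sat O) with hE'
  have hVF := IsFP.seq hGf hsim (φ := fun p => p.2)
    (ψ := fun p => if (unpair p.2.1).2 ∈ EE.toList then [decide ((unpair p.2.1).2 ∈ E'.toList)]
      else p.2.2) (NPC.Poly.snd NPC.Poly.id) (by
      have hu : NPC.Poly (fun p : List Bool × List Bool × List Bool => (unpair p.2.1).2) :=
        (NPC.Poly.snd poly_unpair).comp (NPC.Poly.fst (NPC.Poly.snd NPC.Poly.id))
      exact NPC.Poly.ite ((NPC.Poly.decide_mem hu (NPC.Poly.const EE.toList)).congr fun p => by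
          congr)
        (NPC.Poly.cons ((NPC.Poly.decide_mem hu (NPC.Poly.const E'.toList)).congr fun p => by
          congr) (NPC.Poly.const []))
        (NPC.Poly.snd (NPC.Poly.snd NPC.Poly.id)))
  simp only [Finset.mem_toList] at hVF
  obtain ⟨M', hM'⟩ := hVF
  refine ⟨fun k => pairBits (List.replicate (fc (g k)) true) (π k), M',
    Pool.Agent.TH678.WP.computable_pairBits.comp
      (computable_replicate (computable_fc.comp hg)) hπ, fun a => ?_⟩
  obtain ⟨h5, h6, h7, h8⟩ := hR a
  set z := pairBits (pairBits (List.replicate (fc (g (κ a))) true) (π (κ a))) (bits a) with hz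
  have hrz : rr z = bits (R a) := by
    rw [hrr]
    dsimp only
    rw [hz, unpair_pairBits]
    dsimp only
    rw [unpair_pairBits]
    dsimp only
    rw [h5]
    rfl
  have hz1 : (unpair (unpair z).1).1 = List.replicate (fc (g (κ a))) true := by
    rw [hz, unpair_pairBits]
    dsimp only
    rw [unpair_pairBits]
  set y := yr G (bits (R a)) with hy
  have hx : xr' G z (rr z) = pairBits (List.replicate (fc (g (κ a)) *
      (y.length + 1) ^ 6) true) y := by
    rw [hrz]
    unfold xr'
    rw [hz1, List.length_replicate]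
    simp only [Polynomial.eval_pow, Polynomial.eval_add, Polynomial.eval_X, Polynomial.eval_one]
    rfl
  have hy2 : (unpair y).2 = bits (R a) := by
    rw [hy, unpair_yr]
  have hy1 : (unpair y).1.length = G.eval (bits (R a)).length := by
    rw [hy, unpair_yr, List.length_replicate]
  have hyG : G.eval (bits (R a)).length ≤ y.length := by
    rw [hy]
    unfold yr
    rw [length_pairBits, List.length_replicate]
    omega
  have hyl : (bits (R a)).length ^ 2 ≤ y.length := by
    refine le_trans ?_ hyG
    rw [hGe]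
    omega
  rw [hM' z]
  beta_reduce
  rw [hx, unpair_pairBits]
  dsimp only
  by_cases hyE : y ∈ EE
  · rw [if_pos hyE]
    refine ⟨_, rfl, ?_⟩
    rw [decide_eq_true_eq, h8, hE', Finset.mem_filter]
    constructor
    · intro h
      exact ⟨hyE, R a, hy2, h⟩
    · rintro ⟨-, I, h9, h10⟩
      rw [hy2] at h9
      rw [bits_injective h9]
      exact h10
  · rw [if_neg hyE]
    refine ⟨_, rfl, ?_⟩
    have hbad : A ∉ Bad (cut E (y.length + 1)) y := fun h => hyE (hA.mem_toFinset.2 h)
    obtain ⟨h9, h10⟩ := hT (cut E (y.length + 1)) y (R a) hy2 h6 hyl (hy1.le.trans hyG)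
    set L := (pairBits (List.replicate (fc (g (κ a)) * (y.length + 1) ^ 6) true) y).length
      with hL
    have hdep : (T (cut E (y.length + 1)) y).depth ≤ (hist O Z y L).length := by
      rw [hist_length]
      refine h9.trans ((Nat.mul_le_mul_right _ (fc_mono h7)).trans ?_)
      rw [hL, length_pairBits, List.length_replicate]
      omega
    have h11 := DT.fv_eq (A := O) _ (hist O Z y L) hdep (fun n hn => hist_getElem O Z y L n hn)
    rw [h8, hFV]
    dsimp only
    rw [h11, h10 A hbad O ?_]
    rw [hy1, hGe]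
    have e : {z : List Bool | z.length ≤ (bits (R a)).length ^ 2 ∧
        O z ≠ Ph (cut E (y.length + 1)) A z} =
        {z : List Bool | z.length ≤ (bits (R a)).length ^ 2 ∧ O z ≠ Ph E A z} := by
      ext x
      refine and_congr_right fun hx => ?_
      have : Ph (cut E (y.length + 1)) A x = Ph E A x := by
        refine ph_loc (fun _ _ => rfl) fun u hu => ?_
        unfold cut
        rw [if_pos (by omega)]
      rw [this]
    rw [e]
    refine (hdist ((bits (R a)).length ^ 2)).trans ?_
    rw [← pow_mul]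
    omega

end Pool.Agent.H20NC
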