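import Pool.Agent.H20NC.RTree

/-!
# Decision trees for disjunctions of local events: dependences inside of blocks
-/

set_option autoImplicit false

namespace Pool.Agent.H20NC

open MeasureTheory Pool.Agent.NPC Pool.Agent.H620R2.Gauge Pool.Agent.Y626.WR
open Pool.Agent.H20RD (DepOn Orc)
open Pool.Agent.Y626.WC (DT)
open Pool.Agent.H20PW (cyl depOn_cyl ow_cyl depOn_ow)

/-- `bl x` is the block of `x`; the blocks are the classes of an equivalence relation -/
structure Blks (bl : List Bool → Finset (List Bool)) : Prop where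
  self : ∀ x, x ∈ bl x
  eq : ∀ x y, y ∈ bl x → bl y = bl x

/-- events which depend on different blocks are independent -/
def Indep (μ : Measure Orc) (bl : List Bool → Finset (List Bool)) : Prop :=
  ∀ (T T' : Finset (List Bool)) (G H : Set Orc), DepOn T G → DepOn T' H →
    Disjoint (T.biUnion bl) (T'.biUnion bl) → μ.real (G ∩ H) = μ.real G * μ.real H

section Tree

variable {μ : Measure Orc} [IsProbabilityMeasure μ] {bl : List Bool → Finset (List Bool)}

/-- a set without the elements of a union of blocks -/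
theorem disj_sdiff (hbl : Blks bl) {U : Finset (List Bool)} (hU : ∀ y ∈ U, bl y ⊆ U)
    (K : Finset (List Bool)) : Disjoint ((K \ U).biUnion bl) (U.biUnion bl) := by
  rw [Finset.disjoint_left]
  intro z hz hz'
  rw [Finset.mem_biUnion] at hz hz'
  obtain ⟨x, hx, hzx⟩ := hz
  obtain ⟨y, hy, hzy⟩ := hz'
  rw [Finset.mem_sdiff] at hx
  apply hx.2
  have h1 : bl x = bl z := (hbl.eq x z hzx).symm
  have h2 : bl z = bl y := hbl.eq y z hzy
  exact hU y hy (h2 ▸ h1 ▸ hbl.self x)

theorem mu_resample (hbl : Blks bl) (hind : Indep μ bl) {G : Set Orc} {K : Finset (List Bool)}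
    (hG : DepOn K G) {U : Finset (List Bool)} (hU : ∀ y ∈ U, bl y ⊆ U) :
    μ.real G = ∑ T ∈ U.powerset, μ.real (cyl U T) * μ.real {A | ow U T A ∈ G} := by
  classical
  have e1 : G = ⋃ T ∈ U.powerset, (G ∩ cyl U T) := by
    ext A
    simp only [Set.mem_iUnion, Set.mem_inter_iff, exists_prop, Finset.mem_powerset]
    constructor
    · intro hA
      exact ⟨_, Finset.filter_subset _ _, hA, rfl⟩
    · rintro ⟨T, _, hA, _⟩
      exact hA
  conv_lhs => rw [e1]
  rw [measureReal_biUnion_finset]
  · refine Finset.sum_congr rfl fun T _ => ?_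
    have e2 : G ∩ cyl U T = {A | ow U T A ∈ G} ∩ cyl U T := by
      ext A
      simp only [Set.mem_inter_iff, Set.mem_ofPred_eq]
      constructor
      · rintro ⟨h1, h2⟩
        exact ⟨by rw [ow_cyl h2]; exact h1, h2⟩
      · rintro ⟨h1, h2⟩
        rw [ow_cyl h2] at h1
        exact ⟨h1, h2⟩
    rw [e2, hind (K \ U) U _ _ (depOn_ow hG) (depOn_cyl U T) (disj_sdiff hbl hU K), mul_comm]
  · intro T _ T' _ hne
    rw [Function.onFun, Set.disjoint_left]
    rintro A ⟨_, h1⟩ ⟨_, h2⟩
    exact hne (h1.symm.trans h2)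
  · intro T _
    exact hG.measurable.inter (depOn_cyl U T).measurable

theorem mu_sum_cyl (hbl : Blks bl) (hind : Indep μ bl) {U : Finset (List Bool)}
    (hU : ∀ y ∈ U, bl y ⊆ U) : ∑ T ∈ U.powerset, μ.real (cyl U T) = 1 := by
  have h := mu_resample hbl hind (G := Set.univ) (K := ∅) (fun _ _ _ => Iff.rfl) hU
  simp only [Set.mem_univ, Set.ofPred_true, probReal_univ, mul_one] at h
  exact h.symm

/-- the probability that none of some independent local events happens -/
theorem mu_none (hind : Indep μ bl) {S : Finset (List Bool)} {W : ℕ}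
    (hpat : ∀ D ⊆ S, D.card ≤ W → ∀ A0 : Orc,
      (1 / 2 : ℝ) ^ D.card ≤ μ.real {A | ∀ x ∈ D, A x = A0 x}) {ι : Type} (f : ι → Orc → Prop)
    (D : ι → Finset (List Bool)) (hloc : ∀ i, DepOn (D i) {A | f i A}) (hD : ∀ i, D i ⊆ S)
    {k : ℕ} (hk : k ≤ W) (s : Finset ι) (hlive : ∀ i ∈ s, (∃ A, f i A) ∧ (D i).card ≤ k)
    (hdis : (s : Set ι).PairwiseDisjoint fun i => (D i).biUnion bl) :
    μ.real {A | ∀ i ∈ s, ¬ f i A} ≤ (1 - (1 / 2 : ℝ) ^ k) ^ s.card := by
  classical
  induction s using Finset.induction_on with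
  | empty =>
    have : {A : Orc | ∀ i ∈ (∅ : Finset ι), ¬ f i A} = Set.univ := by
      ext A; simp
    rw [this, Finset.card_empty, pow_zero, probReal_univ]
  | insert j s hj ih =>
    have hl : ∀ i ∈ s, (∃ A, f i A) ∧ (D i).card ≤ k := fun i hi =>
      hlive i (Finset.mem_insert_of_mem hi)
    have hd : (s : Set ι).PairwiseDisjoint fun i => (D i).biUnion bl := hdis.subset (by simp)
    have e1 : {A | ∀ i ∈ insert j s, ¬ f i A} = {A | ∀ i ∈ s, ¬ f i A} ∩ {A | f j A}ᶜ := by
      ext A
      simp only [Set.mem_ofPred_eq, Finset.mem_insert, forall_eq_or_imp, Set.mem_inter_iff,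
        Set.mem_compl_iff]
      exact and_comm
    have e2 : μ.real {A | f j A}ᶜ ≤ 1 - (1 / 2 : ℝ) ^ k := by
      rw [measureReal_compl (hloc j).measurable, probReal_univ]
      obtain ⟨⟨A0, hA0⟩, hc⟩ := hlive j (Finset.mem_insert_self _ _)
      have h3 : (1 / 2 : ℝ) ^ (D j).card ≤ μ.real {A | f j A} := by
        refine (hpat (D j) (hD j) (hc.trans hk) A0).trans (measureReal_mono ?_)
        intro A hA
        exact ((hloc j) A0 A fun x hx => (hA x hx).symm).1 hA0
      have h4 : (1 / 2 : ℝ) ^ k ≤ (1 / 2 : ℝ) ^ (D j).card :=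
        pow_le_pow_of_le_one (by norm_num) (by norm_num) hc
      linarith
    have hdj : Disjoint ((s.biUnion D).biUnion bl) ((D j).biUnion bl) := by
      rw [Finset.biUnion_biUnion, Finset.disjoint_biUnion_left]
      intro i hi
      exact hdis (by simp [hi]) (by simp) (by rintro rfl; exact hj hi)
    have hdep : DepOn (s.biUnion D) {A | ∀ i ∈ s, ¬ f i A} := by
      intro A A' h
      refine forall₂_congr fun i hi => not_congr (hloc i A A' fun z hz => h z ?_)
      exact Finset.mem_biUnion.2 ⟨i, hi, hz⟩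
    rw [e1, hind _ _ _ _ hdep (hloc j).compl hdj, Finset.card_insert_of_notMem hj, pow_succ]
    have h5 : (0 : ℝ) ≤ 1 - (1 / 2 : ℝ) ^ k := by
      have : (1 / 2 : ℝ) ^ k ≤ 1 := pow_le_one₀ (by norm_num) (by norm_num)
      linarith
    exact mul_le_mul (ih hl hd) e2 measureReal_nonneg (pow_nonneg h5 _)

/-- many independent events: one of them happens even after `g` changes -/
theorem mu_many (hbl : Blks bl) (hind : Indep μ bl) {S : Finset (List Bool)} {W : ℕ}
    (hpat : ∀ D ⊆ S, D.card ≤ W → ∀ A0 : Orc,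
      (1 / 2 : ℝ) ^ D.card ≤ μ.real {A | ∀ x ∈ D, A x = A0 x}) {ι : Type} (f : ι → Orc → Prop)
    (D : ι → Finset (List Bool)) (hloc : ∀ i, DepOn (D i) {A | f i A}) (hD : ∀ i, D i ⊆ S)
    {k m g : ℕ} (hk : k ≤ W) (s : Finset ι) (hs : s.card = (g + 1) * m)
    (hlive : ∀ i ∈ s, (∃ A, f i A) ∧ (D i).card ≤ k)
    (hdis : (s : Set ι).PairwiseDisjoint fun i => (D i).biUnion bl) :
    μ.real (nb g S {A | ∀ i ∈ s, ¬ f i A}) ≤ (g + 1) * (1 - (1 / 2 : ℝ) ^ k) ^ m := by
  classical
  have hcard : Fintype.card s = Fintype.card (Fin (g + 1) × Fin m) := by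
    rw [Fintype.card_coe, Fintype.card_prod, Fintype.card_fin, Fintype.card_fin, hs]
  let e : Fin (g + 1) × Fin m ≃ s := (Fintype.equivOfCardEq hcard).symm
  set G : Fin (g + 1) → Finset ι := fun j => Finset.univ.image fun a : Fin m => (e (j, a)).1
    with hG
  have hGs : ∀ j, G j ⊆ s := by
    intro j i hi
    rw [hG, Finset.mem_image] at hi
    obtain ⟨a, _, rfl⟩ := hi
    exact (e (j, a)).2
  have hGc : ∀ j, (G j).card = m := by
    intro j
    rw [hG]
    dsimp only
    rw [Finset.card_image_of_injective, Finset.card_univ, Fintype.card_fin]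
    intro a b hab
    have h2 := e.injective (Subtype.ext hab)
    exact (Prod.mk.inj h2).2
  have hGd : ∀ j j' i, i ∈ G j → i ∈ G j' → j = j' := by
    intro j j' i hi hi'
    rw [hG, Finset.mem_image] at hi hi'
    obtain ⟨a, _, h2⟩ := hi
    obtain ⟨a', _, h3⟩ := hi'
    have h4 := e.injective (Subtype.ext (h2.trans h3.symm))
    exact (Prod.mk.inj h4).1
  have hDc : ∀ i, D i ⊆ (D i).biUnion bl := fun i x hx =>
    Finset.mem_biUnion.2 ⟨x, hx, hbl.self x⟩
  have hsub : nb g S {A | ∀ i ∈ s, ¬ f i A} ⊆ ⋃ j ∈ (Finset.univ : Finset (Fin (g + 1))),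
      {A | ∀ i ∈ G j, ¬ f i A} := by
    rintro A ⟨T, hT1, hT2, hT3⟩
    by_contra hc
    simp only [Finset.mem_univ, Set.iUnion_true, Set.mem_iUnion, not_exists, Set.mem_ofPred_eq] at hc
    push Not at hc
    choose i hi1 hi2 using hc
    have hz : ∀ j, ∃ z, z ∈ D (i j) ∧ z ∈ T := by
      intro j
      by_contra hc
      push Not at hc
      refine hT3 (i j) (hGs j (hi1 j)) ((hloc (i j) A _ fun z hz => ?_).1 (hi2 j))
      exact (xr_of_notMem (hc z hz)).symm
    choose z hz1 hz2 using hz
    have hinj : Function.Injective z := by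
      intro j j' h
      by_contra hne
      have h3 : i j ≠ i j' := fun h4 => hne (hGd j j' (i j) (hi1 j) (h4 ▸ hi1 j'))
      have h4 := hdis (Finset.mem_coe.2 (hGs j (hi1 j))) (Finset.mem_coe.2 (hGs j' (hi1 j'))) h3
      exact Finset.disjoint_left.1 h4 (hDc _ (hz1 j)) (hDc _ (h ▸ hz1 j'))
    have h5 := Finset.card_le_card_of_injOn z (s := Finset.univ) (t := T) (fun j _ => hz2 j)
      hinj.injOn
    rw [Finset.card_univ, Fintype.card_fin] at h5
    omega
  refine (measureReal_mono hsub (measure_ne_top _ _)).trans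
    ((measureReal_biUnion_finset_le _ _).trans ?_)
  refine (Finset.sum_le_card_nsmul _ _ ((1 - (1 / 2 : ℝ) ^ k) ^ m) fun j _ => ?_).trans ?_
  · have h2 := mu_none hind hpat f D hloc hD hk (G j) (fun i hi => hlive i (hGs j hi))
      (hdis.subset (Finset.coe_subset.2 (hGs j)))
    rwa [hGc] at h2
  · rw [Finset.card_univ, Fintype.card_fin, nsmul_eq_mul]
    push_cast
    exact le_rfl

/-- The disjunction of events which depend on at most `k` bits is, with high probability, the value
of a decision tree, even after `g` changes of the oracle. -/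
theorem ctree (hbl : Blks bl) (hind : Indep μ bl) (W m g b : ℕ) (S : Finset (List Bool))
    (hSb : ∀ x ∈ S, bl x ⊆ S) (hSc : ∀ x ∈ S, (bl x).card ≤ b)
    (hpat : ∀ D ⊆ S, D.card ≤ W → ∀ A0 : Orc,
      (1 / 2 : ℝ) ^ D.card ≤ μ.real {A | ∀ x ∈ D, A x = A0 x}) :
    ∀ (k : ℕ), k ≤ W → ∀ (ι : Type)
    (f : ι → Orc → Prop) (D : ι → Finset (List Bool)),
    (∀ i, DepOn (D i) {A | f i A}) →
    (∀ i, D i ⊆ S) → (∀ i, (∃ A, f i A) → (D i).card ≤ k) →
    ∃ t : DT, t.depth ≤ (g + 1) * m * b * k ^ 2 ∧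
      t.In (⋃ i, (((D i).biUnion bl : Finset (List Bool)) : Set (List Bool))) ∧
      μ.real (nb g S {A | ¬ (t.eval A = true ↔ ∃ i, f i A)}) ≤
          (((g + 1) * m * (W * b) + 1 : ℕ) : ℝ) ^ (g * k) *
            ((g + 1) * (1 - (1 / 2 : ℝ) ^ W) ^ m) := by
  classical
  have hhalf : (0 : ℝ) ≤ 1 - (1 / 2 : ℝ) ^ W := by
    have : (1 / 2 : ℝ) ^ W ≤ 1 := pow_le_one₀ (by norm_num) (by norm_num)
    linarith
  have hnn0 : (0 : ℝ) ≤ ((g : ℝ) + 1) * (1 - (1 / 2 : ℝ) ^ W) ^ m :=
    mul_nonneg (by positivity) (pow_nonneg hhalf _)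
  have hnn : ∀ (k : ℕ), (0 : ℝ) ≤
      (((g + 1) * m * (W * b) + 1 : ℕ) : ℝ) ^ (g * k) *
        ((g + 1) * (1 - (1 / 2 : ℝ) ^ W) ^ m) :=
    fun k => mul_nonneg (by positivity) hnn0
  -- if some event always happens
  have hsure : ∀ (k : ℕ) (ι : Type)
      (f : ι → Orc → Prop) (D : ι → Finset (List Bool)),
      (∀ i, DepOn (D i) {A | f i A}) →
      (∃ i, (∃ A, f i A) ∧ D i = ∅) →
      ∃ t : DT, t.depth ≤ (g + 1) * m * b * k ^ 2 ∧
        t.In (⋃ i, (((D i).biUnion bl : Finset (List Bool)) : Set (List Bool))) ∧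
        μ.real (nb g S {A | ¬ (t.eval A = true ↔ ∃ i, f i A)}) ≤
          (((g + 1) * m * (W * b) + 1 : ℕ) : ℝ) ^ (g * k) *
            ((g + 1) * (1 - (1 / 2 : ℝ) ^ W) ^ m) := by
    rintro k ι f D hloc ⟨i, ⟨A0, h0⟩, hD⟩
    refine ⟨DT.leaf true, Nat.zero_le _, trivial, ?_⟩
    have : {A | ¬ ((DT.leaf true).eval A = true ↔ ∃ i, f i A)} = ∅ := by
      rw [Set.eq_empty_iff_forall_notMem]
      intro A hA
      apply hA
      refine ⟨fun _ => ⟨i, (hloc i A0 A ?_).1 h0⟩, fun _ => rfl⟩
      rw [hD]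
      intro z hz
      exact absurd hz (Finset.notMem_empty z)
    rw [this, nb_empty, measureReal_empty]
    exact hnn k
  intro k
  induction k with
  | zero =>
    intro _ ι f D hloc hS hlive
    by_cases hex : ∃ i, ∃ A, f i A
    · obtain ⟨i, hi⟩ := hex
      exact hsure 0 ι f D hloc ⟨i, hi, Finset.card_eq_zero.1 (Nat.le_zero.1 (hlive i hi))⟩
    · refine ⟨DT.leaf false, Nat.zero_le _, trivial, ?_⟩
      have : {A | ¬ ((DT.leaf false).eval A = true ↔ ∃ i, f i A)} = ∅ := by
        rw [Set.eq_empty_iff_forall_notMem]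
        intro A hA
        apply hA
        refine ⟨fun h => absurd h (by simp [DT.eval]), fun ⟨i, h⟩ => absurd ⟨i, A, h⟩ hex⟩
      rw [this, nb_empty, measureReal_empty]
      exact hnn 0
  | succ k ih =>
    intro hw ι f D hloc hS hlive
    by_cases hsr : ∃ i, (∃ A, f i A) ∧ D i = ∅
    · exact hsure (k + 1) ι f D hloc hsr
    by_cases hbig : ∃ s : Finset ι, s.card = (g + 1) * m ∧ (∀ i ∈ s, ∃ A, f i A) ∧
        (s : Set ι).PairwiseDisjoint fun i => (D i).biUnion bl
    · obtain ⟨s, hs, hsl, hsd⟩ := hbig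
      refine ⟨DT.leaf true, Nat.zero_le _, trivial, ?_⟩
      have h1 := mu_many hbl hind hpat f D hloc hS (k := k + 1) (g := g) (m := m) hw s hs
        (fun i hi => ⟨hsl i hi, hlive i (hsl i hi)⟩) hsd
      have h2 : μ.real (nb g S {A | ¬ ((DT.leaf true).eval A = true ↔ ∃ i, f i A)}) ≤
          μ.real (nb g S {A | ∀ i ∈ s, ¬ f i A}) := by
        refine measureReal_mono (nb_mono ?_) (measure_ne_top _ _)
        intro A hA i _ hi
        exact hA ⟨fun _ => ⟨i, hi⟩, fun _ => rfl⟩
      refine h2.trans (h1.trans ?_)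
      have h3 : (1 / 2 : ℝ) ^ W ≤ (1 / 2 : ℝ) ^ (k + 1) :=
        pow_le_pow_of_le_one (by norm_num) (by norm_num) hw
      have h4 : (1 / 2 : ℝ) ^ (k + 1) ≤ 1 := pow_le_one₀ (by norm_num) (by norm_num)
      have h5 : ((g : ℝ) + 1) * (1 - (1 / 2 : ℝ) ^ (k + 1)) ^ m ≤
          ((g : ℝ) + 1) * (1 - (1 / 2 : ℝ) ^ W) ^ m :=
        mul_le_mul_of_nonneg_left (pow_le_pow_left₀ (by linarith) (by linarith) _) (by positivity)
      refine h5.trans (le_mul_of_one_le_left hnn0 ?_)
      refine one_le_pow₀ ?_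
      push_cast
      have : (0 : ℝ) ≤ ((g : ℝ) + 1) * m * (W * b) := by positivity
      linarith
    -- a maximal disjoint family
    obtain ⟨s, hsl, hsd, hsc, hmax⟩ : ∃ s : Finset ι, (∀ i ∈ s, ∃ A, f i A) ∧
        ((s : Set ι).PairwiseDisjoint fun i => (D i).biUnion bl) ∧ s.card ≤ (g + 1) * m ∧
        ∀ i, (∃ A, f i A) → ¬ Disjoint ((D i).biUnion bl) (s.biUnion fun i => (D i).biUnion bl) := by
      have hb : ∀ s : Finset ι, (∀ i ∈ s, ∃ A, f i A) →
          ((s : Set ι).PairwiseDisjoint fun i => (D i).biUnion bl) → s.card < (g + 1) * m := by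
        intro s h1 h2
        by_contra hc
        push Not at hc
        obtain ⟨s', h3, h4⟩ := Finset.exists_subset_card_eq hc
        exact hbig ⟨s', h4, fun i hi => h1 i (h3 hi), h2.subset (Finset.coe_subset.2 h3)⟩
      have hP : ∃ n : ℕ, ∃ s : Finset ι, s.card = (g + 1) * m - n ∧ (∀ i ∈ s, ∃ A, f i A) ∧
          (s : Set ι).PairwiseDisjoint fun i => (D i).biUnion bl :=
        ⟨(g + 1) * m, ∅, by simp, by simp, by simp⟩
      obtain ⟨s, h1, h2, h3⟩ := Nat.find_spec hP
      have hlt := hb s h2 h3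
      refine ⟨s, h2, h3, hlt.le, fun i hi hdisj => ?_⟩
      have hne : (D i).Nonempty := by
        rw [Finset.nonempty_iff_ne_empty]
        intro h
        exact hsr ⟨i, hi, h⟩
      have his : i ∉ s := by
        intro h
        obtain ⟨z, hz⟩ := hne
        have hz' : z ∈ (D i).biUnion bl := Finset.mem_biUnion.2 ⟨z, hz, hbl.self z⟩
        exact (Finset.disjoint_left.1 hdisj hz') (Finset.mem_biUnion.2 ⟨i, h, hz'⟩)
      have hn0 : Nat.find hP ≠ 0 := by
        intro h
        rw [h] at h1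
        omega
      have hle : Nat.find hP ≤ (g + 1) * m := Nat.find_min' hP ⟨∅, by simp, by simp, by simp⟩
      refine Nat.find_min hP (Nat.sub_lt (Nat.pos_of_ne_zero hn0) Nat.one_pos)
        ⟨insert i s, ?_, ?_, ?_⟩
      · rw [Finset.card_insert_of_notMem his, h1]
        omega
      · intro j hj
        rcases Finset.mem_insert.1 hj with rfl | hj
        · exact hi
        · exact h2 j hj
      · rw [Finset.coe_insert]
        refine h3.insert fun j hj _ => ?_
        rw [Finset.disjoint_biUnion_right] at hdisj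
        exact hdisj j (Finset.mem_coe.1 hj)
    set U := s.biUnion fun i => (D i).biUnion bl with hU
    have hUbl : ∀ y ∈ U, bl y ⊆ U := by
      intro y hy z hz
      rw [hU, Finset.mem_biUnion] at hy ⊢
      obtain ⟨i, hi, hy⟩ := hy
      rw [Finset.mem_biUnion] at hy
      obtain ⟨x, hx, hyx⟩ := hy
      refine ⟨i, hi, Finset.mem_biUnion.2 ⟨x, hx, ?_⟩⟩
      rw [← hbl.eq x y hyx]
      exact hz
    have hUS : U ⊆ S := by
      intro y hy
      rw [hU, Finset.mem_biUnion] at hy
      obtain ⟨i, hi, hy⟩ := hy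
      rw [Finset.mem_biUnion] at hy
      obtain ⟨x, hx, hyx⟩ := hy
      exact hSb x (hS i hx) hyx
    have hUc : U.card ≤ (g + 1) * m * ((k + 1) * b) := by
      refine le_trans Finset.card_biUnion_le ?_
      refine le_trans (Finset.sum_le_card_nsmul _ _ ((k + 1) * b) fun i hi => ?_) ?_
      · refine Finset.card_biUnion_le.trans ?_
        refine (Finset.sum_le_card_nsmul _ _ b fun x hx => hSc x (hS i hx)).trans ?_
        rw [smul_eq_mul]
        exact Nat.mul_le_mul_right _ (hlive i (hsl i hi))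
      · rw [smul_eq_mul]
        exact Nat.mul_le_mul_right _ hsc
    have hk : ∀ T : Finset (List Bool), ∃ t : DT, t.depth ≤ (g + 1) * m * b * k ^ 2 ∧
        t.In (⋃ i, (((D i \ U).biUnion bl : Finset (List Bool)) : Set (List Bool))) ∧
        μ.real (nb g S {A | ¬ (t.eval A = true ↔ ∃ i, f i (ow U T A))}) ≤
          (((g + 1) * m * (W * b) + 1 : ℕ) : ℝ) ^ (g * k) *
            ((g + 1) * (1 - (1 / 2 : ℝ) ^ W) ^ m) := by
      intro T
      refine ih (by omega) ι (fun i A => f i (ow U T A)) (fun i => D i \ U) ?_ ?_ ?_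
      · intro i A A' h
        refine hloc i _ _ fun z hz => ?_
        unfold ow
        by_cases hzU : z ∈ U
        · rw [if_pos hzU, if_pos hzU]
        · rw [if_neg hzU, if_neg hzU]
          exact h z (Finset.mem_sdiff.2 ⟨hz, hzU⟩)
      · intro i
        exact Finset.sdiff_subset.trans (hS i)
      · rintro i ⟨A, hA⟩
        have h1 := hlive i ⟨_, hA⟩
        have h2 := hmax i ⟨_, hA⟩
        rw [Finset.not_disjoint_iff] at h2
        obtain ⟨z, hz1, hz2⟩ := h2
        rw [Finset.mem_biUnion] at hz1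
        obtain ⟨x, hx, hzx⟩ := hz1
        have hxU : x ∈ U := hUbl z hz2 (by
          rw [hbl.eq x z hzx]
          exact hbl.self x)
        have h3 : (D i \ U).card < (D i).card :=
          Finset.card_lt_card ⟨Finset.sdiff_subset, fun h => (Finset.mem_sdiff.1 (h hx)).2 hxU⟩
        omega
    choose K hk1 hk2 hk3 using hk
    have hin0 : ∀ i, ∀ z ∈ (D i \ U).biUnion bl, z ∈ (D i).biUnion bl ∧ z ∈ S ∧ z ∉ U := by
      intro i z hz
      have hz0 := hz
      rw [Finset.mem_biUnion] at hz
      obtain ⟨x, hx, hzx⟩ := hz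
      rw [Finset.mem_sdiff] at hx
      refine ⟨Finset.mem_biUnion.2 ⟨x, hx.1, hzx⟩, hSb x (hS i hx.1) hzx, fun hzU => ?_⟩
      refine Finset.disjoint_left.1 (disj_sdiff hbl hUbl (D i)) hz0 ?_
      exact Finset.mem_biUnion.2 ⟨z, hzU, hbl.self z⟩
    refine ⟨DT.qall U.toList K, ?_, ?_, ?_⟩
    · refine (DT.depth_qall U.toList K hk1).trans ?_
      rw [Finset.length_toList]
      calc U.card + (g + 1) * m * b * k ^ 2
          ≤ (g + 1) * m * ((k + 1) * b) + (g + 1) * m * b * k ^ 2 := by omega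
        _ = (g + 1) * m * b * (k + 1 + k ^ 2) := by ring
        _ ≤ (g + 1) * m * b * (k + 1) ^ 2 := Nat.mul_le_mul_left _ (by nlinarith)
    · refine DT.in_qall _ _ ?_ fun T => DT.In.mono ?_ _ (hk2 T)
      · intro z hz
        rw [Finset.mem_toList, hU, Finset.mem_biUnion] at hz
        obtain ⟨i, _, hz⟩ := hz
        exact Set.mem_iUnion.2 ⟨i, Finset.mem_coe.2 hz⟩
      · refine Set.iUnion_mono fun i => ?_
        exact Finset.coe_subset.2 fun z hz => (hin0 i z hz).1
    · set ErT : Finset (List Bool) → Set Orc := fun T =>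
        {A | ¬ ((K T).eval A = true ↔ ∃ i, f i (ow U T A))} with hErT
      have hErT' : ∀ T, DepOn (S \ U) (ErT T) := by
        intro T A A' h
        have h1 : (K T).eval A = (K T).eval A' := by
          refine DT.eval_congr (fun z hz => h z ?_) _ (hk2 T)
          obtain ⟨i, hz⟩ := Set.mem_iUnion.1 hz
          have h2 := hin0 i z (Finset.mem_coe.1 hz)
          exact Finset.mem_sdiff.2 ⟨h2.2.1, h2.2.2⟩
        have h2 : (∃ i, f i (ow U T A)) ↔ ∃ i, f i (ow U T A') := by
          refine exists_congr fun i => hloc i _ _ fun z hz => ?_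
          unfold ow
          by_cases hzU : z ∈ U
          · rw [if_pos hzU, if_pos hzU]
          · rw [if_neg hzU, if_neg hzU]
            exact h z (Finset.mem_sdiff.2 ⟨hS i hz, hzU⟩)
        change ¬ _ ↔ ¬ _
        rw [h1, h2]
      -- the pattern of a changed oracle
      set pat : Orc → Finset (List Bool) → Finset (List Bool) := fun A T =>
        U.filter fun z => xr A T z = true with hpat'
      have hcover : nb g S {A | ¬ ((DT.qall U.toList K).eval A = true ↔ ∃ i, f i A)} ⊆
          ⋃ T ∈ U.powerset.filter (fun T => T.card ≤ g), {A | A ∈ nb g S (ErT (pat A T))} := by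
        rintro A ⟨T, hT1, hT2, hT3⟩
        have hp : pat A (T ∩ U) = U.filter fun z => xr A T z = true := by
          refine Finset.filter_congr fun z hz => ?_
          unfold xr
          simp [hz]
        refine Set.mem_iUnion₂.2 ⟨T ∩ U, Finset.mem_filter.2 ⟨Finset.mem_powerset.2
          Finset.inter_subset_right, (Finset.card_le_card Finset.inter_subset_left).trans hT2⟩, ?_⟩
        refine ⟨T, hT1, hT2, ?_⟩
        have h4 : (DT.qall U.toList K).eval (xr A T) = (K (pat A (T ∩ U))).eval (xr A T) := by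
          rw [DT.eval_qall, Finset.toList_toFinset, hp]
        have h5 : ow U (pat A (T ∩ U)) (xr A T) = xr A T := by
          refine ow_cyl ?_
          exact hp.symm
        change ¬ _
        change ¬ _ at hT3
        rw [h4] at hT3
        rw [h5]
        exact hT3
      refine (measureReal_mono hcover (measure_ne_top _ _)).trans
        ((measureReal_biUnion_finset_le _ _).trans ?_)
      set e0 : ℝ := (((g + 1) * m * (W * b) + 1 : ℕ) : ℝ) ^ (g * k) *
        ((g + 1) * (1 - (1 / 2 : ℝ) ^ W) ^ m) with he0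
      have hb0 : 0 ≤ e0 := hnn k
      have hterm : ∀ T ∈ U.powerset.filter (fun T => T.card ≤ g),
          μ.real {A | A ∈ nb g S (ErT (pat A T))} ≤ e0 := by
        intro T hT
        have hdep : DepOn (S ∪ U) {A | A ∈ nb g S (ErT (pat A T))} := by
          intro A A' h
          have h6 : pat A T = pat A' T := by
            refine Finset.filter_congr fun z hz => ?_
            unfold xr
            rw [h z (Finset.mem_union_right _ hz)]
          change A ∈ nb g S (ErT (pat A T)) ↔ A' ∈ nb g S (ErT (pat A' T))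
          rw [h6]
          exact depOn_nb (hErT' _) A A' fun x hx =>
            h x (Finset.mem_union_left _ (Finset.mem_sdiff.1 hx).1)
        rw [mu_resample hbl hind hdep hUbl]
        have hterm2 : ∀ T0 ∈ U.powerset, μ.real (cyl U T0) *
            μ.real {A | ow U T0 A ∈ {A | A ∈ nb g S (ErT (pat A T))}} ≤
            μ.real (cyl U T0) * e0 := by
          intro T0 hT0
          refine mul_le_mul_of_nonneg_left ?_ measureReal_nonneg
          have hpc : ∀ A : Orc, pat (ow U T0 A) T =
              U.filter fun z => (decide (z ∈ T0)).xor (decide (z ∈ T)) = true := by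
            intro A
            refine Finset.filter_congr fun z hz => ?_
            unfold xr ow
            rw [if_pos hz]
          refine le_trans (measureReal_mono ?_ (measure_ne_top _ _))
            (hk3 (U.filter fun z => (decide (z ∈ T0)).xor (decide (z ∈ T)) = true))
          intro A hA
          change ow U T0 A ∈ nb g S (ErT (pat (ow U T0 A) T)) at hA
          rw [hpc] at hA
          refine (depOn_nb (hErT' _) (ow U T0 A) A fun x hx => ?_).1 hA
          unfold ow
          rw [if_neg (Finset.mem_sdiff.1 hx).2]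
        refine (Finset.sum_le_sum hterm2).trans ?_
        rw [← Finset.sum_mul, mu_sum_cyl hbl hind hUbl, one_mul]
      refine (Finset.sum_le_card_nsmul _ _ e0 hterm).trans ?_
      rw [nsmul_eq_mul]
      have h7 : (((U.powerset.filter fun T => T.card ≤ g).card : ℕ) : ℝ) ≤
          (((g + 1) * m * (W * b) + 1 : ℕ) : ℝ) ^ g := by
        have h8 : (U.powerset.filter fun T => T.card ≤ g).card ≤
            ((g + 1) * m * (W * b) + 1) ^ g := by
          refine (card_small U g).trans (Nat.pow_le_pow_left ?_ _)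
          refine Nat.succ_le_succ (hUc.trans (Nat.mul_le_mul_left _ (Nat.mul_le_mul_right _ hw)))
        exact_mod_cast h8
      refine (mul_le_mul_of_nonneg_right h7 hb0).trans (le_of_eq ?_)
      rw [he0, ← mul_assoc, ← pow_add]
      congr 2
      ring

end Tree

end Pool.Agent.H20NC
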