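import Pool.Agent.H20NC.CTree

/-!
# An oracle which hides the values of another oracle in parities of random bits
-/

set_option autoImplicit false

namespace Pool.Agent.H20NC

open MeasureTheory Pool.Agent.NPC Pool.Agent.H620R2.Gauge Pool.Agent.Y626.WR
open Pool.Agent.H20RD (DepOn rnd w rnd_inter coin_real Orc)
open Pool.Agent.Y626.WC (DT)
open Pool.Agent.H20PW (cyl depOn_cyl ow_cyl depOn_ow resample sum_cyl rnd_pat)

/-- the `i`-th string of the copy number `r` of the cell for the string `u` -/
def cl (u r : List Bool) (i : ℕ) : List Bool :=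
  true :: (u ++ (r ++ (List.replicate i true ++ List.replicate (u.length - i) false)))

theorem length_cl {u r : List Bool} {i : ℕ} (hi : i ≤ u.length) :
    (cl u r i).length = 1 + 2 * u.length + r.length := by
  unfold cl
  simp only [List.length_cons, List.length_append, List.length_replicate]
  omega

theorem cl_inj {u r u' r' : List Bool} {i i' : ℕ} (hr : r.length = u.length)
    (hr' : r'.length = u'.length) (hi : i ≤ u.length) (hi' : i' ≤ u'.length)
    (h : cl u r i = cl u' r' i') : u = u' ∧ r = r' ∧ i = i' := by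
  have h1 := congrArg List.length h
  rw [length_cl hi, length_cl hi'] at h1
  have hl : u.length = u'.length := by omega
  unfold cl at h
  rw [List.cons.injEq] at h
  obtain ⟨h2, h3⟩ := List.append_inj h.2 hl
  obtain ⟨h4, h5⟩ := List.append_inj h3 (by omega)
  exact ⟨h2, h4, Pool.Agent.H20RD.rep_inj h5⟩

/-- `x` is a string of the copy number `r` of the cell for the string `u` -/
def Ce (p : List Bool × List Bool) (x : List Bool) : Prop :=
  p.2.length = p.1.length ∧ ∃ i ≤ p.1.length, x = cl p.1 p.2 i

theorem Ce.uniq {p p' : List Bool × List Bool} {x : List Bool} (h : Ce p x) (h' : Ce p' x) :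
    p = p' := by
  obtain ⟨h1, i, h2, h3⟩ := h
  obtain ⟨h1', i', h2', h3'⟩ := h'
  obtain ⟨h4, h5, _⟩ := cl_inj h1 h1' h2 h2' (h3.symm.trans h3')
  exact Prod.ext h4 h5

theorem Ce.len {p : List Bool × List Bool} {x : List Bool} (h : Ce p x) :
    x.length = 1 + 3 * p.1.length := by
  obtain ⟨h1, i, h2, rfl⟩ := h
  rw [length_cl h2]
  omega

/-- the strings of a copy -/
def cell (p : List Bool × List Bool) : Finset (List Bool) :=
  (Finset.range (p.1.length + 1)).image (cl p.1 p.2)

theorem mem_cell {p : List Bool × List Bool} (hp : p.2.length = p.1.length) {x : List Bool} :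
    x ∈ cell p ↔ Ce p x := by
  unfold cell Ce
  rw [Finset.mem_image]
  constructor
  · rintro ⟨i, hi, rfl⟩
    rw [Finset.mem_range] at hi
    exact ⟨hp, i, by omega, rfl⟩
  · rintro ⟨_, i, hi, rfl⟩
    exact ⟨i, Finset.mem_range.2 (by omega), rfl⟩

open Classical in
/-- the block of a string -/
noncomputable def bl (x : List Bool) : Finset (List Bool) :=
  if h : ∃ p, Ce p x then cell h.choose else {x}

theorem bl_of_ce {p : List Bool × List Bool} {x : List Bool} (h : Ce p x) : bl x = cell p := by
  unfold bl
  rw [dif_pos ⟨p, h⟩]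
  congr 1
  exact (Exists.choose_spec (⟨p, h⟩ : ∃ p, Ce p x)).uniq h

theorem bl_of_not {x : List Bool} (h : ¬ ∃ p, Ce p x) : bl x = {x} := by
  unfold bl
  rw [dif_neg h]

theorem blks : Blks bl := by
  constructor
  · intro x
    by_cases h : ∃ p, Ce p x
    · obtain ⟨p, hp⟩ := h
      rw [bl_of_ce hp, mem_cell hp.1]
      exact hp
    · rw [bl_of_not h, Finset.mem_singleton]
  · intro x y hy
    by_cases h : ∃ p, Ce p x
    · obtain ⟨p, hp⟩ := h
      rw [bl_of_ce hp, mem_cell hp.1] at hy
      rw [bl_of_ce hp, bl_of_ce hy]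
    · rw [bl_of_not h, Finset.mem_singleton] at hy
      rw [hy]

theorem bl_length {x y : List Bool} (h : y ∈ bl x) : y.length = x.length := by
  by_cases hx : ∃ p, Ce p x
  · obtain ⟨p, hp⟩ := hx
    rw [bl_of_ce hp, mem_cell hp.1] at h
    rw [h.len, hp.len]
  · rw [bl_of_not hx, Finset.mem_singleton] at h
    rw [h]

theorem bl_card (x : List Bool) : (bl x).card ≤ x.length + 1 := by
  by_cases hx : ∃ p, Ce p x
  · obtain ⟨p, hp⟩ := hx
    rw [bl_of_ce hp]
    refine Finset.card_image_le.trans ?_
    rw [Finset.card_range, hp.len]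
    omega
  · rw [bl_of_not hx, Finset.card_singleton]
    omega

/-- the parity of the first `n` bits -/
def pr (f : ℕ → Bool) : ℕ → Bool
  | 0 => false
  | n + 1 => (f n).xor (pr f n)

theorem pr_congr {f g : ℕ → Bool} {n : ℕ} (h : ∀ i < n, f i = g i) : pr f n = pr g n := by
  induction n with
  | zero => rfl
  | succ n ih =>
    unfold pr
    rw [h n (Nat.lt_succ_self n), ih fun i hi => h i (by omega)]

theorem pr_flip {f g : ℕ → Bool} {n j : ℕ} (hj : j < n) (h1 : f j = !g j)
    (h : ∀ i < n, i ≠ j → f i = g i) : pr f n = !pr g n := by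
  induction n with
  | zero => omega
  | succ n ih =>
    unfold pr
    by_cases hjn : j = n
    · subst hjn
      rw [h1, pr_congr fun i hi => h i (by omega) (by omega)]
      cases g j <;> cases pr g j <;> rfl
    · rw [h n (Nat.lt_succ_self n) (fun h => hjn h.symm),
        ih (by omega) fun i hi hij => h i (by omega) hij]
      cases g n <;> cases pr g n <;> rfl

open Classical in
/-- the oracle: the random bits of `A`, with the last string of every copy changed so that the
parity of the cell is the value of `I` -/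
noncomputable def Ph (I : Orc) (A : Orc) : Orc := fun x =>
  if h : ∃ p : List Bool × List Bool, p.2.length = p.1.length ∧ x = cl p.1 p.2 p.1.length then
    (I h.choose.1).xor (pr (fun i => A (cl h.choose.1 h.choose.2 i)) h.choose.1.length)
  else A x

theorem ph_last (I A : Orc) {u r : List Bool} (hr : r.length = u.length) :
    Ph I A (cl u r u.length) = (I u).xor (pr (fun i => A (cl u r i)) u.length) := by
  have h : ∃ p : List Bool × List Bool, p.2.length = p.1.length ∧
      cl u r u.length = cl p.1 p.2 p.1.length := ⟨(u, r), hr, rfl⟩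
  unfold Ph
  rw [dif_pos h]
  obtain ⟨h1, h2⟩ := h.choose_spec
  obtain ⟨h3, h4, _⟩ := cl_inj hr h1 le_rfl le_rfl h2
  rw [← h3, ← h4]

theorem ph_other (I A : Orc) {x : List Bool}
    (h : ¬ ∃ p : List Bool × List Bool, p.2.length = p.1.length ∧ x = cl p.1 p.2 p.1.length) :
    Ph I A x = A x := by
  unfold Ph
  rw [dif_neg h]

theorem ph_low (I A : Orc) {u r : List Bool} (hr : r.length = u.length) {i : ℕ}
    (hi : i < u.length) : Ph I A (cl u r i) = A (cl u r i) := by
  refine ph_other I A ?_
  rintro ⟨p, h1, h2⟩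
  obtain ⟨h3, _, h5⟩ := cl_inj hr h1 hi.le le_rfl h2
  rw [← h3] at h5
  omega

/-- **The hidden value.** -/
theorem pr_ph (I A : Orc) {u r : List Bool} (hr : r.length = u.length) :
    pr (fun i => Ph I A (cl u r i)) (u.length + 1) = I u := by
  unfold pr
  rw [ph_last I A hr, pr_congr fun i hi => ph_low I A hr hi]
  cases I u <;> cases pr (fun i => A (cl u r i)) u.length <;> rfl

theorem ph_loc {I I' A A' : Orc} {x : List Bool} (h : ∀ y ∈ bl x, A y = A' y)
    (hI : ∀ u : List Bool, 1 + 3 * u.length = x.length → I u = I' u) : Ph I A x = Ph I' A' x := by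
  by_cases hx : ∃ p : List Bool × List Bool, p.2.length = p.1.length ∧
      x = cl p.1 p.2 p.1.length
  · obtain ⟨⟨u, r⟩, h1, rfl⟩ := hx
    dsimp only at h1 h hI ⊢
    have hce : Ce (u, r) (cl u r u.length) := ⟨h1, u.length, le_rfl, rfl⟩
    rw [bl_of_ce hce] at h
    rw [ph_last I A h1, ph_last I' A' h1, hI u hce.len.symm]
    congr 1
    refine pr_congr fun i hi => h _ ?_
    rw [mem_cell h1]
    exact ⟨h1, i, hi.le, rfl⟩
  · rw [ph_other I A hx, ph_other I' A' hx]
    exact h x (blks.self x)

theorem depOn_ph (I : Orc) {T : Finset (List Bool)} {G : Set Orc} (hG : DepOn T G) :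
    DepOn (T.biUnion bl) {A | Ph I A ∈ G} := by
  intro A A' h
  refine hG _ _ fun x hx => ?_
  exact ph_loc (fun y hy => h y (Finset.mem_biUnion.2 ⟨x, hx, hy⟩)) fun _ _ => rfl

/-! ### The distribution -/

/-- fair coins -/
noncomputable def hf : List Bool → unitInterval := fun _ => ⟨1 / 2, by norm_num, by norm_num⟩

theorem w_hf (β : Bool) (x : List Bool) : w β (hf x) = 1 / 2 := by
  unfold w hf
  cases β <;> norm_num

theorem meas_ph (I : Orc) : Measurable (Ph I) := by
  rw [measurable_pi_iff]
  intro x
  refine measurable_to_countable' fun b => ?_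
  have h : DepOn {x} {A : Orc | A x = b} := by
    intro A A' h
    change A x = b ↔ A' x = b
    rw [h x (Finset.mem_singleton_self x)]
  exact (depOn_ph I h).measurable

/-- the distribution of the oracle -/
noncomputable def mu (I : Orc) : Measure Orc := (rnd hf).map (Ph I)

instance (I : Orc) : IsProbabilityMeasure (mu I) :=
  Measure.isProbabilityMeasure_map (meas_ph I).aemeasurable

theorem mu_real (I : Orc) {T : Finset (List Bool)} {G : Set Orc} (hG : DepOn T G) :
    (mu I).real G = (rnd hf).real {A | Ph I A ∈ G} := by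
  unfold mu Measure.real
  rw [Measure.map_apply (meas_ph I) hG.measurable]
  rfl

theorem indep_mu (I : Orc) : Indep (mu I) bl := by
  intro T T' G H hG hH hd
  have h1 : DepOn (T ∪ T') (G ∩ H) := by
    intro A A' h
    exact and_congr (hG A A' fun x hx => h x (Finset.mem_union_left _ hx))
      (hH A A' fun x hx => h x (Finset.mem_union_right _ hx))
  rw [mu_real I h1, mu_real I hG, mu_real I hH]
  exact rnd_inter hf (depOn_ph I hG) (depOn_ph I hH) hd

/-- flipping one fair coin -/
theorem flip_half {z : List Bool} {K : Finset (List Bool)} {G : Set Orc} (hG : DepOn K G)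
    (hGz : ∀ A A' : Orc, (∀ y, y ≠ z → A y = A' y) → (A ∈ G ↔ A' ∈ G))
    {v : Orc → Bool} (hv : DepOn K {A | v A = true})
    (hvz : ∀ A A' : Orc, (∀ y, y ≠ z → A y = A' y) → A z = !A' z → v A = !v A') (β : Bool) :
    (rnd hf).real {A | A ∈ G ∧ v A = β} = 1 / 2 * (rnd hf).real G := by
  classical
  have hv' : ∀ β, DepOn K {A | v A = β} := by
    intro β
    cases β with
    | true => exact hv
    | false =>
      intro A A' h
      have := hv A A' h
      change v A = true ↔ v A' = true at this
      change v A = false ↔ v A' = false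
      revert this
      cases v A <;> cases v A' <;> simp
  have hX : ∀ β, DepOn K {A | A ∈ G ∧ v A = β} := fun β A A' h =>
    and_congr (hG A A' h) (hv' β A A' h)
  have hcyl : ∀ T : Finset (List Bool), T ⊆ {z} → (rnd hf).real (cyl {z} T) = 1 / 2 := by
    intro T hT
    have e : cyl {z} T = {A : Orc | ∀ x ∈ ({z} : Finset (List Bool)), A x = decide (z ∈ T)} := by
      ext A
      unfold cyl
      simp only [Set.mem_ofPred_eq, Finset.mem_singleton, forall_eq]
      rcases Finset.subset_singleton_iff.1 hT with rfl | rfl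
      · rw [Finset.filter_eq_empty_iff]
        simp
      · rw [Finset.filter_eq_self]
        simp
    rw [e, rnd_pat hf (fun _ => decide (z ∈ T)) {z}, Finset.prod_singleton, w_hf]
  have hsum : ∀ β, (rnd hf).real {A | A ∈ G ∧ v A = β} =
      1 / 2 * ((rnd hf).real {A | ow {z} ∅ A ∈ {A | A ∈ G ∧ v A = β}} +
        (rnd hf).real {A | ow {z} {z} A ∈ {A | A ∈ G ∧ v A = β}}) := by
    intro β
    rw [resample hf (hX β) {z}]
    have hp : ({z} : Finset (List Bool)).powerset = {∅, {z}} := by
      ext T
      rw [Finset.mem_powerset, Finset.subset_singleton_iff, Finset.mem_insert,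
        Finset.mem_singleton]
    rw [hp, Finset.sum_pair (by simp), hcyl ∅ (by simp), hcyl {z} (by simp)]
    ring
  have hGo : ∀ (T : Finset (List Bool)) (A : Orc), ow {z} T A ∈ G ↔ A ∈ G := by
    intro T A
    refine hGz _ _ fun y hy => ?_
    unfold ow
    rw [if_neg (by simpa using hy)]
  have hvo : ∀ A : Orc, v (ow {z} ∅ A) = !v (ow {z} {z} A) := by
    intro A
    refine hvz _ _ (fun y hy => ?_) ?_
    · unfold ow
      rw [if_neg (by simpa using hy), if_neg (by simpa using hy)]
    · unfold ow
      simp
  -- the two halves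
  have hmeas1 : MeasurableSet {A : Orc | ow {z} {z} A ∈ {A | v A = β}} :=
    (depOn_ow (hv' β)).measurable
  have e1 : {A | ow {z} {z} A ∈ {A | A ∈ G ∧ v A = β}} =
      G ∩ {A : Orc | ow {z} {z} A ∈ {A | v A = β}} := by
    ext A
    change (ow {z} {z} A ∈ G ∧ v (ow {z} {z} A) = β) ↔ A ∈ G ∧ v (ow {z} {z} A) = β
    rw [hGo]
  have e2 : {A | ow {z} ∅ A ∈ {A | A ∈ G ∧ v A = β}} =
      G \ {A : Orc | ow {z} {z} A ∈ {A | v A = β}} := by
    ext A
    change (ow {z} ∅ A ∈ G ∧ v (ow {z} ∅ A) = β) ↔ A ∈ G ∧ ¬ v (ow {z} {z} A) = β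
    rw [hGo, hvo]
    cases v (ow {z} {z} A) <;> cases β <;> simp
  rw [hsum β, e1, e2, add_comm, measureReal_inter_add_sdiff hmeas1]

theorem pat_rnd (I : Orc) (A0 : Orc) : ∀ (n : ℕ) (D : Finset (List Bool)),
    (∀ p : List Bool × List Bool, p.2.length = p.1.length → ¬ cell p ⊆ D) →
    {x | x ∈ D ∧ ∃ p : List Bool × List Bool, p.2.length = p.1.length ∧
      x = cl p.1 p.2 p.1.length}.ncard = n →
    (1 / 2 : ℝ) ^ D.card ≤ (rnd hf).real {A | ∀ x ∈ D, Ph I A x = A0 x} := by
  classical
  intro n
  induction n with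
  | zero =>
    intro D _ hn
    have hfin : {x | x ∈ D ∧ ∃ p : List Bool × List Bool, p.2.length = p.1.length ∧
      x = cl p.1 p.2 p.1.length}.Finite := (Finset.finite_toSet D).subset fun x hx => hx.1
    rw [Set.ncard_eq_zero hfin] at hn
    have e : {A | ∀ x ∈ D, Ph I A x = A0 x} = {A : Orc | ∀ x ∈ D, A x = A0 x} := by
      ext A
      refine forall₂_congr fun x hx => ?_
      rw [ph_other I A]
      intro hp
      have : x ∈ (∅ : Set (List Bool)) := hn ▸ ⟨hx, hp⟩
      exact this
    rw [e, rnd_pat]
    rw [Finset.prod_congr rfl fun x _ => w_hf (A0 x) x, Finset.prod_const]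
  | succ n ih =>
    intro D hD hn
    have hfin : {x | x ∈ D ∧ ∃ p : List Bool × List Bool, p.2.length = p.1.length ∧
      x = cl p.1 p.2 p.1.length}.Finite := (Finset.finite_toSet D).subset fun x hx => hx.1
    obtain ⟨x0, hx0⟩ : {x | x ∈ D ∧ ∃ p : List Bool × List Bool, p.2.length = p.1.length ∧
        x = cl p.1 p.2 p.1.length}.Nonempty := by
      rw [Set.nonempty_iff_ne_empty]
      intro h
      rw [h, Set.ncard_empty] at hn
      omega
    have hn' : {x | x ∈ D.erase x0 ∧ ∃ p : List Bool × List Bool, p.2.length = p.1.length ∧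
        x = cl p.1 p.2 p.1.length}.ncard = n := by
      have e : {x | x ∈ D.erase x0 ∧ ∃ p : List Bool × List Bool, p.2.length = p.1.length ∧
          x = cl p.1 p.2 p.1.length} = {x | x ∈ D ∧ ∃ p : List Bool × List Bool,
          p.2.length = p.1.length ∧ x = cl p.1 p.2 p.1.length} \ {x0} := by
        ext x
        simp only [Finset.mem_erase, Set.mem_ofPred_eq, Set.mem_sdiff, Set.mem_singleton_iff]
        tauto
      rw [e, Set.ncard_sdiff_singleton_of_mem hx0, hn]
      rfl
    obtain ⟨hx0D, ⟨u, r⟩, hur, hx0e⟩ := hx0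
    dsimp only at hur hx0e
    subst hx0e
    -- a string of the copy which is not in `D`
    obtain ⟨i, hi, hiD⟩ : ∃ i ≤ u.length, cl u r i ∉ D := by
      by_contra hc
      push Not at hc
      apply hD (u, r) hur
      intro x hx
      rw [mem_cell hur] at hx
      obtain ⟨_, i, hi, rfl⟩ := hx
      exact hc i hi
    have hil : i < u.length := by
      refine lt_of_le_of_ne hi fun h => ?_
      rw [h] at hiD
      exact hiD hx0D
    have hcn : ∀ j ≤ u.length, j ≠ i → cl u r j ≠ cl u r i := by
      intro j hj hji h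
      exact hji (cl_inj hur hur hj hi h).2.2
    have h1 := ih (D.erase (cl u r u.length))
      (fun p hp h => hD p hp (h.trans (Finset.erase_subset _ _))) hn'
    have h2 := flip_half (z := cl u r i)
      (K := (D ∪ {cl u r u.length}).biUnion bl)
      (G := {A | ∀ x ∈ D.erase (cl u r u.length), Ph I A x = A0 x})
      (fun A A' h => by
        refine forall₂_congr fun x hx => ?_
        have e : Ph I A x = Ph I A' x := ph_loc (fun y hy => h y (Finset.mem_biUnion.2
          ⟨x, Finset.mem_union_left _ (Finset.mem_of_mem_erase hx), hy⟩)) fun _ _ => rfl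
        rw [e])
      (fun A A' h => by
        refine forall₂_congr fun x hx => ?_
        have hxD := Finset.mem_of_mem_erase hx
        have hxne := Finset.ne_of_mem_erase hx
        have e : Ph I A x = Ph I A' x := by
          by_cases hxl : ∃ p : List Bool × List Bool, p.2.length = p.1.length ∧
              x = cl p.1 p.2 p.1.length
          · obtain ⟨⟨u', r'⟩, hp, rfl⟩ := hxl
            dsimp only at hp hxne ⊢
            rw [ph_last I A hp, ph_last I A' hp]
            congr 1
            refine pr_congr fun j hj => h _ fun hc => ?_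
            obtain ⟨h3, h4, _⟩ := cl_inj hp hur hj.le hi hc
            apply hxne
            rw [h3, h4]
          · rw [ph_other I A hxl, ph_other I A' hxl]
            exact h x fun hc => hiD (hc ▸ hxD)
        rw [e])
      (v := fun A => Ph I A (cl u r u.length))
      (fun A A' h => by
        have e : Ph I A (cl u r u.length) = Ph I A' (cl u r u.length) :=
          ph_loc (fun y hy => h y (Finset.mem_biUnion.2
            ⟨_, Finset.mem_union_right _ (Finset.mem_singleton_self _), hy⟩)) fun _ _ => rfl
        change Ph I A (cl u r u.length) = true ↔ Ph I A' (cl u r u.length) = true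
        rw [e])
      (fun A A' h h' => by
        rw [ph_last I A hur, ph_last I A' hur,
          pr_flip (f := fun j => A (cl u r j)) (g := fun j => A' (cl u r j)) hil h'
            fun j hj hji => h _ (hcn j hj.le hji)]
        cases I u <;> cases pr (fun j => A' (cl u r j)) u.length <;> rfl)
      (A0 (cl u r u.length))
    have e : {A | ∀ x ∈ D, Ph I A x = A0 x} =
        {A | A ∈ {A | ∀ x ∈ D.erase (cl u r u.length), Ph I A x = A0 x} ∧
          Ph I A (cl u r u.length) = A0 (cl u r u.length)} := by
      ext A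
      constructor
      · intro h
        exact ⟨fun x hx => h x (Finset.mem_of_mem_erase hx), h _ hx0D⟩
      · rintro ⟨h3, h4⟩ x hx
        by_cases hxe : x = cl u r u.length
        · rw [hxe]
          exact h4
        · exact h3 x (Finset.mem_erase.2 ⟨hxe, hx⟩)
    rw [e, h2]
    have hcard : D.card = (D.erase (cl u r u.length)).card + 1 :=
      (Finset.card_erase_add_one hx0D).symm
    rw [hcard, pow_succ]
    linarith

/-- **Few bits are independent fair coins.** -/
theorem pat_mu (I : Orc) {W : ℕ} {D : Finset (List Bool)} (hD : ∀ x ∈ D, 3 * W + 1 < x.length)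
    (hc : D.card ≤ W) (A0 : Orc) : (1 / 2 : ℝ) ^ D.card ≤ (mu I).real {A | ∀ x ∈ D, A x = A0 x} := by
  have hdep : DepOn D {A : Orc | ∀ x ∈ D, A x = A0 x} := by
    intro A A' h
    refine forall₂_congr fun x hx => ?_
    rw [h x hx]
  rw [mu_real I hdep]
  refine pat_rnd I A0 _ D (fun p hp hsub => ?_) rfl
  have h1 : cl p.1 p.2 0 ∈ cell p := by
    rw [mem_cell hp]
    exact ⟨hp, 0, Nat.zero_le _, rfl⟩
  have h2 := hD _ (hsub h1)
  rw [length_cl (Nat.zero_le _), hp] at h2
  have h3 := Finset.card_le_card hsub
  have h4 : (cell p).card = p.1.length + 1 := by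
    unfold cell
    rw [Finset.card_image_of_injOn, Finset.card_range]
    intro i hi j hj h
    rw [Finset.mem_coe, Finset.mem_range] at hi hj
    exact (cl_inj hp hp (by omega) (by omega) h).2.2
  omega

end Pool.Agent.H20NC
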