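import Pool.Agent.H20NC.Plant
import Mathlib.Analysis.SpecialFunctions.Pow.Real
import Mathlib.Analysis.PSeries
import Mathlib.MeasureTheory.OuterMeasure.BorelCantelli

/-!
# Random oracles which are almost constant at infinitely many lengths
-/

set_option autoImplicit false

namespace Pool.Agent.H20NC

open Filter MeasureTheory Pool.Agent.NPC Pool.Agent.H620R2.Gauge Pool.Agent.Y626.WG
open Pool.Agent.H20PW (kf tI ins_isW ins_param prm)
open Pool.Agent.TH678.GC (join)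
open Pool.Agent.Y581.WN (Badm InM1n)
open Pool.Agent.H20RD (cs cellC hitC hitC_eq length_cs Keeps disjoint_cellC depOn_hitC DepOn strs
  mem_strs card_strs card_cellC short mem_short w w_nonneg rnd rnd_hitC)
open Pool.Agent.W900.CH (Close finite_short)
open scoped ENNReal

theorem ae_no_hit (β : Bool) (p : ℕ → unitInterval) {δ : ℝ} (hδ : 0 < δ) (K : ℕ) :
    ∃ κ : ℕ, ∀ᵐ A ∂(rnd fun x => p x.length), ∀ᶠ n : ℕ in atTop,
      w β (p n) ≤ (n : ℝ) ^ (-δ) → ∀ z : List Bool, z.length = K * (Nat.log 2 n + 1) →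
        A ∉ hitC β (n - κ - K * (Nat.log 2 n + 1)) κ z := by
  classical
  obtain ⟨κ, hκ⟩ := exists_nat_ge ((K + 2 : ℝ) / δ)
  have hκ' : (K + 2 : ℝ) ≤ δ * (κ + 1) := by
    rw [div_le_iff₀ hδ] at hκ
    nlinarith
  refine ⟨κ, ?_⟩
  obtain ⟨n₀, hn₀⟩ := eventually_atTop.1 ((log_le K κ).and (eventually_ge_atTop 1))
  set S : ℕ → Set (List Bool → Bool) := fun n => if n₀ ≤ n ∧ w β (p n) ≤ (n : ℝ) ^ (-δ) then
    ⋃ z ∈ strs (K * (Nat.log 2 n + 1)), hitC β (n - κ - K * (Nat.log 2 n + 1)) κ z else ∅ with hS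
  have hb : ∀ n, (rnd fun x => p x.length) (S n) ≤
      ENNReal.ofReal (2 ^ K * (1 / ((n : ℝ) ^ 2))) := by
    intro n
    rw [hS]
    dsimp only
    split_ifs with h
    · obtain ⟨h1, h2⟩ := hn₀ n h.1
      have hn1 : (1 : ℝ) ≤ n := by exact_mod_cast h2
      have hn0 : (0 : ℝ) < n := by linarith
      rw [← ENNReal.ofReal_toReal (measure_ne_top (rnd fun x => p x.length) _)]
      refine ENNReal.ofReal_le_ofReal ?_
      change (rnd fun x => p x.length).real _ ≤ _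
      refine (measureReal_biUnion_finset_le _ _).trans ?_
      have e1 : ∀ z ∈ strs (K * (Nat.log 2 n + 1)), (rnd fun x => p x.length).real
          (hitC β (n - κ - K * (Nat.log 2 n + 1)) κ z) = w β (p n) ^ (κ + 1) := by
        intro z hz
        refine rnd_hitC p β _ _ z ?_
        rw [mem_strs.1 hz]
        omega
      rw [Finset.sum_congr rfl e1, Finset.sum_const, card_strs, nsmul_eq_mul]
      have e2 : w β (p n) ^ (κ + 1) ≤ ((n : ℝ) ^ (-δ)) ^ (κ + 1) :=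
        pow_le_pow_left₀ (w_nonneg _ _) h.2 _
      have e3 : ((n : ℝ) ^ (-δ)) ^ (κ + 1) = (n : ℝ) ^ (-δ * (κ + 1)) := by
        rw [Real.rpow_mul hn0.le]
        have : ((κ : ℝ) + 1) = ((κ + 1 : ℕ) : ℝ) := by push_cast; ring
        rw [this, Real.rpow_natCast]
      have e4 : (n : ℝ) ^ (-δ * (κ + 1)) ≤ (n : ℝ) ^ (-((K : ℝ) + 2)) :=
        Real.rpow_le_rpow_of_exponent_le hn1 (by linarith)
      have e5 : (n : ℝ) ^ (-((K : ℝ) + 2)) = 1 / ((n : ℝ) ^ K * (n : ℝ) ^ 2) := by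
        rw [Real.rpow_neg hn0.le]
        have : ((K : ℝ) + 2) = ((K + 2 : ℕ) : ℝ) := by push_cast; ring
        rw [this, Real.rpow_natCast, pow_add, one_div]
      have e6 : ((2 ^ (K * (Nat.log 2 n + 1)) : ℕ) : ℝ) ≤ 2 ^ K * (n : ℝ) ^ K := by
        have h3 : 2 ^ (Nat.log 2 n + 1) ≤ 2 * n := Pool.Agent.Y581.WN.pow_log_le h2
        have h4 : 2 ^ (K * (Nat.log 2 n + 1)) ≤ 2 ^ K * n ^ K := by
          rw [mul_comm K, pow_mul, ← mul_pow]
          exact Nat.pow_le_pow_left h3 _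
        exact_mod_cast h4
      have e7 : w β (p n) ^ (κ + 1) ≤ 1 / ((n : ℝ) ^ K * (n : ℝ) ^ 2) := by
        rw [← e5]
        exact e2.trans (e3.le.trans e4)
      calc ((2 ^ (K * (Nat.log 2 n + 1)) : ℕ) : ℝ) * w β (p n) ^ (κ + 1)
          ≤ (2 ^ K * (n : ℝ) ^ K) * (1 / ((n : ℝ) ^ K * (n : ℝ) ^ 2)) :=
            mul_le_mul e6 e7 (pow_nonneg (w_nonneg _ _) _) (by positivity)
        _ = 2 ^ K * (1 / ((n : ℝ) ^ 2)) := by
            have : (n : ℝ) ^ K ≠ 0 := (pow_pos hn0 K).ne'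
            field_simp
    · rw [measure_empty]
      exact zero_le
  have hsum : Summable fun n : ℕ => (2 : ℝ) ^ K * (1 / ((n : ℝ) ^ 2)) :=
    (Real.summable_one_div_nat_pow.2 (by norm_num : 1 < 2)).mul_left _
  have hfin : ∑' n, (rnd fun x => p x.length) (S n) ≠ ∞ :=
    ne_top_of_le_ne_top hsum.tsum_ofReal_ne_top (ENNReal.tsum_le_tsum hb)
  filter_upwards [ae_eventually_notMem hfin] with A hA
  filter_upwards [hA, eventually_ge_atTop n₀] with n hn hn1 hw z hz hh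
  apply hn
  rw [hS]
  dsimp only
  rw [if_pos ⟨hn1, hw⟩]
  exact Set.mem_iUnion₂.2 ⟨z, mem_strs.2 hz, hh⟩

theorem near_sparse (p : ℕ → unitInterval) {δ : ℝ} (hδ : 0 < δ)
    (h : ∃ᶠ n : ℕ in atTop, min (p n : ℝ) (1 - p n) ≤ (n : ℝ) ^ (-δ)) (E : Oracle) :
    ∀ᵐ A ∂(rnd fun x => p x.length), ∀ g : ℕ → ℝ, Tendsto g atTop atTop →
      ∃ A' : Oracle, Close g A A' ∧
      ¬ InM1n (join A' E) (fun I : WInst 1 => I.1.param) (fun I => I.1.Sat (join A' E)) := by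
  classical
  obtain ⟨β, hβ⟩ : ∃ β, ∃ᶠ n : ℕ in atTop, w β (p n) ≤ (n : ℝ) ^ (-δ) := by
    have h1 : ∃ᶠ n : ℕ in atTop, w true (p n) ≤ (n : ℝ) ^ (-δ) ∨
        w false (p n) ≤ (n : ℝ) ^ (-δ) := by
      refine h.mono fun n hn => ?_
      rcases min_le_iff.1 hn with h2 | h2
      · exact Or.inl h2
      · exact Or.inr h2
    rcases frequently_or_distrib.1 h1 with h2 | h2
    · exact ⟨true, h2⟩
    · exact ⟨false, h2⟩
  choose κ hκ using fun K : ℕ => ae_no_hit β p hδ K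
  filter_upwards [ae_all_iff.2 hκ] with A hA g hg
  obtain ⟨e, he⟩ := exists_enum
  obtain ⟨A', h1, h2⟩ := stages2 (g := g) A (fun k => Task E (fun M => κ (kf M)) (e k)) (by
    intro k N T
    obtain ⟨M, N', q, σ, H, c⟩ := e k
    have hg' : ∀ᶠ n : ℕ in atTop, ∀ m ≥ n, ((T + (κ (kf M) + 1) : ℕ) : ℝ) ≤ g m :=
      eventually_forall_ge_atTop.2 (hg.eventually_ge_atTop _)
    obtain ⟨n, hw, hgn, hpl, hlg, hno, hNn⟩ := (hβ.and_eventually
      (hg'.and ((plant M N' q σ H c E β (κ (kf M))).and ((log_le (kf M) (κ (kf M))).and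
        ((hA (kf M)).and (eventually_ge_atTop N)))))).exists
    set ν := Nat.log 2 n + 1 with hν
    obtain ⟨b, hb⟩ := loc_tI M N' q σ H c E β (κ (kf M)) ν (n - κ (kf M) - kf M * ν)
    refine ⟨n, κ (kf M) + 1, max (n + 1) (b + 1), hNn, hgn, fun B hB => ?_⟩
    obtain ⟨B', h3, h4, h5⟩ := hpl (n - κ (kf M) - kf M * ν) ν (by omega) rfl B (by
      intro z hz hh
      refine hno hw z hz fun i hi => ?_
      rw [← hh i hi]
      refine (hB _ ?_).symm
      rw [length_cs hi, hz]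
      omega)
    refine ⟨B', fun y hy => ?_, h4, fun B'' hB'' => ?_⟩
    · rw [h3 y hy]
      exact ⟨le_rfl, lt_of_lt_of_le (Nat.lt_succ_self n) (le_max_left _ _)⟩
    · refine ⟨_, ins_isW _ _ _ _ _ _, ins_param _ _ _ _ _ _, hb B' B'' (fun y hy => ?_) h5⟩
      exact (hB'' y (lt_of_lt_of_le (Nat.lt_succ_of_le hy) (le_max_right _ _))).symm)
  refine ⟨A', h1, not_inM1n (κ := fun M => κ (kf M)) fun e' => ?_⟩
  obtain ⟨k, rfl⟩ := he e'
  exact h2 k

end Pool.Agent.H20NC
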