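import Pool.Agent.H20NC.Near0
import Pool.Agent.H20NC.CMain
import Pool.Agent.H20NC.Sparse
import Pool.Agent.H20PW.All
import Pool.Agent.N760.MC.Fin

/-!
# The exact numbers of changes
-/

set_option autoImplicit false

namespace Pool.Agent.H20NC

open Filter MeasureTheory Pool.Agent.NPC Pool.Agent.H620R2.Gauge Pool.Agent.TH678.GC
  Pool.Agent.Y626.WG
open Pool.Agent.Y626.WC (InFPT inW_of_inFPT)
open Pool.Agent.Y626.WX (InM1)
open Pool.Agent.Y581.WN (InM1n)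
open Pool.Agent.H20RD (rnd)
open Pool.Agent.H20PW (InFPTn inM1n_of_inFPTn)
open Pool.Agent.W900.CH (Close)
open Pool.Agent.W900.RB (Super pclose_of_not_super)

theorem close_pow {g : ℕ → ℝ} (hg : ¬ Super g) : ∃ c : ℕ, ∀ O A : Oracle,
    Close g O A → Close (fun n => (n : ℝ) ^ c) O A := by
  obtain ⟨c, hc⟩ := pclose_of_not_super hg
  refine ⟨c, fun O A h => ?_⟩
  filter_upwards [hc O A h] with n hn
  exact_mod_cast hn

theorem final :
    (∀ g : ℕ → ℝ, Super g → ∀ O : Oracle, ∃ A : Oracle, Close g O A ∧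
      InW 1 A (fun I : WInst 1 => I.1.param) (fun I => I.1.Sat A) ∧
      ¬ InM1n A (fun I : WInst 1 => I.1.param) (fun I => I.1.Sat A)) ∧
    (∃ O : Oracle, ∀ g : ℕ → ℝ, ¬ Super g → ∀ A : Oracle, Close g O A →
      ∀ (α : Type) [TEnc α] (κ : α → ℕ) (P : α → Prop),
        (InW 1 A κ P ↔ InFPT A κ P) ∧ (InW 1 A κ P → InM1 A κ P)) ∧
    (∀ p : ℕ → unitInterval,
      ((∃ δ : ℝ, 0 < δ ∧ ∃ᶠ n : ℕ in atTop, min (p n : ℝ) (1 - p n) ≤ (n : ℝ) ^ (-δ)) →
        ∀ E : Oracle, ∀ᵐ A ∂(rnd fun x => p x.length), ∀ g : ℕ → ℝ, Tendsto g atTop atTop →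
          ∃ A' : Oracle, Close g A A' ∧
            InW 1 (join A' E) (fun I : WInst 1 => I.1.param) (fun I => I.1.Sat (join A' E)) ∧
            ¬ InM1n (join A' E) (fun I : WInst 1 => I.1.param)
              (fun I => I.1.Sat (join A' E))) ∧
      ((∀ δ : ℝ, 0 < δ → ∀ᶠ n : ℕ in atTop, (n : ℝ) ^ (-δ) < min (p n : ℝ) (1 - p n)) →
        (∃ E : Oracle, ∀ᵐ A ∂(rnd fun x => p x.length), ∀ g : ℕ → ℝ, ¬ Super g →
          ∀ A' : Oracle, Close g A A' → ∀ (α : Type) [TEnc α] (κ : α → ℕ) (P : α → Prop),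
            InW 1 (join A' E) κ P → InFPTn (join A' E) κ P ∧ InM1n (join A' E) κ P) ∧
        ∀ (E A : Oracle) (g : ℕ → ℝ), Super g → ∃ A' : Oracle, Close g A A' ∧
          InW 1 (join A' E) (fun I : WInst 1 => I.1.param) (fun I => I.1.Sat (join A' E)) ∧
          ¬ InM1n (join A' E) (fun I : WInst 1 => I.1.param)
            (fun I => I.1.Sat (join A' E)))) := by
  refine ⟨fun g hg O => near_super0 hg O, ?_, fun p => ⟨?_, fun h => ⟨?_, ?_⟩⟩⟩
  · obtain ⟨O, hO⟩ := robust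
    refine ⟨O, fun g hg A hA α _ κ P => ?_⟩
    obtain ⟨c, hc⟩ := close_pow hg
    have h1 : InW 1 A κ P → InFPT A κ P := hO A c (hc O A hA) α κ P
    exact ⟨⟨h1, inW_of_inFPT⟩, fun h => Pool.Agent.N760.MC.inM1_of_inFPT (h1 h)⟩
  · rintro ⟨δ, hδ, h⟩ E
    filter_upwards [near_sparse p hδ h E] with A hA g hg
    obtain ⟨A', h1, h2⟩ := hA g hg
    exact ⟨A', h1, mc_inW 1 (join A' E), h2⟩
  · obtain ⟨E, hE⟩ := easy (p := p) h
    refine ⟨E, ?_⟩
    filter_upwards [hE] with A hA g hg A' hA' α _ κ P hP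
    obtain ⟨c, hc⟩ := close_pow hg
    have h1 := hA A' c (hc A A' hA') α κ P hP
    exact ⟨h1, inM1n_of_inFPTn h1⟩
  · intro E A g hg
    obtain ⟨A', h1, h2⟩ := near_super hg E A
    exact ⟨A', h1, mc_inW 1 (join A' E), h2⟩

end Pool.Agent.H20NC
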