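import Pool.Agent.H20NC.Plant

/-!
# Superpolynomially many changes of an arbitrary oracle
-/

set_option autoImplicit false

namespace Pool.Agent.H20NC

open Filter Pool.Agent.NPC Pool.Agent.H620R2.Gauge Pool.Agent.Y626.WG
open Pool.Agent.H20PW (kf ins ins_isW ins_param prm sat_ins few short_N sz_ins_le cpart loc_badm
  loc_ins)
open Pool.Agent.TH678.GC (pe pe_spec)
open Pool.Agent.Y581.WN (Badm InM1n)
open Pool.Agent.H20RD (strs mem_strs card_strs)
open Pool.Agent.W900.CH (Close finite_short)
open Pool.Agent.W900.RB (Super)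

/-- the test instance -/
def t0 (k ν j : ℕ) : Inst := ins k 1 ν true (List.replicate j false) (fun _ => [])

theorem sat_t0 (B : Oracle) (k ν j : ℕ) : (t0 k ν j).Sat B ↔
    ∃ z : List Bool, z.length = k * ν ∧ B (List.replicate j false ++ z) = true := by
  unfold t0
  rw [sat_ins]
  refine exists_congr fun z => and_congr_right fun _ => ?_
  constructor
  · intro h
    have := h 0 one_pos
    rwa [List.append_nil] at this
  · intro h i _
    rwa [List.append_nil]

theorem len_t0 {k ν j n : ℕ} (hn : 1 ≤ n) (hν : ν = Nat.log 2 n + 1) (hj : j ≤ n) :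
    (bits (t0 k ν j)).length ≤ (10 * (1 + 3) + (2 + 1) * (16 * 1 + 60) + 6 + cpart k 1) * n ^ 2 := by
  refine sz_ins_le hn ?_ ?_ ?_ ?_
  · rw [hν]
    have := Nat.pow_log_le_self 2 (x := n) (by omega)
    rw [pow_succ]
    omega
  · rw [hν]
    have := Nat.log_le_self 2 n
    omega
  · rw [List.length_replicate]
    omega
  · intro i _
    simp

theorem time_t0 (M : Alg) (σ : List Bool) (D : ℕ) : ∀ᶠ n : ℕ in atTop,
    ∀ ℓ : ℕ, ℓ ≤ 2 * σ.length + 1 + D * n ^ 2 →
      2 * M.p.eval ℓ < 2 ^ (kf M * (Nat.log 2 n + 1)) := by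
  set D' : ℕ := 2 * σ.length + 3 + D with hD
  filter_upwards [eventually_ge_atTop (2 * D' ^ pe M + 1)] with n hn ℓ hℓ
  have h1 : ℓ + 2 ≤ D' * n ^ 2 := by
    have h2 : 1 ≤ n ^ 2 := Nat.one_le_pow _ _ (by omega)
    rw [hD]
    nlinarith
  have h3 : M.p.eval ℓ ≤ D' ^ pe M * n ^ (2 * pe M) := by
    refine (pe_spec M ℓ).trans ((Nat.pow_le_pow_left h1 _).trans (le_of_eq ?_))
    rw [mul_pow, ← pow_mul]
  have h4 : n < 2 ^ (Nat.log 2 n + 1) := Nat.lt_pow_succ_log_self (by norm_num) n
  have h5 : 0 < n ^ (2 * pe M) := Nat.pow_pos (by omega)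
  calc 2 * M.p.eval ℓ ≤ 2 * (D' ^ pe M * n ^ (2 * pe M)) := Nat.mul_le_mul_left _ h3
    _ = (2 * D' ^ pe M) * n ^ (2 * pe M) := by ring
    _ < n * n ^ (2 * pe M) := Nat.mul_lt_mul_of_pos_right (by omega) h5
    _ = n ^ (kf M) := by unfold kf; rw [pow_succ, mul_comm]
    _ ≤ (2 ^ (Nat.log 2 n + 1)) ^ (kf M) := Nat.pow_le_pow_left h4.le _
    _ = _ := by rw [← pow_mul, mul_comm]

/-- **One error by few changes.** -/
theorem plant0 (M N : Alg) (q : Polynomial ℕ) (σ : List Bool) (H c : ℕ) :
    ∀ᶠ n : ℕ in atTop, ∀ j ν : ℕ, j + kf M * ν = n + 1 → ν = Nat.log 2 n + 1 →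
      ∀ B : Oracle, (∀ z : List Bool, z.length = kf M * ν →
        B (List.replicate j false ++ z) = false) →
      ∃ B' : Oracle, (∀ y : List Bool, B' y ≠ B y → y.length = n + 1) ∧
        {y | B y ≠ B' y}.ncard ≤ 1 ∧ Badm M N q σ H c (t0 (kf M) ν j) B' := by
  classical
  set D := 10 * (1 + 3) + (2 + 1) * (16 * 1 + 60) + 6 + cpart (kf M) 1 with hD
  filter_upwards [short_N N q H c D, time_t0 M σ D, eventually_ge_atTop 1,
    log_le (kf M) 0] with n hsh hti hn hlg j ν hj hν B hno
  have hk : 1 ≤ kf M * ν := by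
    have : 1 ≤ kf M := by unfold kf; omega
    rw [hν]
    exact Nat.mul_pos this (Nat.succ_pos _)
  have hlen : (bits (t0 (kf M) ν j)).length ≤ D * n ^ 2 := len_t0 hn hν (by omega)
  by_cases hB : Badm M N q σ H c (t0 (kf M) ν j) B
  · exact ⟨B, fun y hy => absurd rfl hy, by simp, hB⟩
  by_contra hc
  have h1 := few M N q σ H c (t0 (kf M) ν j) (T := M.p.eval (pairBits σ (bits (t0 (kf M) ν j))).length)
    le_rfl (n := n) (hsh _ hlen) B hB (by
      rw [sat_t0]
      rintro ⟨z, hz, hz2⟩
      rw [hno z hz] at hz2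
      exact Bool.false_ne_true hz2)
    (strs (kf M * ν)) (fun z => Function.update B (List.replicate j false ++ z) true)
    (by
      intro z _ z' _ y h2 h3
      have h4 : y = List.replicate j false ++ z := by
        by_contra h
        exact h2 (Function.update_of_ne h _ _)
      have h5 : y = List.replicate j false ++ z' := by
        by_contra h
        exact h3 (Function.update_of_ne h _ _)
      exact List.append_cancel_left (h4.symm.trans h5))
    (by
      intro z hz y h2
      have h4 : y = List.replicate j false ++ z := by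
        by_contra h
        exact h2 (Function.update_of_ne h _ _)
      rw [h4, List.length_append, List.length_replicate, mem_strs.1 hz]
      omega)
    (by
      intro z hz
      rw [sat_t0]
      exact ⟨z, mem_strs.1 hz, by simp⟩)
    (by
      intro z hz hbad
      apply hc
      refine ⟨_, fun y hy => ?_, ?_, hbad⟩
      · have h4 : y = List.replicate j false ++ z := by
          by_contra h
          exact hy (Function.update_of_ne h _ _)
        rw [h4, List.length_append, List.length_replicate, mem_strs.1 hz]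
        omega
      · rw [← Set.ncard_singleton (List.replicate j false ++ z)]
        refine Set.ncard_le_ncard (fun y hy => ?_) (Set.finite_singleton _)
        by_contra h
        exact hy (Function.update_of_ne h _ _).symm)
  rw [card_strs] at h1
  have h2 := hti (pairBits σ (bits (t0 (kf M) ν j))).length (by
    rw [length_pairBits]
    omega)
  rw [← hν] at h2
  omega

/-- **Superpolynomially many changes.** -/
theorem near_super0 {g : ℕ → ℝ} (hg : Super g) (O : Oracle) : ∃ A : Oracle, Close g O A ∧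
    InW 1 A (fun I : WInst 1 => I.1.param) (fun I => I.1.Sat A) ∧
    ¬ InM1n A (fun I : WInst 1 => I.1.param) (fun I => I.1.Sat A) := by
  classical
  obtain ⟨e, he⟩ := exists_enum
  obtain ⟨A, h1, h2⟩ := stages2 (g := g) O (fun k A => ∃ x : Inst, x.IsW 1 ∧
      x.param = prm (kf (e k).1) 1 ∧ Badm (e k).1 (e k).2.1 (e k).2.2.1 (e k).2.2.2.1
        (e k).2.2.2.2.1 (e k).2.2.2.2.2 x A) (by
    intro k N T
    obtain ⟨M, N', q, σ, H, c⟩ := e k
    dsimp only
    obtain ⟨K, hK⟩ : ∃ K, K = kf M := ⟨_, rfl⟩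
    -- the size of the block is polynomial
    have hpoly : ∀ᶠ n : ℕ in atTop, T + (2 ^ (K * (Nat.log 2 n + 1)) + 1) ≤ n ^ (K + 1) := by
      filter_upwards [eventually_ge_atTop (T + 1 + 2 ^ K), eventually_ge_atTop 1] with n hn hn1
      have h3 : 2 ^ (Nat.log 2 n + 1) ≤ 2 * n := Pool.Agent.Y581.WN.pow_log_le hn1
      have h4 : 2 ^ (K * (Nat.log 2 n + 1)) ≤ 2 ^ K * n ^ K := by
        rw [mul_comm K, pow_mul, ← mul_pow]
        exact Nat.pow_le_pow_left h3 _
      have h5 : 1 ≤ n ^ K := Nat.one_le_pow _ _ hn1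
      calc T + (2 ^ (K * (Nat.log 2 n + 1)) + 1) ≤ T + (2 ^ K * n ^ K + 1) := by omega
        _ ≤ (T + 1 + 2 ^ K) * n ^ K := by nlinarith
        _ ≤ n * n ^ K := Nat.mul_le_mul_right _ hn
        _ = n ^ (K + 1) := by rw [pow_succ, mul_comm]
    obtain ⟨n, hsup, hpol, hpl, hlg, hNn⟩ := ((hg (K + 1)).and_eventually
      (hpoly.and ((plant0 M N' q σ H c).and ((log_le K 0).and
        (eventually_ge_atTop N))))).exists
    rw [← hK] at hpl
    obtain ⟨ν, hν⟩ : ∃ ν, ν = Nat.log 2 n + 1 := ⟨_, rfl⟩
    rw [← hν] at hpol hlg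
    obtain ⟨j, hj⟩ : ∃ j, j = n + 1 - K * ν := ⟨_, rfl⟩
    obtain ⟨b, hb⟩ := loc_badm M N' q σ H c (t0 K ν j) ⟨j + K * ν, fun B B' hB => by
      refine loc_ins _ _ _ _ _ _ (fun i hi => ?_) hB
      simp only [List.length_replicate, List.length_nil]
      omega⟩
    refine ⟨n, 2 ^ (K * ν) + 1, max (n + 2) (b + 1), hNn, fun m hm => ?_, fun B _ => ?_⟩
    · refine le_trans ?_ (hsup m hm).le
      exact_mod_cast hpol
    · -- erase the block
      set Bl : Finset (List Bool) := (strs (K * ν)).image (fun z => List.replicate j false ++ z)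
        with hBl
      set B0 : Oracle := fun y => if y ∈ Bl then false else B y with hB0
      have hlen : ∀ y ∈ Bl, y.length = n + 1 := by
        intro y hy
        rw [hBl, Finset.mem_image] at hy
        obtain ⟨z, hz, rfl⟩ := hy
        rw [List.length_append, List.length_replicate, mem_strs.1 hz]
        omega
      have hno : ∀ z : List Bool, z.length = K * ν → B0 (List.replicate j false ++ z) = false := by
        intro z hz
        rw [hB0]
        exact if_pos (Finset.mem_image.2 ⟨z, mem_strs.2 hz, rfl⟩)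
      obtain ⟨B', h3, h4, h5⟩ := hpl j ν (by omega) hν B0 hno
      refine ⟨B', fun y hy => ?_, ?_, fun B'' hB'' => ?_⟩
      · have h6 : y.length = n + 1 := by
          by_cases h7 : B' y = B0 y
          · by_cases h8 : y ∈ Bl
            · exact hlen y h8
            · exfalso
              apply hy
              rw [h7, hB0]
              exact if_neg h8
          · exact h3 y h7
        rw [h6]
        exact ⟨Nat.le_succ n, lt_of_lt_of_le (Nat.lt_succ_self _) (le_max_left _ _)⟩
      · have h6 : {y | B y ≠ B' y} ⊆ (Bl : Set (List Bool)) ∪ {y | B0 y ≠ B' y} := by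
          intro y hy
          by_cases h8 : y ∈ Bl
          · exact Or.inl h8
          · right
            intro h9
            apply hy
            rw [← h9, hB0]
            exact (if_neg h8).symm
        have hfin : {y | B0 y ≠ B' y}.Finite :=
          (finite_short (n + 1)).subset fun y hy => (h3 y fun h => hy h.symm).le
        refine (Set.ncard_le_ncard h6 ((Finset.finite_toSet _).union hfin)).trans
          ((Set.ncard_union_le _ _).trans (Nat.add_le_add ?_ h4))
        rw [Set.ncard_coe_finset]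
        exact Finset.card_image_le.trans (card_strs _).le
      · refine ⟨_, ins_isW _ _ _ _ _ _, ?_, (hb B' B'' fun y hy => ?_).1 h5⟩
        · rw [← hK]
          exact ins_param _ _ _ _ _ _
        · exact (hB'' y (lt_of_lt_of_le (Nat.lt_succ_of_le hy) (le_max_right _ _))).symm)
  refine ⟨A, h1, mc_inW 1 A, ?_⟩
  rintro ⟨π, h, c, M, r, L, ⟨V, q, ⟨N, hN⟩, hL⟩, hr⟩
  obtain ⟨k, hk⟩ := he (M, N, q, π (prm (kf M) 1), h (prm (kf M) 1), c)
  obtain ⟨x, hx1, hx2, hbad⟩ := h2 k
  rw [hk] at hx2 hbad
  dsimp only at hx2 hbad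
  have h1 := hr ⟨x, hx1⟩
  dsimp only at h1
  rw [hx2] at h1
  refine hbad ⟨r ⟨x, hx1⟩, h1.1, h1.2.1, ?_⟩
  rw [h1.2.2, hL]
  refine exists_congr fun w => and_congr_right fun _ => ?_
  rw [hN, Option.some.injEq]

end Pool.Agent.H20NC
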