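import Pool.Agent.W900.RB.Stage

/-!
# Stages: infinitely many tasks are carried out by few changes of an oracle
-/

set_option autoImplicit false

namespace Pool.Agent.H20NC

open Filter Pool.Agent.NPC Pool.Agent.H620R2.Gauge
open Pool.Agent.W900.CH (Close finite_diff finite_short)

theorem stages2 {g : ℕ → ℝ} (O : Oracle) (W : ℕ → Oracle → Prop)
    (h : ∀ k N T : ℕ, ∃ n c b : ℕ, N ≤ n ∧ (∀ m ≥ n, ((T + c : ℕ) : ℝ) ≤ g m) ∧
      ∀ B : Oracle, (∀ y : List Bool, N ≤ y.length → B y = O y) → ∃ B' : Oracle,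
        (∀ y : List Bool, B' y ≠ B y → n ≤ y.length ∧ y.length < b) ∧
        {y | B y ≠ B' y}.ncard ≤ c ∧
        ∀ B'' : Oracle, (∀ y : List Bool, y.length < b → B'' y = B' y) → W k B'') :
    ∃ A : Oracle, Close g O A ∧ ∀ k, W k A := by
  classical
  choose ns cs bs h1 h2 h3 using h
  have h4 : ∀ (k N T : ℕ) (B : Oracle), ∃ B' : Oracle,
      (∀ y : List Bool, N ≤ y.length → B y = O y) →
        (∀ y : List Bool, B' y ≠ B y → ns k N T ≤ y.length ∧ y.length < bs k N T) ∧
        {y | B y ≠ B' y}.ncard ≤ cs k N T ∧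
        ∀ B'' : Oracle, (∀ y : List Bool, y.length < bs k N T → B'' y = B' y) → W k B'' := by
    intro k N T B
    by_cases hB : ∀ y : List Bool, N ≤ y.length → B y = O y
    · obtain ⟨B', hB'⟩ := h3 k N T B hB
      exact ⟨B', fun _ => hB'⟩
    · exact ⟨B, fun h => absurd h hB⟩
  choose Bs h5 using h4
  let F : ℕ → Oracle × ℕ × ℕ := fun k => Nat.rec (O, 0, 0) (fun k s =>
    (Bs k s.2.1 s.2.2 s.1, max (ns k s.2.1 s.2.2 + 1) (bs k s.2.1 s.2.2),
      s.2.2 + cs k s.2.1 s.2.2)) k
  let n : ℕ → ℕ := fun k => ns k (F k).2.1 (F k).2.2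
  let b : ℕ → ℕ := fun k => bs k (F k).2.1 (F k).2.2
  have hF1 : ∀ k, (F (k + 1)).1 = Bs k (F k).2.1 (F k).2.2 (F k).1 := fun k => rfl
  have hF2 : ∀ k, (F (k + 1)).2.1 = max (n k + 1) (b k) := fun k => rfl
  have hF3 : ∀ k, (F (k + 1)).2.2 = (F k).2.2 + cs k (F k).2.1 (F k).2.2 := fun k => rfl
  have hnN : ∀ k, (F k).2.1 ≤ n k := fun k => h1 _ _ _
  have hNN : ∀ k, (F k).2.1 ≤ (F (k + 1)).2.1 := by
    intro k
    have h6 := hnN k
    have h7 := le_max_left (n k + 1) (b k)
    rw [hF2]
    omega
  have hfar : ∀ (k : ℕ) (y : List Bool), (F k).2.1 ≤ y.length → (F k).1 y = O y := by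
    intro k
    induction k with
    | zero => exact fun y _ => rfl
    | succ k ih =>
      intro y hy
      have h6 := (hNN k).trans hy
      rw [← ih y h6]
      by_contra hc
      rw [hF1] at hc
      have h7 := ((h5 k (F k).2.1 (F k).2.2 (F k).1 ih).1 y hc).2
      have h8 : b k ≤ (F (k + 1)).2.1 := by
        rw [hF2]
        exact le_max_right _ _
      have h9 : y.length < b k := h7
      omega
  have hst := fun k => h5 k (F k).2.1 (F k).2.2 (F k).1 (hfar k)
  have hlt : ∀ k, n k < n (k + 1) := by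
    intro k
    have h6 := hnN (k + 1)
    have h7 := le_max_left (n k + 1) (b k)
    rw [hF2] at h6
    omega
  have hmono : StrictMono n := strictMono_nat_of_lt_succ hlt
  have hid : ∀ k, k ≤ n k := fun k => hmono.le_apply
  -- later oracles agree on short strings
  have hagree1 : ∀ (j : ℕ) (y : List Bool), y.length < n j → (F (j + 1)).1 y = (F j).1 y := by
    intro j y hy
    by_contra hc
    rw [hF1] at hc
    have h6 : n j ≤ y.length := ((hst j).1 y hc).1
    omega
  have hagree : ∀ (j i : ℕ) (y : List Bool), y.length < n j → (F (j + i)).1 y = (F j).1 y := by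
    intro j i y hy
    induction i with
    | zero => rfl
    | succ i ih =>
      rw [← ih, ← add_assoc]
      apply hagree1
      exact lt_of_lt_of_le hy (hmono.monotone (Nat.le_add_right j i))
  set A : Oracle := fun y => (F (y.length + 1)).1 y with hA
  have hAj : ∀ (j : ℕ) (y : List Bool), y.length < n j → A y = (F j).1 y := by
    intro j y hy
    rw [hA]
    dsimp only
    rcases le_total (y.length + 1) j with h | h
    · obtain ⟨i, rfl⟩ := Nat.exists_eq_add_of_le h
      rw [hagree (y.length + 1) i y (lt_of_lt_of_le (Nat.lt_succ_self _) (hid _))]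
    · obtain ⟨i, hi⟩ := Nat.exists_eq_add_of_le h
      rw [hi, hagree j i y hy]
  have hdist : ∀ k m, Pool.Agent.W900.CH.dist O (F k).1 m ≤ (F k).2.2 := by
    intro k m
    induction k with
    | zero =>
      have : Pool.Agent.W900.CH.dist O (F 0).1 m = 0 := by
        unfold Pool.Agent.W900.CH.dist
        change Set.ncard {x : List Bool | x.length ≤ m ∧ O x ≠ O x} = 0
        simp
      rw [this]
      exact Nat.zero_le _
    | succ k ih =>
      rw [hF3]
      refine (Pool.Agent.W900.RB.dist_triangle O (F k).1 (F (k + 1)).1 m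
        (T := cs k (F k).2.1 (F k).2.2) ?_ ?_).trans (Nat.add_le_add_right ih _)
      · refine (finite_short (b k)).subset fun y hy => ?_
        exact ((hst k).1 y fun hc => hy hc.symm).2.le
      · exact (hst k).2.1
  refine ⟨A, ?_, ?_⟩
  · -- few changes
    unfold Close
    filter_upwards [eventually_ge_atTop (n 0)] with m hm
    obtain ⟨k, hk1, hk2⟩ : ∃ k, n k ≤ m ∧ m < n (k + 1) := by
      have hex : ∃ j, m < n j := ⟨m + 1, lt_of_lt_of_le (Nat.lt_succ_self m) (hid _)⟩
      have hpos : 0 < Nat.find hex := by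
        rw [Nat.pos_iff_ne_zero]
        intro h
        have := Nat.find_spec hex
        rw [h] at this
        omega
      refine ⟨Nat.find hex - 1, ?_, ?_⟩
      · have := Nat.find_min hex (m := Nat.find hex - 1) (by omega)
        omega
      · have := Nat.find_spec hex
        rwa [Nat.sub_add_cancel hpos]
    have h7 : Pool.Agent.W900.CH.dist O A m = Pool.Agent.W900.CH.dist O (F (k + 1)).1 m := by
      unfold Pool.Agent.W900.CH.dist
      congr 1
      ext y
      simp only [Set.mem_ofPred_eq]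
      constructor
      · rintro ⟨h8, h9⟩
        exact ⟨h8, by rw [← hAj (k + 1) y (by omega)]; exact h9⟩
      · rintro ⟨h8, h9⟩
        exact ⟨h8, by rw [hAj (k + 1) y (by omega)]; exact h9⟩
    rw [h7]
    refine le_trans ?_ (h2 k (F k).2.1 (F k).2.2 m hk1)
    exact_mod_cast hdist (k + 1) m
  · intro k
    refine (hst k).2.2 A fun y hy => ?_
    have h8 := hnN (k + 1)
    rw [hF2] at h8
    have h9 := le_max_right (n k + 1) (b k)
    have h10 : y.length < b k := hy
    rw [hAj (k + 1) y (by omega)]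

end Pool.Agent.H20NC
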