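import Pool.Agent.H20PW.Fin
import Pool.Agent.H20NC.Stg

/-!
# One error by few changes of the oracle
-/

set_option autoImplicit false

namespace Pool.Agent.H20NC

open Filter Pool.Agent.NPC Pool.Agent.H620R2.Gauge Pool.Agent.Y626.WG Pool.Agent.H20PW
open Pool.Agent.TH678.GC (join)
open Pool.Agent.Y581.WN (Badm InM1n)
open Pool.Agent.H20RD (cs cellC hitC hitC_eq length_cs Keeps disjoint_cellC depOn_hitC DepOn strs
  mem_strs card_strs card_cellC short mem_short)
open Pool.Agent.W900.CH (Close finite_short)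
open Pool.Agent.W900.RB (Super)

theorem plant (M N : Alg) (q : Polynomial ℕ) (σ : List Bool) (H c : ℕ) (E : Oracle) (β : Bool)
    (κ : ℕ) : ∀ᶠ n : ℕ in atTop, ∀ j ν : ℕ, j + κ + kf M * ν = n → ν = Nat.log 2 n + 1 →
      ∀ B : Oracle, (∀ z : List Bool, z.length = kf M * ν → B ∉ hitC β j κ z) →
      ∃ B' : Oracle, (∀ y : List Bool, B' y ≠ B y → y.length = n) ∧
        {y | B y ≠ B' y}.ncard ≤ κ + 1 ∧
        Badm M N q σ H c (tI (kf M) κ ν β j []) (join B' E) := by
  classical
  filter_upwards [level M N q σ H c E β κ] with n hlev j ν hj hν B hno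
  by_cases hgood : B ∈ good M N q σ H c E β κ ν j 0
  · by_contra hc
    have h1 := hlev j (kf M * ν) ν 0 hj hν (by omega) B hgood hno (strs (kf M * ν)) (by
      intro z hz
      rw [mem_strs] at hz
      refine ⟨hz, fun y => if y ∈ cellC j κ z then β else B y, fun y hy => if_neg hy, ?_, ?_⟩
      · rw [hitC_eq]
        intro x hx
        exact if_pos hx
      · by_contra hng
        apply hc
        unfold good at hng
        rw [Set.mem_ofPred_eq] at hng
        push Not at hng
        obtain ⟨u, hu, hbad⟩ := hng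
        obtain rfl := List.length_eq_zero_iff.1 hu
        refine ⟨fun y => if y ∈ cellC j κ z then β else B y, fun y hy => ?_, ?_, hbad⟩
        · have hyc : y ∈ cellC j κ z := by
            by_contra h
            exact hy (if_neg h)
          simp only [cellC, Finset.mem_image, Finset.mem_range] at hyc
          obtain ⟨i, hi, rfl⟩ := hyc
          rw [length_cs (by omega), hz]
          omega
        · rw [← card_cellC j κ z, ← Set.ncard_coe_finset]
          refine Set.ncard_le_ncard (fun y hy => ?_) (Finset.finite_toSet _)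
          by_contra h
          exact hy (if_neg (show y ∉ cellC j κ z from h)).symm)
    rw [card_strs] at h1
    have h2 : 1 ≤ 2 ^ (kf M * ν) := Nat.one_le_two_pow
    omega
  · unfold good at hgood
    rw [Set.mem_ofPred_eq] at hgood
    push Not at hgood
    obtain ⟨u, hu, hbad⟩ := hgood
    obtain rfl := List.length_eq_zero_iff.1 hu
    exact ⟨B, fun y hy => absurd rfl hy, by simp, hbad⟩

/-- the error depends on short strings only -/
theorem loc_tI (M N : Alg) (q : Polynomial ℕ) (σ : List Bool) (H c : ℕ) (E : Oracle) (β : Bool)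
    (κ ν j : ℕ) : ∃ b : ℕ, ∀ B B' : Oracle, (∀ y : List Bool, y.length ≤ b → B y = B' y) →
      Badm M N q σ H c (tI (kf M) κ ν β j []) (join B E) →
      Badm M N q σ H c (tI (kf M) κ ν β j []) (join B' E) := by
  obtain ⟨b, hb⟩ := loc_badm M N q σ H c (tI (kf M) κ ν β j [])
    ⟨1 + j + kf M * ν + (κ + κ), fun B B' hB => by
      refine loc_ins _ _ _ _ _ _ (fun i hi => ?_) hB
      simp only [List.length_cons, List.length_append, List.length_replicate, List.length_nil]
      omega⟩
  refine ⟨b, fun B B' h => ?_⟩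
  refine (hb (join B E) (join B' E) fun y hy => ?_).1
  exact join_congr (b := b) (fun x hx => h x (mem_short.1 hx)) y (by omega)

/-- what has to be shown for a tuple of algorithms, a polynomial, an advice, and two numbers -/
def Task (E : Oracle) (κ : Alg → ℕ) (e : Alg × Alg × Polynomial ℕ × List Bool × ℕ × ℕ)
    (A : Oracle) : Prop :=
  ∃ x : Inst, x.IsW 1 ∧ x.param = prm (kf e.1) (κ e.1 + 1) ∧
    Badm e.1 e.2.1 e.2.2.1 e.2.2.2.1 e.2.2.2.2.1 e.2.2.2.2.2 x (join A E)

theorem not_inM1n {E A : Oracle} {κ : Alg → ℕ} (hA : ∀ e, Task E κ e A) :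
    ¬ InM1n (join A E) (fun I : WInst 1 => I.1.param) (fun I => I.1.Sat (join A E)) := by
  rintro ⟨π, h, c, M, r, L, ⟨V, q, ⟨N, hN⟩, hL⟩, hr⟩
  obtain ⟨x, hx1, hx2, hbad⟩ := hA (M, N, q, π (prm (kf M) (κ M + 1)), h (prm (kf M) (κ M + 1)), c)
  dsimp only at hx2 hbad
  have h1 := hr ⟨x, hx1⟩
  dsimp only at h1
  rw [hx2] at h1
  refine hbad ⟨r ⟨x, hx1⟩, h1.1, h1.2.1, ?_⟩
  rw [h1.2.2, hL]
  refine exists_congr fun w => and_congr_right fun _ => ?_
  rw [hN, Option.some.injEq]

theorem exists_enum : ∃ e : ℕ → Alg × Alg × Polynomial ℕ × List Bool × ℕ × ℕ,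
    Function.Surjective e := Pool.Agent.Y581.WN.exists_enumm

theorem log_le (k κ : ℕ) : ∀ᶠ n : ℕ in atTop, κ + k * (Nat.log 2 n + 1) ≤ n := by
  have h := Pool.Agent.Y581.WN.log_small (Polynomial.C κ + Polynomial.C k * Polynomial.X)
  filter_upwards [h] with n hn
  rwa [Polynomial.eval_add, Polynomial.eval_mul, Polynomial.eval_C, Polynomial.eval_C,
    Polynomial.eval_X] at hn

/-- **Superpolynomially many changes.** -/
theorem near_super {g : ℕ → ℝ} (hg : Super g) (E A : Oracle) : ∃ A' : Oracle, Close g A A' ∧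
    ¬ InM1n (join A' E) (fun I : WInst 1 => I.1.param) (fun I => I.1.Sat (join A' E)) := by
  classical
  obtain ⟨e, he⟩ := exists_enum
  obtain ⟨A', h1, h2⟩ := stages2 (g := g) A (fun k => Task E (fun _ => 0) (e k)) (by
    intro k N T
    obtain ⟨M, N', q, σ, H, c⟩ := e k
    set K := kf M with hK
    -- the size of the block is polynomial
    have hpoly : ∀ᶠ n : ℕ in atTop, T + (2 ^ (K * (Nat.log 2 n + 1)) + (0 + 1)) ≤ n ^ (K + 1) := by
      filter_upwards [eventually_ge_atTop (T + 1 + 2 ^ K), eventually_ge_atTop 1] with n hn hn1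
      have h3 : 2 ^ (Nat.log 2 n + 1) ≤ 2 * n := Pool.Agent.Y581.WN.pow_log_le hn1
      have h4 : 2 ^ (K * (Nat.log 2 n + 1)) ≤ 2 ^ K * n ^ K := by
        rw [mul_comm K, pow_mul, ← mul_pow]
        exact Nat.pow_le_pow_left h3 _
      have h5 : 1 ≤ n ^ K := Nat.one_le_pow _ _ hn1
      calc T + (2 ^ (K * (Nat.log 2 n + 1)) + (0 + 1)) ≤ T + (2 ^ K * n ^ K + (0 + 1)) := by omega
        _ ≤ (T + 1 + 2 ^ K) * n ^ K := by nlinarith
        _ ≤ n * n ^ K := Nat.mul_le_mul_right _ hn
        _ = n ^ (K + 1) := by rw [pow_succ, mul_comm]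
    obtain ⟨n, hsup, hpol, hpl, hlg, hNn⟩ := ((hg (K + 1)).and_eventually
      (hpoly.and ((plant M N' q σ H c E true 0).and ((log_le K 0).and
        (eventually_ge_atTop N))))).exists
    set ν := Nat.log 2 n + 1 with hν
    obtain ⟨b, hb⟩ := loc_tI M N' q σ H c E true 0 ν (n - K * ν)
    refine ⟨n, 2 ^ (K * ν) + (0 + 1), max (n + 1) (b + 1), hNn, fun m hm => ?_, fun B _ => ?_⟩
    · refine le_trans ?_ (hsup m hm).le
      exact_mod_cast hpol
    · -- erase the block
      set Bl : Finset (List Bool) := (strs (K * ν)).image (fun z => cs (n - K * ν) 0 z 0) with hBl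
      set B0 : Oracle := fun y => if y ∈ Bl then false else B y with hB0
      have hlen : ∀ y ∈ Bl, y.length = n := by
        intro y hy
        rw [hBl, Finset.mem_image] at hy
        obtain ⟨z, hz, rfl⟩ := hy
        rw [length_cs le_rfl, mem_strs.1 hz]
        omega
      have hno : ∀ z : List Bool, z.length = K * ν → B0 ∉ hitC true (n - K * ν) 0 z := by
        intro z hz hh
        have h3 : B0 (cs (n - K * ν) 0 z 0) = true := hh 0 le_rfl
        have h4 : cs (n - K * ν) 0 z 0 ∈ Bl := Finset.mem_image.2 ⟨z, mem_strs.2 hz, rfl⟩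
        rw [hB0] at h3
        simp only [if_pos h4] at h3
        exact Bool.false_ne_true h3
      obtain ⟨B', h3, h4, h5⟩ := hpl (n - K * ν) ν (by
        rw [← hK]
        omega) rfl B0 hno
      refine ⟨B', fun y hy => ?_, ?_, fun B'' hB'' => ?_⟩
      · have h6 : y.length = n := by
          by_cases h7 : B' y = B0 y
          · by_cases h8 : y ∈ Bl
            · exact hlen y h8
            · exfalso
              apply hy
              rw [h7, hB0]
              exact if_neg h8
          · exact h3 y h7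
        rw [h6]
        exact ⟨le_rfl, lt_of_lt_of_le (Nat.lt_succ_self n) (le_max_left _ _)⟩
      · have h6 : {y | B y ≠ B' y} ⊆ (Bl : Set (List Bool)) ∪ {y | B0 y ≠ B' y} := by
          intro y hy
          by_cases h8 : y ∈ Bl
          · exact Or.inl h8
          · right
            intro h9
            apply hy
            rw [← h9, hB0]
            exact (if_neg h8).symm
        have hfin : {y | B0 y ≠ B' y}.Finite :=
          (finite_short n).subset fun y hy => (h3 y fun h => hy h.symm).le
        refine (Set.ncard_le_ncard h6 ((Finset.finite_toSet _).union hfin)).trans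
          ((Set.ncard_union_le _ _).trans (Nat.add_le_add ?_ h4))
        rw [Set.ncard_coe_finset]
        exact Finset.card_image_le.trans (card_strs _).le
      · refine ⟨_, ins_isW _ _ _ _ _ _, ins_param _ _ _ _ _ _, hb B' B'' (fun y hy => ?_) h5⟩
        exact (hB'' y (lt_of_lt_of_le (Nat.lt_succ_of_le hy) (le_max_right _ _))).symm)
  refine ⟨A', h1, not_inM1n (κ := fun _ => 0) fun e' => ?_⟩
  obtain ⟨k, rfl⟩ := he e'
  exact h2 k

end Pool.Agent.H20NC
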