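import Pool.Agent.H20PW.Res

/-!
# Decision trees for disjunctions of local events which are correct near a random oracle
-/

set_option autoImplicit false

namespace Pool.Agent.H20NC

open MeasureTheory Pool.Agent.NPC Pool.Agent.H620R2.Gauge Pool.Agent.Y626.WR
open Pool.Agent.H20RD (DepOn rnd w rnd_inter coin_real Orc)
open Pool.Agent.Y626.WC (DT)
open Pool.Agent.H20PW (cyl depOn_cyl ow_cyl depOn_ow resample sum_cyl rnd_none)

/-- the oracle `A`, changed at the strings in `T` -/
def xr (A : Orc) (T : Finset (List Bool)) : Orc := fun z => (A z).xor (decide (z ∈ T))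

theorem xr_of_notMem {A : Orc} {T : Finset (List Bool)} {z : List Bool} (h : z ∉ T) :
    xr A T z = A z := by
  unfold xr
  simp [h]

/-- the oracles with an element of `G` at distance `g` in `S` -/
def nb (g : ℕ) (S : Finset (List Bool)) (G : Set Orc) : Set Orc :=
  {A | ∃ T ⊆ S, T.card ≤ g ∧ xr A T ∈ G}

theorem nb_mono {g : ℕ} {S : Finset (List Bool)} {G G' : Set Orc} (h : G ⊆ G') :
    nb g S G ⊆ nb g S G' := fun _ ⟨T, h1, h2, h3⟩ => ⟨T, h1, h2, h h3⟩

theorem nb_empty (g : ℕ) (S : Finset (List Bool)) : nb g S ∅ = ∅ := by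
  rw [Set.eq_empty_iff_forall_notMem]
  rintro A ⟨T, _, _, h⟩
  exact h

theorem depOn_nb {g : ℕ} {S K : Finset (List Bool)} {G : Set Orc} (hG : DepOn K G) :
    DepOn K (nb g S G) := by
  have key : ∀ A A' : Orc, (∀ x ∈ K, A x = A' x) → A ∈ nb g S G → A' ∈ nb g S G := by
    rintro A A' h ⟨T, h1, h2, h3⟩
    refine ⟨T, h1, h2, (hG _ _ fun x hx => ?_).1 h3⟩
    unfold xr
    rw [h x hx]
  exact fun A A' h => ⟨key A A' h, key A' A fun x hx => (h x hx).symm⟩

/-- the number of small subsets -/
theorem card_small (U : Finset (List Bool)) (g : ℕ) :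
    (U.powerset.filter fun T => T.card ≤ g).card ≤ (U.card + 1) ^ g := by
  classical
  induction g with
  | zero =>
    rw [pow_zero]
    refine (Finset.card_le_card (t := {∅}) fun T hT => ?_).trans (Finset.card_singleton _).le
    rw [Finset.mem_filter] at hT
    rw [Finset.mem_singleton]
    exact Finset.card_eq_zero.1 (Nat.le_zero.1 hT.2)
  | succ g ih =>
    have h1 : (U.powerset.filter fun T => T.card ≤ g + 1) ⊆
        (U.powerset.filter fun T => T.card ≤ g).biUnion
          fun T => insert T (U.image fun x => insert x T) := by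
      intro T hT
      rw [Finset.mem_filter, Finset.mem_powerset] at hT
      rw [Finset.mem_biUnion]
      by_cases h2 : T.card ≤ g
      · exact ⟨T, Finset.mem_filter.2 ⟨Finset.mem_powerset.2 hT.1, h2⟩, Finset.mem_insert_self _ _⟩
      · have h3 : T.Nonempty := by
          rw [← Finset.card_pos]
          omega
        obtain ⟨x, hx⟩ := h3
        refine ⟨T.erase x, Finset.mem_filter.2 ⟨Finset.mem_powerset.2
          ((Finset.erase_subset _ _).trans hT.1), ?_⟩, ?_⟩
        · rw [Finset.card_erase_of_mem hx]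
          omega
        · refine Finset.mem_insert_of_mem (Finset.mem_image.2 ⟨x, hT.1 hx, ?_⟩)
          exact Finset.insert_erase hx
    refine (Finset.card_le_card h1).trans (Finset.card_biUnion_le.trans ?_)
    refine (Finset.sum_le_card_nsmul _ _ (U.card + 1) fun T _ => ?_).trans ?_
    · refine (Finset.card_insert_le _ _).trans ?_
      have := Finset.card_image_le (s := U) (f := fun x => insert x T)
      omega
    · rw [smul_eq_mul, pow_succ]
      exact Nat.mul_le_mul_right _ ih

/-- many disjoint events: one of them happens even after `g` changes -/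
theorem rnd_many (q : List Bool → unitInterval) {ε : ℝ} (h0 : 0 ≤ ε) (h1 : ε ≤ 1)
    {S : Finset (List Bool)} (hε : ∀ z ∈ S, ∀ β, ε ≤ w β (q z)) {ι : Type} (f : ι → Orc → Prop)
    (D : ι → Finset (List Bool)) (hloc : ∀ i, DepOn (D i) {A | f i A}) (hD : ∀ i, D i ⊆ S)
    {k m g : ℕ} (s : Finset ι) (hs : s.card = (g + 1) * m)
    (hlive : ∀ i ∈ s, (∃ A, f i A) ∧ (D i).card ≤ k)
    (hdis : (s : Set ι).PairwiseDisjoint D) :
    (rnd q).real (nb g S {A | ∀ i ∈ s, ¬ f i A}) ≤ (g + 1) * (1 - ε ^ k) ^ m := by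
  classical
  have hcard : Fintype.card s = Fintype.card (Fin (g + 1) × Fin m) := by
    rw [Fintype.card_coe, Fintype.card_prod, Fintype.card_fin, Fintype.card_fin, hs]
  let e : Fin (g + 1) × Fin m ≃ s := (Fintype.equivOfCardEq hcard).symm
  set G : Fin (g + 1) → Finset ι := fun j => Finset.univ.image fun a : Fin m => (e (j, a)).1
    with hG
  have hGs : ∀ j, G j ⊆ s := by
    intro j i hi
    rw [hG, Finset.mem_image] at hi
    obtain ⟨a, _, rfl⟩ := hi
    exact (e (j, a)).2
  have hGc : ∀ j, (G j).card = m := by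
    intro j
    rw [hG]
    dsimp only
    rw [Finset.card_image_of_injective, Finset.card_univ, Fintype.card_fin]
    intro a b hab
    have h2 := e.injective (Subtype.ext hab)
    exact (Prod.mk.inj h2).2
  have hGd : ∀ j j' i, i ∈ G j → i ∈ G j' → j = j' := by
    intro j j' i hi hi'
    rw [hG, Finset.mem_image] at hi hi'
    obtain ⟨a, _, h2⟩ := hi
    obtain ⟨a', _, h3⟩ := hi'
    have h4 := e.injective (Subtype.ext (h2.trans h3.symm))
    exact (Prod.mk.inj h4).1
  have hsub : nb g S {A | ∀ i ∈ s, ¬ f i A} ⊆ ⋃ j ∈ (Finset.univ : Finset (Fin (g + 1))),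
      {A | ∀ i ∈ G j, ¬ f i A} := by
    rintro A ⟨T, hT1, hT2, hT3⟩
    by_contra hc
    simp only [Finset.mem_univ, Set.iUnion_true, Set.mem_iUnion, not_exists, Set.mem_ofPred_eq] at hc
    push Not at hc
    choose i hi1 hi2 using hc
    have hz : ∀ j, ∃ z, z ∈ D (i j) ∧ z ∈ T := by
      intro j
      by_contra hc
      push Not at hc
      refine hT3 (i j) (hGs j (hi1 j)) ((hloc (i j) A _ fun z hz => ?_).1 (hi2 j))
      exact (xr_of_notMem (hc z hz)).symm
    choose z hz1 hz2 using hz
    have hinj : Function.Injective z := by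
      intro j j' h
      by_contra hne
      have h3 : i j ≠ i j' := fun h4 => hne (hGd j j' (i j) (hi1 j) (h4 ▸ hi1 j'))
      have h4 := hdis (Finset.mem_coe.2 (hGs j (hi1 j))) (Finset.mem_coe.2 (hGs j' (hi1 j'))) h3
      exact Finset.disjoint_left.1 h4 (hz1 j) (h ▸ hz1 j')
    have h5 := Finset.card_le_card_of_injOn z (s := Finset.univ) (t := T) (fun j _ => hz2 j)
      hinj.injOn
    rw [Finset.card_univ, Fintype.card_fin] at h5
    omega
  refine (measureReal_mono hsub (measure_ne_top _ _)).trans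
    ((measureReal_biUnion_finset_le _ _).trans ?_)
  refine (Finset.sum_le_card_nsmul _ _ ((1 - ε ^ k) ^ m) fun j _ => ?_).trans ?_
  · have h2 := rnd_none q h0 h1 hε f D hloc hD (k := k) (G j) (fun i hi => hlive i (hGs j hi))
      (hdis.subset (Finset.coe_subset.2 (hGs j)))
    rwa [hGc] at h2
  · rw [Finset.card_univ, Fintype.card_fin, nsmul_eq_mul]
    push_cast
    exact le_rfl

/-- The disjunction of events which depend on at most `k` bits is, with high probability, the value
of a decision tree, even after `g` changes of the oracle. -/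
theorem rtree (W m g : ℕ) (S : Finset (List Bool)) : ∀ (k : ℕ), k ≤ W → ∀ (ι : Type)
    (f : ι → Orc → Prop) (D : ι → Finset (List Bool)),
    (∀ i, DepOn (D i) {A | f i A}) →
    (∀ i, D i ⊆ S) → (∀ i, (∃ A, f i A) → (D i).card ≤ k) →
    ∃ t : DT, t.depth ≤ (g + 1) * m * k ^ 2 ∧ t.In (⋃ i, (D i : Set (List Bool))) ∧
      ∀ (q : List Bool → unitInterval) (ε : ℝ), 0 ≤ ε → ε ≤ 1 →
        (∀ z ∈ S, ∀ β, ε ≤ w β (q z)) →
        (rnd q).real (nb g S {A | ¬ (t.eval A = true ↔ ∃ i, f i A)}) ≤
          (((g + 1) * m * W + 1 : ℕ) : ℝ) ^ (g * k) * ((g + 1) * (1 - ε ^ W) ^ m) := by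
  classical
  have hnn0 : ∀ ε : ℝ, 0 ≤ ε → ε ≤ 1 → (0 : ℝ) ≤ ((g : ℝ) + 1) * (1 - ε ^ W) ^ m := by
    intro ε h0 h1
    have : ε ^ W ≤ 1 := pow_le_one₀ h0 h1
    exact mul_nonneg (by positivity) (pow_nonneg (by linarith) _)
  have hnn : ∀ (k : ℕ) (ε : ℝ), 0 ≤ ε → ε ≤ 1 → (0 : ℝ) ≤
      (((g + 1) * m * W + 1 : ℕ) : ℝ) ^ (g * k) * ((g + 1) * (1 - ε ^ W) ^ m) := by
    intro k ε h0 h1
    exact mul_nonneg (by positivity) (hnn0 ε h0 h1)
  -- if some event always happens
  have hsure : ∀ (k : ℕ) (ι : Type)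
      (f : ι → Orc → Prop) (D : ι → Finset (List Bool)),
      (∀ i, DepOn (D i) {A | f i A}) →
      (∃ i, (∃ A, f i A) ∧ D i = ∅) →
      ∃ t : DT, t.depth ≤ (g + 1) * m * k ^ 2 ∧ t.In (⋃ i, (D i : Set (List Bool))) ∧
      ∀ (q : List Bool → unitInterval) (ε : ℝ), 0 ≤ ε → ε ≤ 1 →
        (∀ z ∈ S, ∀ β, ε ≤ w β (q z)) →
        (rnd q).real (nb g S {A | ¬ (t.eval A = true ↔ ∃ i, f i A)}) ≤
          (((g + 1) * m * W + 1 : ℕ) : ℝ) ^ (g * k) * ((g + 1) * (1 - ε ^ W) ^ m) := by
    rintro k ι f D hloc ⟨i, ⟨A0, h0⟩, hD⟩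
    refine ⟨DT.leaf true, Nat.zero_le _, trivial, fun q ε h1 h2 _ => ?_⟩
    have : {A | ¬ ((DT.leaf true).eval A = true ↔ ∃ i, f i A)} = ∅ := by
      rw [Set.eq_empty_iff_forall_notMem]
      intro A hA
      apply hA
      refine ⟨fun _ => ⟨i, (hloc i A0 A ?_).1 h0⟩, fun _ => rfl⟩
      rw [hD]
      intro z hz
      exact absurd hz (Finset.notMem_empty z)
    rw [this, nb_empty, measureReal_empty]
    exact hnn k ε h1 h2
  intro k
  induction k with
  | zero =>
    intro _ ι f D hloc hS hlive
    by_cases hex : ∃ i, ∃ A, f i A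
    · obtain ⟨i, hi⟩ := hex
      exact hsure 0 ι f D hloc ⟨i, hi, Finset.card_eq_zero.1 (Nat.le_zero.1 (hlive i hi))⟩
    · refine ⟨DT.leaf false, Nat.zero_le _, trivial, fun q ε h1 h2 _ => ?_⟩
      have : {A | ¬ ((DT.leaf false).eval A = true ↔ ∃ i, f i A)} = ∅ := by
        rw [Set.eq_empty_iff_forall_notMem]
        intro A hA
        apply hA
        refine ⟨fun h => absurd h (by simp [DT.eval]), fun ⟨i, h⟩ => absurd ⟨i, A, h⟩ hex⟩
      rw [this, nb_empty, measureReal_empty]
      exact hnn 0 ε h1 h2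
  | succ k ih =>
    intro hw ι f D hloc hS hlive
    by_cases hsr : ∃ i, (∃ A, f i A) ∧ D i = ∅
    · exact hsure (k + 1) ι f D hloc hsr
    by_cases hbig : ∃ s : Finset ι, s.card = (g + 1) * m ∧ (∀ i ∈ s, ∃ A, f i A) ∧
        (s : Set ι).PairwiseDisjoint D
    · obtain ⟨s, hs, hsl, hsd⟩ := hbig
      refine ⟨DT.leaf true, Nat.zero_le _, trivial, fun q ε e0 e1 hε => ?_⟩
      have h1 := rnd_many q e0 e1 hε f D hloc hS (k := k + 1) (g := g) (m := m) s hs
        (fun i hi => ⟨hsl i hi, hlive i (hsl i hi)⟩) hsd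
      have h2 : (rnd q).real (nb g S {A | ¬ ((DT.leaf true).eval A = true ↔ ∃ i, f i A)}) ≤
          (rnd q).real (nb g S {A | ∀ i ∈ s, ¬ f i A}) := by
        refine measureReal_mono (nb_mono ?_) (measure_ne_top _ _)
        intro A hA i _ hi
        exact hA ⟨fun _ => ⟨i, hi⟩, fun _ => rfl⟩
      refine h2.trans (h1.trans ?_)
      have h3 : ε ^ W ≤ ε ^ (k + 1) := pow_le_pow_of_le_one e0 e1 hw
      have h4 : ε ^ (k + 1) ≤ 1 := pow_le_one₀ e0 e1
      have h5 : ((g : ℝ) + 1) * (1 - ε ^ (k + 1)) ^ m ≤ ((g : ℝ) + 1) * (1 - ε ^ W) ^ m :=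
        mul_le_mul_of_nonneg_left (pow_le_pow_left₀ (by linarith) (by linarith) _) (by positivity)
      refine h5.trans (le_mul_of_one_le_left (hnn0 ε e0 e1) ?_)
      refine one_le_pow₀ ?_
      push_cast
      have : (0 : ℝ) ≤ ((g : ℝ) + 1) * m * W := by positivity
      linarith
    -- a maximal disjoint family
    obtain ⟨s, hsl, hsd, hsc, hmax⟩ : ∃ s : Finset ι, (∀ i ∈ s, ∃ A, f i A) ∧
        (s : Set ι).PairwiseDisjoint D ∧ s.card ≤ (g + 1) * m ∧
        ∀ i, (∃ A, f i A) → ¬ Disjoint (D i) (s.biUnion D) := by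
      have hb : ∀ s : Finset ι, (∀ i ∈ s, ∃ A, f i A) → (s : Set ι).PairwiseDisjoint D →
          s.card < (g + 1) * m := by
        intro s h1 h2
        by_contra hc
        push Not at hc
        obtain ⟨s', h3, h4⟩ := Finset.exists_subset_card_eq hc
        exact hbig ⟨s', h4, fun i hi => h1 i (h3 hi), h2.subset (Finset.coe_subset.2 h3)⟩
      have hP : ∃ n : ℕ, ∃ s : Finset ι, s.card = (g + 1) * m - n ∧ (∀ i ∈ s, ∃ A, f i A) ∧
          (s : Set ι).PairwiseDisjoint D := ⟨(g + 1) * m, ∅, by simp, by simp, by simp⟩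
      obtain ⟨s, h1, h2, h3⟩ := Nat.find_spec hP
      have hlt := hb s h2 h3
      refine ⟨s, h2, h3, hlt.le, fun i hi hdisj => ?_⟩
      have hne : (D i).Nonempty := by
        rw [Finset.nonempty_iff_ne_empty]
        intro h
        exact hsr ⟨i, hi, h⟩
      have his : i ∉ s := by
        intro h
        obtain ⟨z, hz⟩ := hne
        exact (Finset.disjoint_left.1 hdisj hz) (Finset.mem_biUnion.2 ⟨i, h, hz⟩)
      have hn0 : Nat.find hP ≠ 0 := by
        intro h
        rw [h] at h1
        omega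
      have hle : Nat.find hP ≤ (g + 1) * m := Nat.find_min' hP ⟨∅, by simp, by simp, by simp⟩
      refine Nat.find_min hP (Nat.sub_lt (Nat.pos_of_ne_zero hn0) Nat.one_pos)
        ⟨insert i s, ?_, ?_, ?_⟩
      · rw [Finset.card_insert_of_notMem his, h1]
        omega
      · intro j hj
        rcases Finset.mem_insert.1 hj with rfl | hj
        · exact hi
        · exact h2 j hj
      · rw [Finset.coe_insert]
        refine h3.insert fun j hj _ => ?_
        rw [Finset.disjoint_biUnion_right] at hdisj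
        exact hdisj j (Finset.mem_coe.1 hj)
    set U := s.biUnion D with hU
    have hUc : U.card ≤ (g + 1) * m * (k + 1) := by
      refine le_trans Finset.card_biUnion_le ?_
      refine le_trans (Finset.sum_le_card_nsmul _ _ (k + 1) fun i hi => hlive i (hsl i hi)) ?_
      rw [smul_eq_mul]
      exact Nat.mul_le_mul_right _ hsc
    have hk : ∀ T : Finset (List Bool), ∃ t : DT, t.depth ≤ (g + 1) * m * k ^ 2 ∧
        t.In (⋃ i, ((D i \ U : Finset (List Bool)) : Set (List Bool))) ∧
        ∀ (q : List Bool → unitInterval) (ε : ℝ), 0 ≤ ε → ε ≤ 1 →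
        (∀ z ∈ S, ∀ β, ε ≤ w β (q z)) →
        (rnd q).real (nb g S {A | ¬ (t.eval A = true ↔ ∃ i, f i (ow U T A))}) ≤
          (((g + 1) * m * W + 1 : ℕ) : ℝ) ^ (g * k) * ((g + 1) * (1 - ε ^ W) ^ m) := by
      intro T
      refine ih (by omega) ι (fun i A => f i (ow U T A)) (fun i => D i \ U) ?_ ?_ ?_
      · intro i A A' h
        refine hloc i _ _ fun z hz => ?_
        unfold ow
        by_cases hzU : z ∈ U
        · rw [if_pos hzU, if_pos hzU]
        · rw [if_neg hzU, if_neg hzU]
          exact h z (Finset.mem_sdiff.2 ⟨hz, hzU⟩)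
      · intro i
        exact Finset.sdiff_subset.trans (hS i)
      · rintro i ⟨A, hA⟩
        have h1 := hlive i ⟨_, hA⟩
        have h2 := hmax i ⟨_, hA⟩
        rw [Finset.not_disjoint_iff] at h2
        obtain ⟨z, hz1, hz2⟩ := h2
        have h3 : (D i \ U).card < (D i).card :=
          Finset.card_lt_card ⟨Finset.sdiff_subset, fun h => (Finset.mem_sdiff.1 (h hz1)).2 hz2⟩
        omega
    choose K hk1 hk2 hk3 using hk
    refine ⟨DT.qall U.toList K, ?_, ?_, fun q ε e0 e1 hε => ?_⟩
    · refine (DT.depth_qall U.toList K hk1).trans ?_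
      rw [Finset.length_toList]
      calc U.card + (g + 1) * m * k ^ 2 ≤ (g + 1) * m * (k + 1) + (g + 1) * m * k ^ 2 := by omega
        _ = (g + 1) * m * (k + 1 + k ^ 2) := by ring
        _ ≤ (g + 1) * m * (k + 1) ^ 2 := Nat.mul_le_mul_left _ (by nlinarith)
    · refine DT.in_qall _ _ ?_ fun T => DT.In.mono ?_ _ (hk2 T)
      · intro z hz
        rw [Finset.mem_toList, hU, Finset.mem_biUnion] at hz
        obtain ⟨i, _, hz⟩ := hz
        exact Set.mem_iUnion.2 ⟨i, Finset.mem_coe.2 hz⟩
      · refine Set.iUnion_mono fun i => ?_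
        exact Finset.coe_subset.2 Finset.sdiff_subset
    · set ErT : Finset (List Bool) → Set Orc := fun T =>
        {A | ¬ ((K T).eval A = true ↔ ∃ i, f i (ow U T A))} with hErT
      have hErT' : ∀ T, DepOn (S \ U) (ErT T) := by
        intro T A A' h
        have h1 : (K T).eval A = (K T).eval A' := by
          refine DT.eval_congr (fun z hz => h z ?_) _ (hk2 T)
          obtain ⟨i, hz⟩ := Set.mem_iUnion.1 hz
          have h2 := Finset.mem_sdiff.1 (Finset.mem_coe.1 hz)
          exact Finset.mem_sdiff.2 ⟨hS i h2.1, h2.2⟩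
        have h2 : (∃ i, f i (ow U T A)) ↔ ∃ i, f i (ow U T A') := by
          refine exists_congr fun i => hloc i _ _ fun z hz => ?_
          unfold ow
          by_cases hzU : z ∈ U
          · rw [if_pos hzU, if_pos hzU]
          · rw [if_neg hzU, if_neg hzU]
            exact h z (Finset.mem_sdiff.2 ⟨hS i hz, hzU⟩)
        change ¬ _ ↔ ¬ _
        rw [h1, h2]
      -- the pattern of a changed oracle
      set pat : Orc → Finset (List Bool) → Finset (List Bool) := fun A T =>
        U.filter fun z => xr A T z = true with hpat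
      have hcover : nb g S {A | ¬ ((DT.qall U.toList K).eval A = true ↔ ∃ i, f i A)} ⊆
          ⋃ T ∈ U.powerset.filter (fun T => T.card ≤ g), {A | A ∈ nb g S (ErT (pat A T))} := by
        rintro A ⟨T, hT1, hT2, hT3⟩
        have hp : pat A (T ∩ U) = U.filter fun z => xr A T z = true := by
          refine Finset.filter_congr fun z hz => ?_
          unfold xr
          simp [hz]
        refine Set.mem_iUnion₂.2 ⟨T ∩ U, Finset.mem_filter.2 ⟨Finset.mem_powerset.2
          Finset.inter_subset_right, (Finset.card_le_card Finset.inter_subset_left).trans hT2⟩, ?_⟩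
        refine ⟨T, hT1, hT2, ?_⟩
        have h4 : (DT.qall U.toList K).eval (xr A T) = (K (pat A (T ∩ U))).eval (xr A T) := by
          rw [DT.eval_qall, Finset.toList_toFinset, hp]
        have h5 : ow U (pat A (T ∩ U)) (xr A T) = xr A T := by
          refine ow_cyl ?_
          exact hp.symm
        change ¬ _
        change ¬ _ at hT3
        rw [h4] at hT3
        rw [h5]
        exact hT3
      refine (measureReal_mono hcover (measure_ne_top _ _)).trans
        ((measureReal_biUnion_finset_le _ _).trans ?_)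
      set b : ℝ := (((g + 1) * m * W + 1 : ℕ) : ℝ) ^ (g * k) * ((g + 1) * (1 - ε ^ W) ^ m) with hb
      have hb0 : 0 ≤ b := hnn k ε e0 e1
      have hterm : ∀ T ∈ U.powerset.filter (fun T => T.card ≤ g),
          (rnd q).real {A | A ∈ nb g S (ErT (pat A T))} ≤ b := by
        intro T hT
        have hdep : DepOn (S ∪ U) {A | A ∈ nb g S (ErT (pat A T))} := by
          intro A A' h
          have h6 : pat A T = pat A' T := by
            refine Finset.filter_congr fun z hz => ?_
            unfold xr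
            rw [h z (Finset.mem_union_right _ hz)]
          change A ∈ nb g S (ErT (pat A T)) ↔ A' ∈ nb g S (ErT (pat A' T))
          rw [h6]
          exact depOn_nb (hErT' _) A A' fun x hx =>
            h x (Finset.mem_union_left _ (Finset.mem_sdiff.1 hx).1)
        rw [resample q hdep U]
        have hterm2 : ∀ T0 ∈ U.powerset, (rnd q).real (cyl U T0) *
            (rnd q).real {A | ow U T0 A ∈ {A | A ∈ nb g S (ErT (pat A T))}} ≤
            (rnd q).real (cyl U T0) * b := by
          intro T0 hT0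
          refine mul_le_mul_of_nonneg_left ?_ measureReal_nonneg
          have hpc : ∀ A : Orc, pat (ow U T0 A) T =
              U.filter fun z => (decide (z ∈ T0)).xor (decide (z ∈ T)) = true := by
            intro A
            refine Finset.filter_congr fun z hz => ?_
            unfold xr ow
            rw [if_pos hz]
          refine le_trans (measureReal_mono ?_ (measure_ne_top _ _))
            (hk3 (U.filter fun z => (decide (z ∈ T0)).xor (decide (z ∈ T)) = true) q ε e0 e1 hε)
          intro A hA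
          change ow U T0 A ∈ nb g S (ErT (pat (ow U T0 A) T)) at hA
          rw [hpc] at hA
          refine (depOn_nb (hErT' _) (ow U T0 A) A fun x hx => ?_).1 hA
          unfold ow
          rw [if_neg (Finset.mem_sdiff.1 hx).2]
        refine (Finset.sum_le_sum hterm2).trans ?_
        rw [← Finset.sum_mul, sum_cyl, one_mul]
      refine (Finset.sum_le_card_nsmul _ _ b hterm).trans ?_
      rw [nsmul_eq_mul]
      have h7 : (((U.powerset.filter fun T => T.card ≤ g).card : ℕ) : ℝ) ≤
          (((g + 1) * m * W + 1 : ℕ) : ℝ) ^ g := by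
        have h8 : (U.powerset.filter fun T => T.card ≤ g).card ≤ ((g + 1) * m * W + 1) ^ g := by
          refine (card_small U g).trans (Nat.pow_le_pow_left ?_ _)
          refine Nat.succ_le_succ (hUc.trans (Nat.mul_le_mul_left _ hw))
        exact_mod_cast h8
      refine (mul_le_mul_of_nonneg_right h7 hb0).trans (le_of_eq ?_)
      rw [hb, ← mul_assoc, ← pow_add]
      congr 2
      ring

end Pool.Agent.H20NC
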